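import Pool.Agent.Work.MP_1ce82a_an.S.Defs

-- merged part: Pool.Agent.Work.MP_1ce82a_an.K.KDefs
section
/-! Definitions for the invariant tori on the standard torus. FROZEN: do not edit. -/

open Set Filter Topology MeasureTheory
open scoped ContDiff ComplexConjugate

noncomputable section
namespace Pool.Agent.Work.MP_1ce82a_an.K

open Pool.Agent.Work.MP_1ce82a_an (E addPot)

/-- The complexified plane. -/
abbrev C2 : Type := ℂ × ℂ

/-- The real points. -/
def io (x : E) : C2 := ((x.1 : ℂ), (x.2 : ℂ))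

/-- The closed strip of width `σ`. -/
def St (σ : ℝ) : Set C2 := {z | |z.1.im| ≤ σ ∧ |z.2.im| ≤ σ}

/-- `u` is bounded by `M` on the strip of width `σ`. -/
def Bd (σ M : ℝ) (u : C2 → ℂ) : Prop := ∀ z ∈ St σ, ‖u z‖ ≤ M

/-- Entire periodic functions which are real at the real points. -/
structure Ent (u : C2 → ℂ) : Prop where
  sm : ContDiff ℂ ∞ u
  p1 : ∀ z, u (z + (1, 0)) = u z
  p2 : ∀ z, u (z + (0, 1)) = u z
  re : ∀ x : E, (u (io x)).im = 0

/-- The derivative in a real direction. -/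
def dv (a : E) (u : C2 → ℂ) : C2 → ℂ := fun z => fderiv ℂ u z (io a)

/-- The change of variables defined by `U`. -/
def sh (U : C2 → ℂ) (z : C2) : C2 := (z.1 + U z, z.2)

/-- The error in the equation of the invariant torus. -/
def er (ρ : ℝ) (G U : C2 → ℂ) : C2 → ℂ :=
  fun z => dv (ρ, 1) (dv (ρ, 1) U) z - G (sh U z)

/-- The exponentials. -/
def ek (k : ℤ × ℤ) (z : C2) : ℂ :=
  Complex.exp (2 * Real.pi * Complex.I * (k.1 * z.1 + k.2 * z.2))

/-- The Fourier coefficients. -/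
def cf (φ : E → ℂ) (k : ℤ × ℤ) : ℂ :=
  ∫ s in (0 : ℝ)..1, ∫ t in (0 : ℝ)..1, φ (s, t) * ek (-k) (io (s, t))

/-- The mean over the real torus. -/
def mn (u : C2 → ℂ) : ℂ := cf (fun x => u (io x)) 0

/-- The size of a frequency. -/
def nk (k : ℤ × ℤ) : ℝ := 1 + |(k.1 : ℝ)| + |(k.2 : ℝ)|

/-- Real trigonometric polynomials. -/
def tp (a : ℤ × ℤ → ℂ) (F : Finset (ℤ × ℤ)) (z : C2) : ℂ :=
  ∑ k ∈ F, (a k * ek k z + conj (a k) * ek (-k) z) / 2

/-- Periodic functions on the plane. -/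
def Per {α : Type} (φ : E → α) : Prop :=
  (∀ x, φ (x + (1, 0)) = φ x) ∧ ∀ x, φ (x + (0, 1)) = φ x

/-- The Diophantine condition. -/
def Dio (γ ρ : ℝ) : Prop := ∀ k : ℤ × ℤ, k ≠ 0 → γ ≤ |ρ * k.1 + k.2| * nk k ^ 2

/-- The velocity with slope `p` at the level `e`. -/
def vel (p e : ℝ) : E := (p / (1 - e), 1 / (1 - e))

/-- The property of the kinetic energy which makes the reduction to one degree of freedom work. -/
def LagP (l : E → ℝ) (r : ℝ) : Prop :=
  ∀ p e : ℝ, |p| ≤ r → |e| ≤ r →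
    (∀ v : E, p * v.1 + (e - e ^ 2 / 2 - p ^ 2 / 2) * v.2 + ‖v - vel p e‖ ^ 2 / 4 ≤ l v + e) ∧
      p * (vel p e).1 + (e - e ^ 2 / 2 - p ^ 2 / 2) * (vel p e).2 = l (vel p e) + e

/-- Subsolutions in the class with periods `c`. -/
structure Sub (F : E × E → ℝ) (c : ℝ × ℝ) (a : ℝ) (u : E → ℝ) : Prop where
  sm : ContDiff ℝ 1 u
  p1 : ∀ x, u (x + (1, 0)) = u x + c.1
  p2 : ∀ x, u (x + (0, 1)) = u x + c.2
  le : ∀ x v, fderiv ℝ u x v ≤ F (x, v) + a

/-- An invariant torus at the level `En`, with slope `ρ`, in the class with periods `c`. -/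
structure Dat (F : E × E → ℝ) (En ρ : ℝ) (c : ℝ × ℝ) where
  S : E → ℝ
  Θ : E → ℝ
  V : E → E
  Ψ : E → E
  lam : E → ℝ
  hS : ContDiff ℝ 1 S
  hΘ : ContDiff ℝ 1 Θ
  S1 : ∀ x, S (x + (1, 0)) = S x + c.1
  S2 : ∀ x, S (x + (0, 1)) = S x + c.2
  T1 : ∀ x, Θ (x + (1, 0)) = Θ x + 1
  T2 : ∀ x, Θ (x + (0, 1)) = Θ x - ρ
  dT : ∀ x, ‖fderiv ℝ Θ x‖ ≤ 3
  dTV : ∀ x, fderiv ℝ Θ x (V x) = 0
  sub : ∀ x v, fderiv ℝ S x v + ‖v - V x‖ ^ 2 / 4 ≤ F (x, v) + En
  cal : ∀ x, fderiv ℝ S x (V x) = F (x, V x) + En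
  cont : Continuous Ψ
  surj : Function.Surjective Ψ
  P1 : ∀ x, Ψ (x + (1, 0)) = Ψ x + (1, 0)
  P2 : ∀ x, Ψ (x + (0, 1)) = Ψ x + (0, 1)
  l1 : ∀ x, 1 / 2 ≤ lam x
  l2 : ∀ x, lam x ≤ 2
  flow : ∀ x, HasDerivAt (fun s : ℝ => Ψ (x + s • ((ρ, 1) : E))) (lam x • V (Ψ x)) 0

/-- `G` acts by the integer translations. -/
structure Std {G : Type} [Group G] [MulAction G E] (τ : G → ℤ × ℤ) : Prop where
  bij : Function.Bijective τ
  act : ∀ (g : G) (x : E), g • x = x + (((τ g).1 : ℝ), ((τ g).2 : ℝ))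

/-- The class with periods `c`. -/
def cls {G : Type} (τ : G → ℤ × ℤ) (c : ℝ × ℝ) : G → ℝ :=
  fun g => c.1 * (τ g).1 + c.2 * (τ g).2

end Pool.Agent.Work.MP_1ce82a_an.K
end
end

-- merged part: Pool.Agent.Work.MP_1ce82a_an.K.Calc
section
/-! Calculus of entire periodic functions.

PLAN. Closure properties from `ContDiff.add`, `ContDiff.mul`, ...; `Ent.dv`: smoothness by
`ContDiff.fderiv_right` and `ContDiff.clm_apply`, periodicity by `fderiv_comp_add_right` (or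
`HasFDerivAt.comp` with the translation), reality from `fderiv_res` (the real function
`x ↦ (u (io x)).im` vanishes, so does its derivative). `dv_comm`:
`ContDiffAt.isSymmSndFDerivAt`. `fderiv_res`: `io` is a real continuous linear map,
`HasFDerivAt.restrictScalars`. About 250 lines. -/

set_option linter.unusedVariables false

open Set Filter Topology MeasureTheory
open scoped ContDiff ComplexConjugate

noncomputable section
namespace Pool.Agent.Work.MP_1ce82a_an.K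

open Pool.Agent.Work.MP_1ce82a_an (E addPot)

theorem io_add (x y : E) : io (x + y) = io x + io y := by
  simp [io]

theorem norm_io (x : E) : ‖io x‖ = ‖x‖ := by
  simp [io, Prod.norm_def]

theorem io_mem {σ : ℝ} (h : 0 ≤ σ) (x : E) : io x ∈ St σ := by
  simp [io, St, h]

theorem St_mono {σ σ' : ℝ} (h : σ ≤ σ') : St σ ⊆ St σ' :=
  fun z hz => ⟨hz.1.trans h, hz.2.trans h⟩

theorem Bd.mono {σ σ' M M' : ℝ} {u : C2 → ℂ} (h : Bd σ M u) (h1 : σ' ≤ σ) (h2 : M ≤ M') :
    Bd σ' M' u :=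
  fun z hz => (h z (St_mono h1 hz)).trans h2

theorem Ent.const (c : ℝ) : Ent fun _ => (c : ℂ) :=
  ⟨contDiff_const, fun _ => rfl, fun _ => rfl, fun _ => Complex.ofReal_im c⟩

theorem Ent.const' {c : ℂ} (h : c.im = 0) : Ent fun _ => c :=
  ⟨contDiff_const, fun _ => rfl, fun _ => rfl, fun _ => h⟩

theorem Ent.add {u v : C2 → ℂ} (hu : Ent u) (hv : Ent v) : Ent fun z => u z + v z :=
  ⟨hu.sm.add hv.sm, fun z => by rw [hu.p1, hv.p1], fun z => by rw [hu.p2, hv.p2],
    fun x => by simp [hu.re, hv.re]⟩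

theorem Ent.sub {u v : C2 → ℂ} (hu : Ent u) (hv : Ent v) : Ent fun z => u z - v z :=
  ⟨hu.sm.sub hv.sm, fun z => by rw [hu.p1, hv.p1], fun z => by rw [hu.p2, hv.p2],
    fun x => by simp [hu.re, hv.re]⟩

theorem Ent.neg {u : C2 → ℂ} (hu : Ent u) : Ent fun z => -u z :=
  ⟨hu.sm.neg, fun z => by rw [hu.p1], fun z => by rw [hu.p2], fun x => by simp [hu.re]⟩

theorem Ent.mul {u v : C2 → ℂ} (hu : Ent u) (hv : Ent v) : Ent fun z => u z * v z :=
  ⟨hu.sm.mul hv.sm, fun z => by rw [hu.p1, hv.p1], fun z => by rw [hu.p2, hv.p2],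
    fun x => by simp [hu.re, hv.re]⟩

theorem Ent.pow {u : C2 → ℂ} (hu : Ent u) (n : ℕ) : Ent fun z => u z ^ n := by
  induction n with
  | zero => simpa using Ent.const 1
  | succ n ih => simpa [pow_succ] using ih.mul hu

theorem Ent.sum {ι : Type} {s : Finset ι} {u : ι → C2 → ℂ} (hu : ∀ i ∈ s, Ent (u i)) :
    Ent fun z => ∑ i ∈ s, u i z :=
  ⟨ContDiff.sum fun i hi => (hu i hi).sm,
    fun z => Finset.sum_congr rfl fun i hi => (hu i hi).p1 z,
    fun z => Finset.sum_congr rfl fun i hi => (hu i hi).p2 z,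
    fun x => by rw [Complex.im_sum]; exact Finset.sum_eq_zero fun i hi => (hu i hi).re x⟩

theorem Calc_sh {U : C2 → ℂ} (hU : ContDiff ℂ ∞ U) : ContDiff ℂ ∞ (sh U) :=
  (contDiff_fst.add hU).prodMk contDiff_snd

theorem Calc_shio {U : C2 → ℂ} (hU : Ent U) (x : E) :
    sh U (io x) = io (x.1 + (U (io x)).re, x.2) := by
  have h : U (io x) = ((U (io x)).re : ℂ) := Complex.ext (by simp) (by simp [hU.re])
  refine Prod.ext ?_ rfl
  change (x.1 : ℂ) + U (io x) = ((x.1 + (U (io x)).re : ℝ) : ℂ)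
  rw [Complex.ofReal_add, ← h]

theorem Ent.comp {G U : C2 → ℂ} (hG : Ent G) (hU : Ent U) : Ent fun z => G (sh U z) := by
  refine ⟨hG.sm.comp (Calc_sh hU.sm), fun z => ?_, fun z => ?_, fun x => ?_⟩
  · rw [← hG.p1 (sh U z)]
    congr 1
    simp only [sh, hU.p1]
    exact Prod.ext (by simp; ring) (by simp)
  · rw [← hG.p2 (sh U z)]
    congr 1
    simp only [sh, hU.p2]
    exact Prod.ext (by simp) (by simp)
  · rw [Calc_shio hU]
    exact hG.re _

theorem sm_dv {u : C2 → ℂ} (hu : ContDiff ℂ ∞ u) (a : E) : ContDiff ℂ ∞ (dv a u) :=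
  (hu.fderiv_right (m := ∞) (by simp)).clm_apply contDiff_const

/-- The inclusion of the real points as a linear map. -/
def Calc_io : E →L[ℝ] C2 := Complex.ofRealCLM.prodMap Complex.ofRealCLM

theorem Calc_io_apply (x : E) : Calc_io x = io x := rfl

theorem sm_res {u : C2 → ℂ} (hu : ContDiff ℂ ∞ u) : ContDiff ℝ ∞ fun x : E => u (io x) :=
  (hu.restrict_scalars ℝ).comp Calc_io.contDiff

theorem fderiv_res {u : C2 → ℂ} (hu : ContDiff ℂ ∞ u) (x a : E) :
    fderiv ℝ (fun y : E => u (io y)) x a = dv a u (io x) := by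
  have h := (((hu.differentiable (by simp)) (io x)).hasFDerivAt.restrictScalars ℝ).comp x
    (Calc_io.hasFDerivAt (x := x))
  exact congrArg (fun L : E →L[ℝ] ℂ => L a) h.fderiv

theorem Ent.per {u : C2 → ℂ} (hu : Ent u) : Per fun x : E => u (io x) := by
  refine ⟨fun x => ?_, fun x => ?_⟩ <;> beta_reduce
  · rw [io_add, ← hu.p1 (io x)]
    simp [io]
  · rw [io_add, ← hu.p2 (io x)]
    simp [io]

theorem Ent.dv {u : C2 → ℂ} (hu : Ent u) (a : E) : Ent (dv a u) := by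
  refine ⟨sm_dv hu.sm a, fun z => ?_, fun z => ?_, fun x => ?_⟩
  · unfold K.dv
    rw [← fderiv_comp_add_right, funext hu.p1]
  · unfold K.dv
    rw [← fderiv_comp_add_right, funext hu.p2]
  · rw [← fderiv_res hu.sm]
    have h := Complex.imCLM.hasFDerivAt.comp x
      ((sm_res hu.sm).differentiable (by simp) x).hasFDerivAt
    have e : (Complex.imCLM ∘ fun y : E => u (io y)) = fun _ => 0 := funext fun y => hu.re y
    rw [e] at h
    exact congrArg (fun L : E →L[ℝ] ℝ => L a) (h.unique (hasFDerivAt_const 0 x))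

theorem Ent.er {G U : C2 → ℂ} (hG : Ent G) (hU : Ent U) (ρ : ℝ) : Ent (er ρ G U) :=
  ((hU.dv _).dv _).sub (hG.comp hU)

theorem sh_io {U : C2 → ℂ} (hU : Ent U) (x : E) :
    sh U (io x) = io (x.1 + (U (io x)).re, x.2) :=
  Calc_shio hU x

theorem dv_const (a : E) (c : ℂ) (z : C2) : dv a (fun _ => c) z = 0 := by
  simp [dv]

theorem dv_add {u v : C2 → ℂ} (hu : ContDiff ℂ ∞ u) (hv : ContDiff ℂ ∞ v) (a : E) (z : C2) :
    dv a (fun z => u z + v z) z = dv a u z + dv a v z := by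
  unfold dv
  rw [fderiv_fun_add (hu.differentiable (by simp) z) (hv.differentiable (by simp) z)]
  rfl

theorem dv_sub {u v : C2 → ℂ} (hu : ContDiff ℂ ∞ u) (hv : ContDiff ℂ ∞ v) (a : E) (z : C2) :
    dv a (fun z => u z - v z) z = dv a u z - dv a v z := by
  unfold dv
  rw [fderiv_fun_sub (hu.differentiable (by simp) z) (hv.differentiable (by simp) z)]
  rfl

theorem dv_mul {u v : C2 → ℂ} (hu : ContDiff ℂ ∞ u) (hv : ContDiff ℂ ∞ v) (a : E) (z : C2) :
    dv a (fun z => u z * v z) z = dv a u z * v z + u z * dv a v z := by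
  unfold dv
  rw [fderiv_fun_mul (hu.differentiable (by simp) z) (hv.differentiable (by simp) z)]
  simp only [add_apply, smul_apply, smul_eq_mul]
  ring

theorem dv_sum {ι : Type} {s : Finset ι} {u : ι → C2 → ℂ} (hu : ∀ i ∈ s, ContDiff ℂ ∞ (u i))
    (a : E) (z : C2) : dv a (fun z => ∑ i ∈ s, u i z) z = ∑ i ∈ s, dv a (u i) z := by
  unfold dv
  rw [fderiv_fun_sum fun i hi => (hu i hi).differentiable (by simp) z]
  simp

theorem dv_comm {u : C2 → ℂ} (hu : ContDiff ℂ ∞ u) (a b : E) (z : C2) :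
    dv a (dv b u) z = dv b (dv a u) z := by
  have h1 : DifferentiableAt ℂ (fderiv ℂ u) z :=
    (hu.fderiv_right (m := ∞) (by simp)).differentiable (by simp) z
  have h : ∀ a b : E, dv a (dv b u) z = fderiv ℂ (fderiv ℂ u) z (io a) (io b) := fun a b => by
    unfold dv
    rw [fderiv_clm_apply h1 (differentiableAt_const _)]
    simp
  rw [h, h]
  refine (hu.contDiffAt.isSymmSndFDerivAt ?_) _ _
  rw [minSmoothness_of_isRCLikeNormedField]
  exact WithTop.coe_le_coe.2 (le_top : (2 : ℕ∞) ≤ ⊤)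

theorem dv_comp {G U : C2 → ℂ} (hG : ContDiff ℂ ∞ G) (hU : ContDiff ℂ ∞ U) (z : C2) :
    dv (1, 0) (fun z => G (sh U z)) z = dv (1, 0) G (sh U z) * (1 + dv (1, 0) U z) := by
  have h1 : HasFDerivAt (sh U) ((ContinuousLinearMap.fst ℂ ℂ ℂ + fderiv ℂ U z).prod
      (ContinuousLinearMap.snd ℂ ℂ ℂ)) z :=
    (hasFDerivAt_fst.add (hU.differentiable (by simp) z).hasFDerivAt).prodMk hasFDerivAt_snd
  have h2 := ((hG.differentiable (by simp) (sh U z)).hasFDerivAt.comp z h1).fderiv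
  unfold dv
  rw [show (fun z => G (sh U z)) = G ∘ sh U from rfl, h2, mul_comm, ← smul_eq_mul, ← map_smul]
  simp [io]

theorem norm_dv_le (u : C2 → ℂ) (a : E) (z : C2) : ‖dv a u z‖ ≤ ‖fderiv ℂ u z‖ * ‖a‖ := by
  rw [← norm_io a]
  exact (fderiv ℂ u z).le_opNorm _

end Pool.Agent.Work.MP_1ce82a_an.K
end
end

-- merged part: Pool.Agent.Work.MP_1ce82a_an.K.Fou
section
/-! Elementary properties of the Fourier coefficients.

PLAN. Inner integrals are continuous in the outer variable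
(`intervalIntegral.continuous_parametric_intervalIntegral_of_continuous'`). `cf_swap`:
`intervalIntegral_integral_swap` or `MeasureTheory.integral_integral_swap` on `Ioc 0 1`.
`cf_fderiv`: write `a = a.1 • (1, 0) + a.2 • (0, 1)`; for `(0, 1)` integrate the derivative of
`t ↦ φ (s, t) * ek (-k) (io (s, t))` over a period
(`intervalIntegral.integral_eq_sub_of_hasDerivAt`), for `(1, 0)` use `cf_swap` first.
About 300 lines. -/

set_option linter.unusedVariables false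

open Set Filter Topology MeasureTheory
open scoped ContDiff ComplexConjugate

noncomputable section
namespace Pool.Agent.Work.MP_1ce82a_an.K

open Pool.Agent.Work.MP_1ce82a_an (E addPot)

theorem ek_zero (z : C2) : ek 0 z = 1 := by
  simp [ek]

theorem ek_add (k : ℤ × ℤ) (z w : C2) : ek k (z + w) = ek k z * ek k w := by
  unfold ek
  rw [← Complex.exp_add]
  congr 1
  simp only [Prod.fst_add, Prod.snd_add]
  ring

theorem ek_mul (k l : ℤ × ℤ) (z : C2) : ek k z * ek l z = ek (k + l) z := by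
  unfold ek
  rw [← Complex.exp_add]
  congr 1
  simp only [Prod.fst_add, Prod.snd_add]
  push_cast
  ring

theorem sm_ek (k : ℤ × ℤ) : ContDiff ℂ ∞ (ek k) := by
  unfold ek
  fun_prop

theorem ek_p1 (k : ℤ × ℤ) (z : C2) : ek k (z + (1, 0)) = ek k z := by
  have h : ek k (1, 0) = 1 := by
    unfold ek
    refine Eq.trans ?_ (Complex.exp_int_mul_two_pi_mul_I k.1)
    congr 1
    simp only [mul_one, mul_zero, add_zero]
    ring
  rw [ek_add, h, mul_one]

theorem ek_p2 (k : ℤ × ℤ) (z : C2) : ek k (z + (0, 1)) = ek k z := by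
  have h : ek k (0, 1) = 1 := by
    unfold ek
    refine Eq.trans ?_ (Complex.exp_int_mul_two_pi_mul_I k.2)
    congr 1
    simp only [mul_one, mul_zero, zero_add]
    ring
  rw [ek_add, h, mul_one]

theorem norm_ek_io (k : ℤ × ℤ) (x : E) : ‖ek k (io x)‖ = 1 := by
  have h : ek k (io x) = Complex.exp (((2 * Real.pi * (k.1 * x.1 + k.2 * x.2) : ℝ) : ℂ) *
      Complex.I) := by
    unfold ek io
    congr 1
    push_cast
    ring
  rw [h, Complex.norm_exp_ofReal_mul_I]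

theorem conj_ek_io (k : ℤ × ℤ) (x : E) : conj (ek k (io x)) = ek (-k) (io x) := by
  unfold ek io
  rw [← Complex.exp_conj]
  congr 1
  simp only [map_mul, map_add, Complex.conj_ofReal, Complex.conj_I, map_intCast, map_ofNat,
    Prod.fst_neg, Prod.snd_neg]
  push_cast
  ring

theorem dv_ek (k : ℤ × ℤ) (a : E) (z : C2) :
    dv a (ek k) z = 2 * Real.pi * Complex.I * (k.1 * a.1 + k.2 * a.2) * ek k z := by
  have h1 : HasFDerivAt (fun z : C2 => 2 * Real.pi * Complex.I * (k.1 * z.1 + k.2 * z.2))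
      ((2 * Real.pi * Complex.I : ℂ) • ((k.1 : ℂ) • ContinuousLinearMap.fst ℂ ℂ ℂ +
        (k.2 : ℂ) • ContinuousLinearMap.snd ℂ ℂ ℂ)) z :=
    ((hasFDerivAt_fst.const_mul (k.1 : ℂ)).add (hasFDerivAt_snd.const_mul (k.2 : ℂ))).const_mul _
  have h2 : HasFDerivAt (ek k) _ z := h1.cexp
  unfold dv
  rw [h2.fderiv]
  simp only [smul_apply, add_apply,
    ContinuousLinearMap.coe_fst', ContinuousLinearMap.coe_snd', smul_eq_mul, io, ek]
  ring

theorem Fou_ce (k : ℤ × ℤ) : Continuous fun x : E => ek k (io x) := by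
  unfold ek io
  fun_prop

theorem Fou_cont {φ : E → ℂ} (hφ : Continuous φ) (k : ℤ × ℤ) :
    Continuous fun x : E => φ x * ek (-k) (io x) :=
  hφ.mul (Fou_ce _)

theorem Fou_in {φ : E → ℂ} (hφ : Continuous φ) (k : ℤ × ℤ) (s : ℝ) :
    IntervalIntegrable (fun t : ℝ => φ (s, t) * ek (-k) (io (s, t))) volume 0 1 :=
  ((Fou_cont hφ k).comp (Continuous.prodMk_right s)).intervalIntegrable _ _

theorem Fou_out {φ : E → ℂ} (hφ : Continuous φ) (k : ℤ × ℤ) :
    IntervalIntegrable (fun s : ℝ => ∫ t in (0 : ℝ)..1, φ (s, t) * ek (-k) (io (s, t)))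
      volume 0 1 :=
  (intervalIntegral.continuous_parametric_intervalIntegral_of_continuous'
    (f := fun s t => φ (s, t) * ek (-k) (io (s, t))) (Fou_cont hφ k) 0 1).intervalIntegrable _ _

theorem cf_swap {φ : E → ℂ} (hφ : Continuous φ) (k : ℤ × ℤ) :
    cf φ k = ∫ t in (0 : ℝ)..1, ∫ s in (0 : ℝ)..1, φ (s, t) * ek (-k) (io (s, t)) := by
  unfold cf
  refine intervalIntegral_intervalIntegral_swap
    (F := fun s t => φ (s, t) * ek (-k) (io (s, t))) ?_
  have hK : IsCompact (uIcc (0 : ℝ) 1 ×ˢ uIcc (0 : ℝ) 1) := isCompact_uIcc.prod isCompact_uIcc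
  exact ((Fou_cont hφ k).continuousOn.integrableOn_compact hK).mono_set
    (prod_mono uIoc_subset_uIcc uIoc_subset_uIcc)

theorem cf_add {φ ψ : E → ℂ} (hφ : Continuous φ) (hψ : Continuous ψ) (k : ℤ × ℤ) :
    cf (fun x => φ x + ψ x) k = cf φ k + cf ψ k := by
  unfold cf
  rw [← intervalIntegral.integral_add (Fou_out hφ k) (Fou_out hψ k)]
  refine intervalIntegral.integral_congr fun s _ => ?_
  simp only [add_mul]
  exact intervalIntegral.integral_add (Fou_in hφ k s) (Fou_in hψ k s)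

theorem cf_sub {φ ψ : E → ℂ} (hφ : Continuous φ) (hψ : Continuous ψ) (k : ℤ × ℤ) :
    cf (fun x => φ x - ψ x) k = cf φ k - cf ψ k := by
  unfold cf
  rw [← intervalIntegral.integral_sub (Fou_out hφ k) (Fou_out hψ k)]
  refine intervalIntegral.integral_congr fun s _ => ?_
  simp only [sub_mul]
  exact intervalIntegral.integral_sub (Fou_in hφ k s) (Fou_in hψ k s)

theorem cf_mul (c : ℂ) (φ : E → ℂ) (k : ℤ × ℤ) : cf (fun x => c * φ x) k = c * cf φ k := by
  unfold cf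
  simp only [mul_assoc, intervalIntegral.integral_const_mul]

theorem norm_cf_le {φ : E → ℂ} {M : ℝ} (h : ∀ x, ‖φ x‖ ≤ M) (k : ℤ × ℤ) : ‖cf φ k‖ ≤ M := by
  unfold cf
  have h1 : ∀ s : ℝ, ‖∫ t in (0 : ℝ)..1, φ (s, t) * ek (-k) (io (s, t))‖ ≤ M := by
    intro s
    have := intervalIntegral.norm_integral_le_of_norm_le_const (a := 0) (b := 1) (C := M)
      (f := fun t : ℝ => φ (s, t) * ek (-k) (io (s, t)))
      (fun t _ => by rw [norm_mul, norm_ek_io, mul_one]; exact h _)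
    simpa using this
  have := intervalIntegral.norm_integral_le_of_norm_le_const (a := 0) (b := 1) (C := M)
    (f := fun s : ℝ => ∫ t in (0 : ℝ)..1, φ (s, t) * ek (-k) (io (s, t))) (fun s _ => h1 s)
  simpa using this

theorem cf_conj {φ : E → ℂ} (h : ∀ x, (φ x).im = 0) (k : ℤ × ℤ) : conj (cf φ k) = cf φ (-k) := by
  unfold cf
  rw [← intervalIntegral.intervalIntegral_conj]
  refine intervalIntegral.integral_congr fun s _ => ?_
  rw [← intervalIntegral.intervalIntegral_conj]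
  refine intervalIntegral.integral_congr fun t _ => ?_
  rw [map_mul, conj_ek_io, Complex.conj_eq_iff_im.2 (h _)]

theorem Fou_line {φ : E → ℂ} (hφ : ContDiff ℝ 1 φ) (k : ℤ × ℤ) (x b : E)
    (h1 : φ (x + b) = φ x) (h2 : ek (-k) (io (x + b)) = ek (-k) (io x)) :
    ∫ t in (0 : ℝ)..1, fderiv ℝ φ (x + t • b) b * ek (-k) (io (x + t • b)) =
      2 * Real.pi * Complex.I * (k.1 * b.1 + k.2 * b.2) *
        ∫ t in (0 : ℝ)..1, φ (x + t • b) * ek (-k) (io (x + t • b)) := by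
  have hl : ∀ t : ℝ, HasDerivAt (fun t : ℝ => x + t • b) b t := fun t => by
    simpa using ((hasDerivAt_id t).smul_const b).const_add x
  have hcl : Continuous fun t : ℝ => x + t • b := by fun_prop
  have hc : Continuous fun y => fderiv ℝ φ y b :=
    (hφ.continuous_fderiv one_ne_zero).clm_apply continuous_const
  have i1 : IntervalIntegrable
      (fun t : ℝ => fderiv ℝ φ (x + t • b) b * ek (-k) (io (x + t • b))) volume 0 1 :=
    ((Fou_cont hc k).comp hcl).intervalIntegrable _ _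
  have i2 : IntervalIntegrable (fun t : ℝ => 2 * Real.pi * Complex.I * (k.1 * b.1 + k.2 * b.2) *
      (φ (x + t • b) * ek (-k) (io (x + t • b)))) volume 0 1 :=
    (continuous_const.mul ((Fou_cont hφ.continuous k).comp hcl)).intervalIntegrable _ _
  have hd : ∀ t ∈ uIcc (0 : ℝ) 1,
      HasDerivAt (fun t : ℝ => φ (x + t • b) * ek (-k) (io (x + t • b)))
        (fderiv ℝ φ (x + t • b) b * ek (-k) (io (x + t • b)) -
          2 * Real.pi * Complex.I * (k.1 * b.1 + k.2 * b.2) *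
            (φ (x + t • b) * ek (-k) (io (x + t • b)))) t := by
    intro t _
    have d1 := ((hφ.differentiable one_ne_zero) (x + t • b)).hasFDerivAt.comp_hasDerivAt t (hl t)
    have d2 := (((sm_res (sm_ek (-k))).differentiable (by simp))
      (x + t • b)).hasFDerivAt.comp_hasDerivAt t (hl t)
    rw [fderiv_res (sm_ek (-k)), dv_ek] at d2
    refine (d1.mul d2).congr_deriv ?_
    simp only [Function.comp, Prod.fst_neg, Prod.snd_neg]
    push_cast
    ring
  have key := intervalIntegral.integral_eq_sub_of_hasDerivAt hd (i1.sub i2)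
  rw [intervalIntegral.integral_sub i1 i2, intervalIntegral.integral_const_mul, one_smul,
    zero_smul, add_zero, h1, h2, sub_self, sub_eq_zero] at key
  exact key

theorem cf_fderiv {φ : E → ℂ} (hφ : ContDiff ℝ 1 φ) (hp : Per φ) (a : E) (k : ℤ × ℤ) :
    cf (fun x => fderiv ℝ φ x a) k =
      2 * Real.pi * Complex.I * (k.1 * a.1 + k.2 * a.2) * cf φ k := by
  have hc : ∀ b : E, Continuous fun x => fderiv ℝ φ x b := fun b =>
    (hφ.continuous_fderiv one_ne_zero).clm_apply continuous_const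
  have e1 : cf (fun x => fderiv ℝ φ x (1, 0)) k =
      2 * Real.pi * Complex.I * k.1 * cf φ k := by
    rw [cf_swap (hc _), cf_swap hφ.continuous, ← intervalIntegral.integral_const_mul]
    refine intervalIntegral.integral_congr fun t _ => ?_
    have := Fou_line hφ k (0, t) (1, 0) (hp.1 _) (by simpa [io] using ek_p1 (-k) ((0 : ℂ), (t : ℂ)))
    simpa using this
  have e2 : cf (fun x => fderiv ℝ φ x (0, 1)) k =
      2 * Real.pi * Complex.I * k.2 * cf φ k := by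
    unfold cf
    rw [← intervalIntegral.integral_const_mul]
    refine intervalIntegral.integral_congr fun s _ => ?_
    have := Fou_line hφ k (s, 0) (0, 1) (hp.2 _) (by simpa [io] using ek_p2 (-k) ((s : ℂ), (0 : ℂ)))
    simpa using this
  have e3 : (fun x => fderiv ℝ φ x a) = fun x =>
      (a.1 : ℂ) * fderiv ℝ φ x (1, 0) + (a.2 : ℂ) * fderiv ℝ φ x (0, 1) := by
    funext x
    have ha : a = a.1 • ((1, 0) : E) + a.2 • ((0, 1) : E) := by ext <;> simp
    conv_lhs => rw [ha]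
    rw [map_add, map_smul, map_smul, Complex.real_smul, Complex.real_smul]
  have hm : ∀ (c : ℂ) (b : E), Continuous fun x => c * fderiv ℝ φ x b := fun c b =>
    continuous_const.mul (hc b)
  rw [e3, cf_add (hm _ _) (hm _ _), cf_mul, cf_mul, e1, e2]
  ring

theorem mn_add {u v : C2 → ℂ} (hu : Ent u) (hv : Ent v) :
    mn (fun z => u z + v z) = mn u + mn v := by
  exact cf_add (sm_res hu.sm).continuous (sm_res hv.sm).continuous 0

theorem mn_sub {u v : C2 → ℂ} (hu : Ent u) (hv : Ent v) :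
    mn (fun z => u z - v z) = mn u - mn v := by
  exact cf_sub (sm_res hu.sm).continuous (sm_res hv.sm).continuous 0

theorem mn_mul (c : ℂ) (u : C2 → ℂ) : mn (fun z => c * u z) = c * mn u := by
  exact cf_mul c _ 0

theorem mn_const (c : ℂ) : mn (fun _ => c) = c := by
  unfold mn cf
  simp [ek_zero]

theorem mn_dv {u : C2 → ℂ} (hu : Ent u) (a : E) : mn (dv a u) = 0 := by
  have h := cf_fderiv ((sm_res hu.sm).of_le (by simp)) hu.per a 0
  simp only [fderiv_res hu.sm] at h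
  unfold mn
  rw [h]
  simp

theorem mn_im {u : C2 → ℂ} (hu : Ent u) : (mn u).im = 0 := by
  have h := cf_conj (φ := fun x => u (io x)) hu.re 0
  rw [neg_zero] at h
  exact Complex.conj_eq_iff_im.1 h

theorem norm_mn_le {u : C2 → ℂ} {σ M : ℝ} (hσ : 0 ≤ σ) (h : Bd σ M u) : ‖mn u‖ ≤ M := by
  exact norm_cf_le (fun x => h _ (io_mem hσ x)) 0

end Pool.Agent.Work.MP_1ce82a_an.K
end
end

-- merged part: Pool.Agent.Work.MP_1ce82a_an.K.Dec
section
/-! Decay of the Fourier coefficients of a smooth function.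

PLAN. Let `pd a g x = fderiv ℝ g x a`. By induction `(pd a)^[j] g` is smooth, periodic, equal to
`x ↦ iteratedFDeriv ℝ j g x (fun _ => a)` (`iteratedFDeriv_succ_apply_left`,
`fderiv_continuousMultilinear_apply_const`), and by `cf_pd` its coefficient is
`(2 π i (k.1 a.1 + k.2 a.2)) ^ j * cf g k`. Take `a = (1, 0)` or `(0, 1)` according to which of
`|k.1|`, `|k.2|` is larger; `nk k ≤ 3 * max ≤ 2 π * max` for `k ≠ 0`; `norm_cf_le`,
`ContinuousMultilinearMap.le_opNorm`. `gjet`: `g = (En - En ^ 2 / 2) + (1 - En) • f - (1 / 2) • f * f`,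
`norm_iteratedFDeriv_mul_le`, `Nat.sum_range_choose`, `iteratedFDeriv_const_of_ne`.
About 200 lines. -/

set_option linter.unusedVariables false

open Set Filter Topology MeasureTheory
open scoped ContDiff ComplexConjugate

noncomputable section
namespace Pool.Agent.Work.MP_1ce82a_an.K

open Pool.Agent.Work.MP_1ce82a_an (E addPot)

theorem cf_pd {g : E → ℝ} (hg : ContDiff ℝ ∞ g) (hp : Per g) (a : E) (k : ℤ × ℤ) :
    cf (fun x => ((fderiv ℝ g x a : ℝ) : ℂ)) k =
      2 * Real.pi * Complex.I * (k.1 * a.1 + k.2 * a.2) * cf (fun x => (g x : ℂ)) k := by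
  have h1 : ContDiff ℝ 1 fun x => (g x : ℂ) :=
    Complex.ofRealCLM.contDiff.comp (hg.of_le (by simp))
  have h2 : Per fun x => (g x : ℂ) := ⟨fun x => by simp only [hp.1 x], fun x => by simp only [hp.2 x]⟩
  rw [← cf_fderiv h1 h2 a k]
  congr 1
  funext x
  have h3 : HasFDerivAt (fun x => (g x : ℂ)) (Complex.ofRealCLM.comp (fderiv ℝ g x)) x :=
    Complex.ofRealCLM.hasFDerivAt.comp x ((hg.differentiable (by simp)) x).hasFDerivAt
  rw [h3.fderiv]
  rfl

theorem per_pd {g : E → ℝ} (hp : Per g) (a : E) : Per fun x => fderiv ℝ g x a := by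
  constructor
  · intro x
    show fderiv ℝ g (x + (1, 0)) a = fderiv ℝ g x a
    rw [← fderiv_comp_add_right, funext hp.1]
  · intro x
    show fderiv ℝ g (x + (0, 1)) a = fderiv ℝ g x a
    rw [← fderiv_comp_add_right, funext hp.2]

theorem Dec_iter {g : E → ℝ} (hg : ContDiff ℝ ∞ g) (hp : Per g) (a : E) (k : ℤ × ℤ) (j : ℕ) :
    ContDiff ℝ ∞ (fun x => iteratedFDeriv ℝ j g x fun _ => a) ∧
      Per (fun x => iteratedFDeriv ℝ j g x fun _ => a) ∧
      cf (fun x => ((iteratedFDeriv ℝ j g x fun _ => a : ℝ) : ℂ)) k =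
        (2 * Real.pi * Complex.I * (k.1 * a.1 + k.2 * a.2)) ^ j * cf (fun x => (g x : ℂ)) k := by
  induction j with
  | zero => simpa [iteratedFDeriv_zero_apply] using And.intro hg hp
  | succ j ih =>
    obtain ⟨h1, h2, h3⟩ := ih
    have hd : Differentiable ℝ (iteratedFDeriv ℝ j g) :=
      (hg.iteratedFDeriv_right (m := 1) (i := j) (by exact_mod_cast le_top)).differentiable
        (by simp)
    have e : (fun x => iteratedFDeriv ℝ (j + 1) g x fun _ => a) =
        fun x => fderiv ℝ (fun y => iteratedFDeriv ℝ j g y fun _ => a) x a := by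
      funext x
      rw [iteratedFDeriv_succ_apply_left, fderiv_continuousMultilinear_apply_const_apply (hd x)]
      rfl
    refine ⟨?_, ?_, ?_⟩
    · rw [e]
      exact (h1.fderiv_right (m := ∞) (by simp)).clm_apply contDiff_const
    · rw [e]
      exact per_pd h2 a
    · have e' : (fun x => ((iteratedFDeriv ℝ (j + 1) g x fun _ => a : ℝ) : ℂ)) =
          fun x => ((fderiv ℝ (fun y => iteratedFDeriv ℝ j g y fun _ => a) x a : ℝ) : ℂ) := by
        funext x
        rw [congrFun e x]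
      rw [e', cf_pd h1 h2 a k, h3, pow_succ]
      ring

theorem Dec_dir {g : E → ℝ} (hg : ContDiff ℝ ∞ g) (hp : Per g) {j : ℕ} {δ : ℝ}
    (h : ∀ x, ‖iteratedFDeriv ℝ j g x‖ ≤ δ) (k : ℤ × ℤ) {a : E} (ha : ‖a‖ = 1)
    (hk : nk k ≤ 3 * |(k.1 : ℝ) * a.1 + k.2 * a.2|) :
    ‖cf (fun x => (g x : ℂ)) k‖ * nk k ^ j ≤ δ := by
  obtain ⟨-, -, h3⟩ := Dec_iter hg hp a k j
  have h4 : ‖cf (fun x => ((iteratedFDeriv ℝ j g x fun _ => a : ℝ) : ℂ)) k‖ ≤ δ := by
    apply norm_cf_le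
    intro x
    rw [Complex.norm_real]
    refine ((iteratedFDeriv ℝ j g x).le_opNorm _).trans ?_
    simpa [ha] using h x
  rw [h3, norm_mul, norm_pow] at h4
  have h5 : nk k ≤ ‖(2 * Real.pi * Complex.I * (k.1 * a.1 + k.2 * a.2) : ℂ)‖ := by
    have e : ((k.1 : ℂ) * a.1 + k.2 * a.2) = (((k.1 : ℝ) * a.1 + k.2 * a.2 : ℝ) : ℂ) := by
      push_cast
      rfl
    rw [e, norm_mul, norm_mul, norm_mul, Complex.norm_I, Complex.norm_real, Complex.norm_real,
      Real.norm_eq_abs, Real.norm_eq_abs, abs_of_pos Real.pi_pos]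
    have := Real.pi_gt_three
    have h6 := abs_nonneg ((k.1 : ℝ) * a.1 + k.2 * a.2)
    simp only [Complex.norm_ofNat]
    linarith only [hk, h6, this, mul_nonneg_of_nonpos_of_nonpos (le_of_lt (Mathlib.Tactic.Linarith.sub_neg_of_lt this)) (Mathlib.Tactic.Linarith.sub_nonpos_of_le h6)]
  have h0 : 0 ≤ nk k := by
    unfold nk
    positivity
  calc _ ≤ ‖cf (fun x => (g x : ℂ)) k‖ *
        ‖(2 * Real.pi * Complex.I * (k.1 * a.1 + k.2 * a.2) : ℂ)‖ ^ j :=
        mul_le_mul_of_nonneg_left (pow_le_pow_left₀ h0 h5 j) (norm_nonneg _)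
    _ ≤ δ := by rwa [mul_comm]

theorem dec {g : E → ℝ} (hg : ContDiff ℝ ∞ g) (hp : Per g) {j : ℕ} {δ : ℝ}
    (h : ∀ x, ‖iteratedFDeriv ℝ j g x‖ ≤ δ) {k : ℤ × ℤ} (hk : k ≠ 0) :
    ‖cf (fun x => (g x : ℂ)) k‖ * nk k ^ j ≤ δ := by
  have one : ∀ m : ℤ, m ≠ 0 → (1 : ℝ) ≤ |(m : ℝ)| := by
    intro m hm
    have : (1 : ℤ) ≤ |m| := Int.one_le_abs hm
    exact_mod_cast this
  have hmax : (1 : ℝ) ≤ |(k.1 : ℝ)| ∨ (1 : ℝ) ≤ |(k.2 : ℝ)| := by
    by_cases h1 : k.1 = 0
    · right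
      apply one
      intro h2
      exact hk (Prod.ext h1 h2)
    · exact Or.inl (one _ h1)
  rcases le_total |(k.1 : ℝ)| |(k.2 : ℝ)| with h1 | h1
  · refine Dec_dir hg hp h k (a := (0, 1)) (by simp [Prod.norm_def]) ?_
    simp only [nk, mul_zero, mul_one, zero_add]
    rcases hmax with h2 | h2 <;> linarith only [h1, h2]
  · refine Dec_dir hg hp h k (a := (1, 0)) (by simp [Prod.norm_def]) ?_
    simp only [nk, mul_zero, mul_one, add_zero]
    rcases hmax with h2 | h2 <;> linarith only [h1, h2]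

theorem gjet {f : E → ℝ} (hf : ContDiff ℝ ∞ f) {j : ℕ} (hj : 1 ≤ j) {δ En : ℝ} (h1 : δ ≤ 1)
    (hE : |En| ≤ 1) (h : ∀ i ≤ j, ∀ x, ‖iteratedFDeriv ℝ i f x‖ ≤ δ) (x : E) :
    ‖iteratedFDeriv ℝ j (fun y => (En + f y) - (En + f y) ^ 2 / 2) x‖ ≤ (2 + 2 ^ j) * δ := by
  have hδ : 0 ≤ δ := (norm_nonneg _).trans (h 0 (Nat.zero_le _) x)
  have hfj : ContDiff ℝ j f := hf.of_le (by exact_mod_cast le_top)
  have e : (fun y => (En + f y) - (En + f y) ^ 2 / 2) =
      fun y => ((En - En ^ 2 / 2) + (1 - En) • f y) - (1 / 2 : ℝ) • (f y * f y) := by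
    funext y
    simp only [smul_eq_mul]
    ring
  have hff : ContDiff ℝ j fun y => f y * f y := hfj.mul hfj
  rw [e, fun_iteratedFDeriv_sub_apply
      ((contDiff_const.add (hfj.const_smul (1 - En))).contDiffAt)
      ((hff.const_smul (1 / 2 : ℝ)).contDiffAt),
    fun_iteratedFDeriv_add_apply contDiffAt_const (hfj.const_smul (1 - En)).contDiffAt,
    iteratedFDeriv_const_of_ne (by omega), iteratedFDeriv_const_smul_apply' hfj.contDiffAt,
    iteratedFDeriv_const_smul_apply' hff.contDiffAt, Pi.zero_apply, zero_add]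
  have h2 : ‖(1 - En) • iteratedFDeriv ℝ j f x‖ ≤ 2 * δ := by
    rw [norm_smul, Real.norm_eq_abs]
    have : |1 - En| ≤ 2 := by
      have := abs_le.1 hE
      exact abs_le.2 ⟨by linarith only [this, this.2], by linarith only [this, this.1]⟩
    exact mul_le_mul this (h j le_rfl x) (norm_nonneg _) zero_le_two
  have h3 : ‖iteratedFDeriv ℝ j (fun y => f y * f y) x‖ ≤ 2 ^ j * δ := by
    refine (norm_iteratedFDeriv_mul_le hfj hfj x le_rfl).trans ?_
    calc _ ≤ ∑ i ∈ Finset.range (j + 1), (j.choose i : ℝ) * δ := by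
          refine Finset.sum_le_sum fun i hi => ?_
          have hi' : i ≤ j := Nat.lt_succ_iff.1 (Finset.mem_range.1 hi)
          have a1 := h i hi' x
          have a2 := (h (j - i) (Nat.sub_le _ _) x).trans h1
          calc _ ≤ (j.choose i : ℝ) * δ * 1 := by gcongr
            _ = _ := mul_one _
      _ = _ := by
          rw [← Finset.sum_mul]
          congr 1
          exact_mod_cast Nat.sum_range_choose j
  have h4 : ‖(1 / 2 : ℝ) • iteratedFDeriv ℝ j (fun y => f y * f y) x‖ ≤ 2 ^ j * δ := by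
    rw [norm_smul, Real.norm_eq_abs, abs_of_pos (by norm_num)]
    have := norm_nonneg (iteratedFDeriv ℝ j (fun y => f y * f y) x)
    linarith only [h3, this]
  refine (norm_sub_le _ _).trans ?_
  linarith only [h2, h4]

end Pool.Agent.Work.MP_1ce82a_an.K
end
end

-- merged part: Pool.Agent.Work.MP_1ce82a_an.K.Inv
section
/-! Fourier inversion on the real torus.

PLAN. One variable uniqueness: a continuous function `ψ` of period one with
`∫ t in 0..1, ψ t * exp (-2 π i n t) = 0` for all integers `n` vanishes (lift to `AddCircle 1` with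
`Function.Periodic.lift` or `AddCircle.liftIco`, `fourierCoeff_eq_intervalIntegral`,
`hasSum_fourier_series_of_summable`). Applied twice it gives `cf_unique`. For `cf_inv` let
`v x = ∑' k, cf φ k * ek k (io x)` (continuous by `continuous_tsum`, periodic); exchange sum and
integral (`intervalIntegral.hasSum_integral_of_summable_norm` or
`hasSum_integral_of_summable_norm`, twice, or dominated convergence along finite sums) and
use `cf_ek`. About 250 lines. -/

set_option linter.unusedVariables false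

open Set Filter Topology MeasureTheory
open scoped ContDiff ComplexConjugate

noncomputable section
namespace Pool.Agent.Work.MP_1ce82a_an.K

open Pool.Agent.Work.MP_1ce82a_an (E addPot)

/-- The exponentials in one variable. -/
def Inv_e (n : ℤ) (t : ℝ) : ℂ := Complex.exp (2 * Real.pi * Complex.I * n * t)

theorem Inv_ek (k : ℤ × ℤ) (s t : ℝ) : ek k (io (s, t)) = Inv_e k.1 s * Inv_e k.2 t := by
  simp only [ek, io, Inv_e, ← Complex.exp_add]
  congr 1
  ring

theorem Inv_cont (n : ℤ) : Continuous (Inv_e n) := by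
  unfold Inv_e
  fun_prop

theorem Inv_int (n : ℤ) : ∫ t in (0 : ℝ)..1, Inv_e n t = if n = 0 then 1 else 0 := by
  split_ifs with h
  · simp [Inv_e, h]
  · unfold Inv_e
    rw [integral_exp_mul_complex (by simp [h, Real.pi_ne_zero])]
    have : Complex.exp (2 * Real.pi * Complex.I * n * (1 : ℝ)) = 1 := by
      rw [← Complex.exp_int_mul_two_pi_mul_I n]
      congr 1
      push_cast
      ring
    rw [this]
    simp

theorem Inv_one {ψ : ℝ → ℂ} (hc : Continuous ψ) (hp : Function.Periodic ψ 1)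
    (h : ∀ n : ℤ, ∫ t in (0 : ℝ)..1, ψ t * Inv_e (-n) t = 0) (x : ℝ) : ψ x = 0 := by
  let f : C(AddCircle (1 : ℝ), ℂ) := ⟨hp.lift, continuous_coinduced_dom.2 hc⟩
  have hf : ∀ t : ℝ, f t = ψ t := fun t => hp.lift_coe t
  have h0 : ∀ n, fourierCoeff f n = 0 := fun n => by
    have e : ∀ t : ℝ, fourier (-n) (t : AddCircle (1 : ℝ)) • f t = ψ t * Inv_e (-n) t := fun t => by
      rw [fourier_coe_apply, hf, smul_eq_mul, mul_comm, Inv_e, Complex.ofReal_one, div_one]
    rw [fourierCoeff_eq_intervalIntegral _ _ 0, zero_add]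
    simp only [e, h n, smul_zero]
  have := has_pointwise_sum_fourier_series_of_summable (f := f)
    (by rw [funext h0]; exact summable_zero) x
  simp only [h0, zero_smul] at this
  rw [← hf]
  exact this.unique hasSum_zero

theorem Inv_cek (k : ℤ × ℤ) : Continuous fun x : E => ek k (io x) :=
  (sm_res (sm_ek k)).continuous

theorem Inv_sum {F : ℤ × ℤ → ℝ → ℂ} {f : ℝ → ℂ} {b : ℤ × ℤ → ℝ} (hb : Summable b)
    (hc : ∀ k, Continuous (F k)) (h : ∀ k t, ‖F k t‖ ≤ b k) (hs : ∀ t, HasSum (F · t) (f t)) :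
    HasSum (fun k => ∫ t in (0 : ℝ)..1, F k t) (∫ t in (0 : ℝ)..1, f t) :=
  intervalIntegral.hasSum_integral_of_dominated_convergence (fun k _ => b k)
    (fun k => (hc k).aestronglyMeasurable) (fun k => .of_forall fun t _ => h k t)
    (.of_forall fun _ _ => hb) intervalIntegrable_const (.of_forall fun t _ => hs t)

theorem cf_ek (k l : ℤ × ℤ) : cf (fun x => ek l (io x)) k = if l = k then 1 else 0 := by
  simp only [cf, ek_mul]
  simp only [Inv_ek, intervalIntegral.integral_const_mul,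
    intervalIntegral.integral_mul_const, Inv_int, Prod.fst_add, Prod.snd_add, Prod.fst_neg,
    Prod.snd_neg, add_neg_eq_zero, Prod.ext_iff]
  by_cases h1 : l.1 = k.1 <;> by_cases h2 : l.2 = k.2 <;> simp [h1, h2]

theorem cf_unique {φ : E → ℂ} (hφ : Continuous φ) (hp : Per φ) (h : ∀ k, cf φ k = 0) (x : E) :
    φ x = 0 := by
  have key : ∀ (m : ℤ) (s : ℝ), ∫ t in (0 : ℝ)..1, φ (s, t) * Inv_e (-m) t = 0 := fun m => by
    refine Inv_one (intervalIntegral.continuous_parametric_intervalIntegral_of_continuous' ?_ 0 1)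
      (fun s => ?_) fun n => ?_
    · exact hφ.mul ((Inv_cont _).comp continuous_snd)
    · refine intervalIntegral.integral_congr fun t _ => ?_
      have := hp.1 (s, t)
      rw [Prod.mk_add_mk, add_zero] at this
      simp only [this]
    · rw [← h (n, m), cf]
      refine intervalIntegral.integral_congr fun s _ => ?_
      simp only [Inv_ek, ← intervalIntegral.integral_mul_const, Prod.fst_neg, Prod.snd_neg]
      refine intervalIntegral.integral_congr fun t _ => ?_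
      ring
  refine Inv_one (ψ := fun t => φ (x.1, t)) (by fun_prop) (fun t => ?_) (fun m => key m x.1) x.2
  have := hp.2 (x.1, t)
  rwa [Prod.mk_add_mk, add_zero] at this

theorem cf_inv {φ : E → ℂ} (hφ : Continuous φ) (hp : Per φ) (h : Summable fun k => ‖cf φ k‖)
    (x : E) : HasSum (fun k => cf φ k * ek k (io x)) (φ x) := by
  have nb : ∀ k y, ‖cf φ k * ek k (io y)‖ ≤ ‖cf φ k‖ := fun k y => by
    rw [norm_mul, norm_ek_io, mul_one]
  have hs : ∀ y, HasSum (fun k => cf φ k * ek k (io y)) (∑' k, cf φ k * ek k (io y)) := fun y =>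
    (Summable.of_norm_bounded h fun k => nb k y).hasSum
  have ck : ∀ k, Continuous fun y : E => cf φ k * ek k (io y) := fun k =>
    continuous_const.mul (Inv_cek k)
  have hv : Continuous fun y : E => ∑' k, cf φ k * ek k (io y) := continuous_tsum ck h nb
  have e1 : io (1, 0) = (1, 0) := by simp [io]
  have e2 : io (0, 1) = (0, 1) := by simp [io]
  have hc : ∀ l, cf (fun y : E => ∑' k, cf φ k * ek k (io y)) l = cf φ l := fun l => by
    have nb' : ∀ k y, ‖cf φ k * ek k (io y) * ek (-l) (io y)‖ ≤ ‖cf φ k‖ := fun k y => by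
      rw [norm_mul, norm_ek_io, mul_one]
      exact nb k y
    have ck' : ∀ k, Continuous fun y : E => cf φ k * ek k (io y) * ek (-l) (io y) := fun k =>
      (ck k).mul (Inv_cek _)
    have a : HasSum (fun k => cf (fun y => cf φ k * ek k (io y)) l)
        (cf (fun y : E => ∑' k, cf φ k * ek k (io y)) l) := by
      refine Inv_sum h (fun k => intervalIntegral.continuous_parametric_intervalIntegral_of_continuous'
        (ck' k) 0 1) (fun k s => ?_) fun s => Inv_sum h (fun k => (ck' k).comp (by fun_prop))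
          (fun k t => nb' k _) fun t => (hs _).mul_right _
      simpa using intervalIntegral.norm_integral_le_of_norm_le_const (a := 0) (b := 1)
        fun t _ => nb' k (s, t)
    simp only [cf_mul, cf_ek, mul_ite, mul_one, mul_zero] at a
    refine a.unique ?_
    simpa only [if_true] using hasSum_single (f := fun k => if k = l then cf φ k else 0) l
      fun k hk => if_neg hk
  have := cf_unique (φ := fun y => φ y - ∑' k, cf φ k * ek k (io y)) (hφ.sub hv)
    ⟨fun y => by simp only [hp.1 y, io_add, e1, ek_p1],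
    fun y => by simp only [hp.2 y, io_add, e2, ek_p2]⟩
    (fun l => by rw [cf_sub hφ hv, hc, sub_self]) x
  rw [sub_eq_zero.1 this]
  exact hs x

end Pool.Agent.Work.MP_1ce82a_an.K
end
end

-- merged part: Pool.Agent.Work.MP_1ce82a_an.K.Wt
section
/-! Weights and trigonometric polynomials.

PLAN. `summable_nk`: `1 / nk k ^ 4 ≤ 1 / (1 + |k.1|) ^ 2 * (1 / (1 + |k.2|) ^ 2)`,
`Summable.mul_of_nonneg`, `summable_int_iff_summable_nat_and_neg` or `Real.summable_one_div_int_pow`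
type lemmas. `pow_exp_le`: `Real.pow_div_factorial_le_exp` for `δ * nk k`, and
`δ * nk k ≤ 1 + 2 π δ (nk k - 1)`. `dv_tp`: `dv_sum`, `dv_ek`. About 200 lines. -/

set_option linter.unusedVariables false

open Set Filter Topology MeasureTheory
open scoped ContDiff ComplexConjugate

noncomputable section
namespace Pool.Agent.Work.MP_1ce82a_an.K

open Pool.Agent.Work.MP_1ce82a_an (E addPot)

theorem one_le_nk (k : ℤ × ℤ) : 1 ≤ nk k := by
  unfold nk
  linarith only [abs_nonneg (k.1 : ℝ), abs_nonneg (k.2 : ℝ)]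

theorem nk_neg (k : ℤ × ℤ) : nk (-k) = nk k := by
  simp only [nk, Prod.fst_neg, Prod.snd_neg, Int.cast_neg, abs_neg]

theorem Wt_sum : Summable fun n : ℤ => 1 / (1 + |(n : ℝ)|) ^ 2 := by
  have h : Summable fun n : ℕ => 1 / (1 + (n : ℝ)) ^ 2 :=
    ((summable_nat_add_iff 1).2 (Real.summable_one_div_nat_pow.2 one_lt_two)).congr fun n => by
      rw [Nat.cast_succ, add_comm]
  refine Summable.of_nat_of_neg (h.congr fun n => ?_) (h.congr fun n => ?_)
  · rw [Int.cast_natCast, Nat.abs_cast]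
  · rw [Int.cast_neg, abs_neg, Int.cast_natCast, Nat.abs_cast]

theorem summable_nk : Summable fun k : ℤ × ℤ => 1 / nk k ^ 4 := by
  refine (Wt_sum.mul_of_nonneg Wt_sum (fun _ => by positivity) fun _ => by positivity).of_nonneg_of_le
    (fun k => by have := one_le_nk k; positivity) fun k => ?_
  have h1 := abs_nonneg (k.1 : ℝ)
  have h2 := abs_nonneg (k.2 : ℝ)
  rw [one_div_mul_one_div, show nk k ^ 4 = nk k ^ 2 * nk k ^ 2 by ring]
  refine one_div_le_one_div_of_le (by positivity) ?_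
  unfold nk
  exact mul_le_mul (pow_le_pow_left₀ (by positivity) (by linarith) 2)
    (pow_le_pow_left₀ (by positivity) (by linarith) 2) (by positivity) (by positivity)

theorem pow_exp_le (j : ℕ) {δ : ℝ} (h0 : 0 < δ) (h1 : δ ≤ 1) (k : ℤ × ℤ) :
    nk k ^ j * Real.exp (-(2 * Real.pi * δ * (nk k - 1))) ≤ 3 * j.factorial / δ ^ j := by
  have h2 := one_le_nk k
  have h3 := Real.pow_div_factorial_le_exp (δ * nk k) (by positivity) j
  have h4 : δ * nk k ≤ 1 + 2 * Real.pi * δ * (nk k - 1) := by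
    have := mul_nonneg (mul_nonneg (show 0 ≤ 2 * Real.pi - 1 by linarith only [Real.pi_gt_three]) h0.le)
      (sub_nonneg.2 h2)
    linarith
  have h5 : Real.exp (δ * nk k) ≤ 3 * Real.exp (2 * Real.pi * δ * (nk k - 1)) := by
    refine (Real.exp_le_exp.2 h4).trans ?_
    rw [Real.exp_add]
    exact mul_le_mul_of_nonneg_right (Real.exp_one_lt_d9.le.trans (by norm_num)) (Real.exp_pos _).le
  have h6 : (0 : ℝ) < j.factorial := Nat.cast_pos.2 j.factorial_pos
  have h7 := (div_le_iff₀ h6).1 (h3.trans h5)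
  rw [Real.exp_neg, ← div_eq_mul_inv, div_le_div_iff₀ (Real.exp_pos _) (pow_pos h0 j)]
  rw [mul_pow] at h7
  linarith only [h7]

theorem norm_ek_le {σ : ℝ} {z : C2} (hz : z ∈ St σ) (k : ℤ × ℤ) :
    ‖ek k z‖ ≤ Real.exp (2 * Real.pi * σ * (nk k - 1)) := by
  rw [ek, Complex.norm_exp]
  refine Real.exp_le_exp.2 ?_
  have e : (2 * Real.pi * Complex.I * (k.1 * z.1 + k.2 * z.2) : ℂ).re =
      2 * Real.pi * -(k.1 * z.1.im + k.2 * z.2.im) := by
    simp
    ring
  have h1 := mul_le_mul_of_nonneg_left hz.1 (abs_nonneg (k.1 : ℝ))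
  have h2 := mul_le_mul_of_nonneg_left hz.2 (abs_nonneg (k.2 : ℝ))
  rw [← abs_mul] at h1 h2
  rw [e, mul_assoc (2 * Real.pi)]
  refine mul_le_mul_of_nonneg_left ?_ (by positivity)
  unfold nk
  linarith only [h1, h2, neg_abs_le ((k.1 : ℝ) * z.1.im), neg_abs_le ((k.2 : ℝ) * z.2.im)]

theorem Wt_sm (c d : ℂ) (k : ℤ × ℤ) : ContDiff ℂ ∞ fun z => (c * ek k z + d * ek (-k) z) / 2 :=
  ((contDiff_const.mul (sm_ek k)).add (contDiff_const.mul (sm_ek (-k)))).div_const 2

theorem ent_tp (a : ℤ × ℤ → ℂ) (F : Finset (ℤ × ℤ)) : Ent (tp a F) := by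
  refine Ent.sum (u := fun k z => (a k * ek k z + conj (a k) * ek (-k) z) / 2) fun k _ =>
    ⟨Wt_sm _ _ k, fun z => by rw [ek_p1, ek_p1], fun z => by rw [ek_p2, ek_p2], fun x => ?_⟩
  rw [← conj_ek_io, ← map_mul, Complex.add_conj, Complex.div_ofNat_im, Complex.ofReal_im, zero_div]

theorem dv_tp (a : ℤ × ℤ → ℂ) (F : Finset (ℤ × ℤ)) (b : E) (z : C2) :
    dv b (tp a F) z =
      tp (fun k => 2 * Real.pi * Complex.I * (k.1 * b.1 + k.2 * b.2) * a k) F z := by
  refine (dv_sum (u := fun k z => (a k * ek k z + conj (a k) * ek (-k) z) / 2)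
    (fun k _ => Wt_sm _ _ k) b z).trans (Finset.sum_congr rfl fun k _ => ?_)
  have e : (fun z => (a k * ek k z + conj (a k) * ek (-k) z) / 2) =
      fun z => a k / 2 * ek k z + conj (a k) / 2 * ek (-k) z := funext fun z => by ring
  rw [e, dv_add (contDiff_const.mul (sm_ek k)) (contDiff_const.mul (sm_ek (-k))),
    dv_mul contDiff_const (sm_ek k), dv_mul contDiff_const (sm_ek (-k)), dv_const, dv_const, dv_ek,
    dv_ek]
  simp only [map_mul, map_add, Complex.conj_I, Complex.conj_ofReal, map_intCast, map_ofNat,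
    Prod.fst_neg, Prod.snd_neg, Int.cast_neg]
  ring

theorem bd_tp (a : ℤ × ℤ → ℂ) (F : Finset (ℤ × ℤ)) (σ : ℝ) :
    Bd σ (∑ k ∈ F, ‖a k‖ * Real.exp (2 * Real.pi * σ * (nk k - 1))) (tp a F) := by
  refine fun z hz => (norm_sum_le _ _).trans (Finset.sum_le_sum fun k _ => ?_)
  have h1 := mul_le_mul_of_nonneg_left (norm_ek_le hz k) (norm_nonneg (a k))
  have h2 := mul_le_mul_of_nonneg_left (norm_ek_le hz (-k)) (norm_nonneg (a k))
  have h3 := norm_add_le (a k * ek k z) (conj (a k) * ek (-k) z)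
  rw [norm_mul, norm_mul, Complex.norm_conj] at h3
  rw [nk_neg] at h2
  rw [norm_div, Complex.norm_ofNat]
  linarith only [h1, h2, h3]

theorem tp_sdiff (a : ℤ × ℤ → ℂ) {F F' : Finset (ℤ × ℤ)} (h : F ⊆ F') (z : C2) :
    tp a F' z - tp a F z = tp a (F' \ F) z := by
  exact (Finset.sum_sdiff_eq_sub h).symm

theorem hasSum_tp {a : ℤ × ℤ → ℂ} (ha : ∀ k, conj (a k) = a (-k)) {z : C2} {w : ℂ}
    (h : HasSum (fun k => a k * ek k z) w) :
    HasSum (fun k => (a k * ek k z + conj (a k) * ek (-k) z) / 2) w := by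
  have h1 := (h.add ((Equiv.neg (ℤ × ℤ)).hasSum_iff.2 h)).div_const 2
  rw [add_self_div_two] at h1
  simpa only [ha, Function.comp_apply, Equiv.neg_apply] using h1

end Pool.Agent.Work.MP_1ce82a_an.K
end
end

-- merged part: Pool.Agent.Work.MP_1ce82a_an.K.App
section
/-! Approximation by trigonometric polynomials.

PLAN. `a k` the coefficients of `g`, `F n` the finite set of `k` with `nk k ≤ 2 ^ n` (filter of a
product of intervals), `gs n = tp a (F n)`; `b k = 2 π i k.1 * a k` are the coefficients of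
`x ↦ fderiv ℝ g x (1, 0)` (`cf_pd`), `dv (1, 0) (gs n) = tp b (F n)` (`dv_tp`). `F 0 = {0}`.
For `k ∈ F (n + 1) \ F n`: `‖b k‖ ≤ 2 π δ / nk k ^ 31 ≤ 2 π δ ((1 / 2) ^ n) ^ 26 * (1 / nk k ^ 4)`
(`dec`) and the exponential factor of `bd_tp` is at most `exp (8 π)`; `tp_sdiff`,
`Summable.sum_le_tsum`. Convergence: `cf_inv`, `cf_conj`, `hasSum_tp`, and `F n` tends to `atTop`
(`tendsto_atTop_finset_of_monotone`). About 250 lines. -/

set_option linter.unusedVariables false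

open Set Filter Topology MeasureTheory
open scoped ContDiff ComplexConjugate

noncomputable section
namespace Pool.Agent.Work.MP_1ce82a_an.K

open Pool.Agent.Work.MP_1ce82a_an (E addPot)

theorem App_F : ∃ F : ℕ → Finset (ℤ × ℤ), ∀ n k, k ∈ F n ↔ nk k ≤ 2 ^ n := by
  classical
  refine ⟨fun n => (Finset.Icc (-(2 ^ n : ℤ)) (2 ^ n) ×ˢ Finset.Icc (-(2 ^ n : ℤ)) (2 ^ n)).filter
    fun k => nk k ≤ 2 ^ n, fun n k => ?_⟩
  rw [Finset.mem_filter]
  refine ⟨fun h => h.2, fun h => ⟨?_, h⟩⟩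
  have h1 : |(k.1 : ℝ)| ≤ 2 ^ n := by
    have := abs_nonneg (k.2 : ℝ)
    unfold nk at h
    linarith
  have h2 : |(k.2 : ℝ)| ≤ 2 ^ n := by
    have := abs_nonneg (k.1 : ℝ)
    unfold nk at h
    linarith
  have h3 : |k.1| ≤ 2 ^ n := by exact_mod_cast h1
  have h4 : |k.2| ≤ 2 ^ n := by exact_mod_cast h2
  rw [Finset.mem_product, Finset.mem_Icc, Finset.mem_Icc]
  exact ⟨abs_le.mp h3, abs_le.mp h4⟩

theorem App_zero {k : ℤ × ℤ} (h : nk k ≤ 1) : k.1 = 0 := by
  have h1 := abs_nonneg (k.2 : ℝ)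
  have h2 : |(k.1 : ℝ)| ≤ 0 := by
    unfold nk at h
    linarith
  exact_mod_cast abs_nonpos_iff.mp h2

theorem App_b {g : E → ℝ} {δ : ℝ} (hg : ContDiff ℝ ∞ g) (hp : Per g)
    (h : ∀ x, ‖iteratedFDeriv ℝ 32 g x‖ ≤ δ) (k : ℤ × ℤ) :
    ‖cf (fun x => ((fderiv ℝ g x (1, 0) : ℝ) : ℂ)) k‖ * nk k ^ 31 ≤ 2 * Real.pi * δ := by
  have hδ : 0 ≤ δ := (norm_nonneg _).trans (h 0)
  have hpi := Real.pi_pos
  rw [cf_pd hg hp]
  by_cases hk : k = 0
  · subst hk
    simp only [Prod.fst_zero, Prod.snd_zero, Int.cast_zero, zero_mul, add_zero, mul_zero, norm_zero]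
    positivity
  · have h1 := dec hg hp h hk
    have h2 : ‖2 * (Real.pi : ℂ) * Complex.I * ((k.1 : ℂ) * (((1, 0) : E).1 : ℝ) +
        (k.2 : ℂ) * (((1, 0) : E).2 : ℝ))‖ = 2 * Real.pi * |(k.1 : ℝ)| := by
      simp [abs_of_pos hpi]
    have h3 : |(k.1 : ℝ)| ≤ nk k := by
      have := abs_nonneg (k.2 : ℝ)
      unfold nk
      linarith
    have h4 := one_le_nk k
    rw [norm_mul, h2]
    calc 2 * Real.pi * |(k.1 : ℝ)| * ‖cf (fun x => (g x : ℂ)) k‖ * nk k ^ 31
        ≤ 2 * Real.pi * nk k * ‖cf (fun x => (g x : ℂ)) k‖ * nk k ^ 31 := by gcongr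
      _ = 2 * Real.pi * (‖cf (fun x => (g x : ℂ)) k‖ * nk k ^ 32) := by ring
      _ ≤ 2 * Real.pi * δ := by gcongr

theorem App_le {β M x y : ℝ} (hβ : 0 ≤ β) (hy : 1 ≤ y) (hx : y ≤ x) (h : β * x ^ 31 ≤ M) :
    β ≤ M * (1 / y) ^ 26 * (1 / x ^ 4) := by
  have h0 : 0 < y := by linarith
  have h1 : 1 ≤ x := hy.trans hx
  have h2 : 0 < x := by linarith
  have h3 : y ^ 26 * x ^ 4 ≤ x ^ 31 := by
    calc y ^ 26 * x ^ 4 ≤ x ^ 26 * x ^ 4 := by gcongr
      _ = x ^ 30 := by ring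
      _ ≤ x ^ 31 := pow_le_pow_right₀ h1 (by norm_num)
  have h4 : M * (1 / y) ^ 26 * (1 / x ^ 4) = M / (y ^ 26 * x ^ 4) := by field_simp
  rw [h4, le_div_iff₀ (by positivity)]
  exact (mul_le_mul_of_nonneg_left h3 hβ).trans h

theorem app : ∃ C : ℝ, 0 < C ∧ ∀ (g : E → ℝ) (δ : ℝ), ContDiff ℝ ∞ g → Per g →
    (∀ x, ‖iteratedFDeriv ℝ 32 g x‖ ≤ δ) →
    ∃ gs : ℕ → C2 → ℂ, (∀ n, Ent (gs n)) ∧ (∀ z, dv (1, 0) (gs 0) z = 0) ∧
      (∀ n, Bd (2 * (1 / 2) ^ n) (C * δ * ((1 / 2) ^ n) ^ 26)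
        fun z => dv (1, 0) (gs (n + 1)) z - dv (1, 0) (gs n) z) ∧
      ∀ x, Tendsto (fun n => dv (1, 0) (gs n) (io x)) atTop (𝓝 ((fderiv ℝ g x (1, 0) : ℝ) : ℂ)) := by
  obtain ⟨F, hF⟩ := App_F
  obtain ⟨T, hT⟩ : ∃ T : ℝ, T = ∑' k : ℤ × ℤ, 1 / nk k ^ 4 := ⟨_, rfl⟩
  have hnn : ∀ k : ℤ × ℤ, 0 ≤ 1 / nk k ^ 4 := fun k => by
    have := one_le_nk k
    positivity
  have hT0 : 0 ≤ T := hT ▸ tsum_nonneg hnn
  have hpi := Real.pi_pos
  have hmono : Monotone F := by
    intro m n hmn k hk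
    rw [hF] at hk ⊢
    exact hk.trans (pow_le_pow_right₀ (by norm_num) hmn)
  refine ⟨2 * Real.pi * Real.exp (8 * Real.pi) * (T + 1), by positivity, fun g δ hg hp h => ?_⟩
  have hδ : 0 ≤ δ := (norm_nonneg _).trans (h 0)
  obtain ⟨b, hb⟩ : ∃ b : ℤ × ℤ → ℂ, b = cf (fun x => ((fderiv ℝ g x (1, 0) : ℝ) : ℂ)) := ⟨_, rfl⟩
  have hb1 : ∀ k, ‖b k‖ * nk k ^ 31 ≤ 2 * Real.pi * δ := fun k => hb ▸ App_b hg hp h k
  have hdv : ∀ (S : Finset (ℤ × ℤ)) z, dv (1, 0) (tp (cf fun x => (g x : ℂ)) S) z = tp b S z := by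
    intro S z
    rw [dv_tp, hb]
    congr 1
    funext k
    rw [cf_pd hg hp]
  refine ⟨fun n => tp (cf fun x => (g x : ℂ)) (F n), fun n => ent_tp _ _, fun z => ?_,
    fun n z hz => ?_, fun x => ?_⟩
  · rw [hdv, tp]
    refine Finset.sum_eq_zero fun k hk => ?_
    have h1 : k.1 = 0 := App_zero (by simpa using (hF 0 k).mp hk)
    have h2 : b k = 0 := by
      rw [hb, cf_pd hg hp]
      simp [h1]
    simp [h2]
  · beta_reduce
    rw [hdv, hdv, tp_sdiff b (hmono (Nat.le_succ n))]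
    refine (bd_tp b _ _ z hz).trans ?_
    have h2 : (0 : ℝ) < 2 ^ n := by positivity
    have key : ∀ k ∈ F (n + 1) \ F n, ‖b k‖ * Real.exp (2 * Real.pi * (2 * (1 / 2) ^ n) * (nk k - 1)) ≤
        2 * Real.pi * Real.exp (8 * Real.pi) * δ * ((1 / 2) ^ n) ^ 26 * (1 / nk k ^ 4) := by
      intro k hk
      rw [Finset.mem_sdiff, hF, hF, not_le] at hk
      have h3 := App_le (norm_nonneg _) (one_le_pow₀ (by norm_num)) hk.2.le (hb1 k)
      have h4 : Real.exp (2 * Real.pi * (2 * (1 / 2) ^ n) * (nk k - 1)) ≤ Real.exp (8 * Real.pi) := by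
        refine Real.exp_le_exp.mpr ?_
        have h5 : ((1 / 2 : ℝ)) ^ n * (nk k - 1) ≤ 2 := by
          rw [one_div_pow, one_div_mul_eq_div, div_le_iff₀ h2]
          have := hk.1
          rw [pow_succ] at this
          linarith only [this]
        linarith only [hpi, h5, mul_nonneg_of_nonpos_of_nonpos (le_of_lt (Mathlib.Tactic.Linarith.sub_neg_of_lt hpi)) (Mathlib.Tactic.Linarith.sub_nonpos_of_le h5)]
      rw [← one_div_pow] at h3
      have h6 := hnn k
      calc ‖b k‖ * Real.exp (2 * Real.pi * (2 * (1 / 2) ^ n) * (nk k - 1))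
          ≤ (2 * Real.pi * δ * ((1 / 2) ^ n) ^ 26 * (1 / nk k ^ 4)) * Real.exp (8 * Real.pi) := by
            gcongr
        _ = _ := by ring
    refine (Finset.sum_le_sum key).trans ?_
    rw [← Finset.mul_sum]
    have h7 : ∑ k ∈ F (n + 1) \ F n, 1 / nk k ^ 4 ≤ T + 1 := by
      have := summable_nk.sum_le_tsum (F (n + 1) \ F n) fun k _ => hnn k
      linarith only [hT, this]
    calc 2 * Real.pi * Real.exp (8 * Real.pi) * δ * ((1 / 2) ^ n) ^ 26 *
          ∑ k ∈ F (n + 1) \ F n, 1 / nk k ^ 4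
        ≤ 2 * Real.pi * Real.exp (8 * Real.pi) * δ * ((1 / 2) ^ n) ^ 26 * (T + 1) := by gcongr
      _ = _ := by ring
  · have hc : Continuous fun x : E => ((fderiv ℝ g x (1, 0) : ℝ) : ℂ) :=
      Complex.continuous_ofReal.comp
        ((hg.continuous_fderiv (by simp)).clm_apply continuous_const)
    have hper : Per fun x : E => ((fderiv ℝ g x (1, 0) : ℝ) : ℂ) :=
      ⟨fun x => congrArg Complex.ofReal ((per_pd hp (1, 0)).1 x),
        fun x => congrArg Complex.ofReal ((per_pd hp (1, 0)).2 x)⟩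
    have hs : Summable fun k => ‖b k‖ := by
      refine Summable.of_nonneg_of_le (fun k => norm_nonneg _) (fun k => ?_)
        (summable_nk.mul_left (2 * Real.pi * δ))
      simpa using App_le (norm_nonneg _) le_rfl (one_le_nk k) (hb1 k)
    have h1 := cf_inv hc hper (by rw [← hb]; exact hs) x
    have hcj : ∀ k, conj (b k) = b (-k) := fun k => by
      rw [hb]
      exact cf_conj (φ := fun x : E => ((fderiv ℝ g x (1, 0) : ℝ) : ℂ))
        (fun y => Complex.ofReal_im (fderiv ℝ g y (1, 0))) k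
    rw [← hb] at h1
    have h2 := hasSum_tp (a := b) hcj h1
    have h3 : Tendsto F atTop atTop := by
      refine tendsto_atTop_finset_of_monotone hmono fun k => ?_
      obtain ⟨n, hn⟩ := pow_unbounded_of_one_lt (nk k) (by norm_num : (1 : ℝ) < 2)
      exact ⟨n, (hF n k).mpr hn.le⟩
    have h4 := (show Tendsto _ atTop _ from h2).comp h3
    refine h4.congr fun n => ?_
    rw [hdv]
    rfl

end Pool.Agent.Work.MP_1ce82a_an.K
end
end

-- merged part: Pool.Agent.Work.MP_1ce82a_an.K.Shift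
section
/-! Decay of the coefficients and inversion on strips.

PLAN. `shift1`: `Complex.integral_boundary_rect_eq_zero_of_differentiableOn` on the rectangle with
corners `0` and `1 + y * I`; the vertical sides cancel. `cf_shift`: apply `shift1` to
`w ↦ u (s + y.1 * I, w) * ek (-k) (s, w)` in the inner integral, then `cf_swap` and once more.
`cf_decay`: take `y = (-σ * sign k.1, -σ * sign k.2)` and `norm_cf_le`. `inv_strip`: write
`z = io x + (y.1 * I, y.2 * I)`, apply `cf_inv` to the shifted function; summability from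
`cf_decay`, `pow_exp_le 4` (with `δ = min 1 (σ - σ')`) and `summable_nk`. About 250 lines. -/

set_option linter.unusedVariables false

open Set Filter Topology MeasureTheory
open scoped ContDiff ComplexConjugate

noncomputable section
namespace Pool.Agent.Work.MP_1ce82a_an.K

open Pool.Agent.Work.MP_1ce82a_an (E addPot)

theorem shift1 {F : ℂ → ℂ} (hF : Differentiable ℂ F) (hp : ∀ w, F (w + 1) = F w) (y : ℝ) :
    ∫ s in (0 : ℝ)..1, F (s + y * Complex.I) = ∫ s in (0 : ℝ)..1, F s := by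
  have h := Complex.integral_boundary_rect_eq_zero_of_differentiableOn F 0 ⟨1, y⟩ hF.differentiableOn
  have e : ∀ t : ℝ, F (1 + t * Complex.I) = F (t * Complex.I) := fun t => by rw [add_comm, hp]
  simp only [Complex.zero_re, Complex.zero_im, Complex.ofReal_zero, Complex.ofReal_one, zero_mul,
    add_zero, zero_add, e, add_sub_cancel_right] at h
  exact (sub_eq_zero.1 h).symm

theorem Shift_swap {φ : E → ℂ} (hφ : Continuous φ) :
    ∫ s in (0 : ℝ)..1, ∫ t in (0 : ℝ)..1, φ (s, t) = ∫ t in (0 : ℝ)..1, ∫ s in (0 : ℝ)..1, φ (s, t) := by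
  simpa only [cf, neg_zero, ek_zero, mul_one] using cf_swap hφ 0

theorem Shift_two {H : C2 → ℂ} (hH : Differentiable ℂ H) (h1 : ∀ z, H (z + (1, 0)) = H z)
    (h2 : ∀ z, H (z + (0, 1)) = H z) (a b : ℝ) :
    ∫ s in (0 : ℝ)..1, ∫ t in (0 : ℝ)..1, H (s + a * Complex.I, t + b * Complex.I) =
      ∫ s in (0 : ℝ)..1, ∫ t in (0 : ℝ)..1, H (s, t) := by
  have c := hH.continuous
  have e1 : ∀ v : ℂ, ∫ t in (0 : ℝ)..1, H (v, t + b * Complex.I) = ∫ t in (0 : ℝ)..1, H (v, t) :=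
    fun v => shift1 (F := fun w => H (v, w)) (by fun_prop) (fun w => by simpa using h2 (v, w)) b
  have e2 : ∀ w : ℂ, ∫ s in (0 : ℝ)..1, H (s + a * Complex.I, w) = ∫ s in (0 : ℝ)..1, H (s, w) :=
    fun w => shift1 (F := fun v => H (v, w)) (by fun_prop) (fun v => by simpa using h1 (v, w)) a
  simp only [e1]
  rw [Shift_swap (φ := fun x => H (x.1 + a * Complex.I, x.2)) (by fun_prop),
    Shift_swap (φ := fun x => H (x.1, x.2)) (by fun_prop)]
  simp only [e2]

theorem cf_shift {u : C2 → ℂ} (hu : Ent u) (y : E) (k : ℤ × ℤ) :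
    cf (fun x => u (io x + ((y.1 : ℂ) * Complex.I, (y.2 : ℂ) * Complex.I))) k =
      cf (fun x => u (io x)) k * ek k ((y.1 : ℂ) * Complex.I, (y.2 : ℂ) * Complex.I) := by
  have h := Shift_two (H := fun z => u z * ek (-k) z)
    ((hu.sm.mul (sm_ek (-k))).differentiable (by simp)) (fun z => by rw [hu.p1, ek_p1])
    (fun z => by rw [hu.p2, ek_p2]) y.1 y.2
  have e : ∀ x Y : C2, u (x + Y) * ek (-k) x = u (x + Y) * ek (-k) (x + Y) * ek k Y := fun x Y => by
    rw [ek_add, mul_assoc, mul_assoc, ek_mul, neg_add_cancel, ek_zero, mul_one]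
  simp only [cf, e, intervalIntegral.integral_mul_const]
  exact congrArg (· * _) h

theorem cf_decay {u : C2 → ℂ} (hu : Ent u) {σ M : ℝ} (hσ : 0 ≤ σ) (h : Bd σ M u) (k : ℤ × ℤ) :
    ‖cf (fun x => u (io x)) k‖ ≤ M * Real.exp (-(2 * Real.pi * σ * (nk k - 1))) := by
  have ex : ∀ a : ℝ, ∃ y : ℝ, |y| ≤ σ ∧ a * y = -(σ * |a|) := fun a => (le_total 0 a).elim
    (fun h => ⟨-σ, by rw [abs_neg, abs_of_nonneg hσ], by rw [abs_of_nonneg h]; ring⟩)
    fun h => ⟨σ, by rw [abs_of_nonneg hσ], by rw [abs_of_nonpos h]; ring⟩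
  obtain ⟨a, a1, a2⟩ := ex k.1
  obtain ⟨b, b1, b2⟩ := ex k.2
  have h1 := norm_cf_le (φ := fun x => u (io x + ((a : ℂ) * Complex.I, (b : ℂ) * Complex.I)))
    (fun x => h _ ⟨by simpa [io] using a1, by simpa [io] using b1⟩) k
  have h2 : ‖ek k ((a : ℂ) * Complex.I, (b : ℂ) * Complex.I)‖ =
      Real.exp (2 * Real.pi * σ * (nk k - 1)) := by
    rw [ek, Complex.norm_exp, nk]
    congr 1
    simp only [Complex.mul_re, Complex.mul_im, Complex.add_re, Complex.add_im, Complex.ofReal_re,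
      Complex.ofReal_im, Complex.I_re, Complex.I_im, Complex.intCast_re, Complex.intCast_im,
      Complex.re_ofNat, Complex.im_ofNat]
    linear_combination (-2 * Real.pi) * (a2 + b2)
  rw [cf_shift hu (a, b), norm_mul, h2] at h1
  rwa [Real.exp_neg, ← div_eq_mul_inv, le_div_iff₀ (Real.exp_pos _)]

theorem inv_strip {u : C2 → ℂ} (hu : Ent u) {σ σ' M : ℝ} (h0 : 0 ≤ σ') (h1 : σ' < σ)
    (h : Bd σ M u) {z : C2} (hz : z ∈ St σ') :
    HasSum (fun k => cf (fun x => u (io x)) k * ek k z) (u z) := by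
  have hM : 0 ≤ M := (norm_nonneg _).trans (h _ (io_mem (h0.trans h1.le) 0))
  have hδ : 0 < min 1 (σ - σ') := lt_min one_pos (sub_pos.2 h1)
  have e : io (z.1.re, z.2.re) + ((z.1.im : ℂ) * Complex.I, (z.2.im : ℂ) * Complex.I) = z := by
    simp [io]
  have c := hu.sm.continuous
  have hs := cf_inv (φ := fun x => u (io x + ((z.1.im : ℂ) * Complex.I, (z.2.im : ℂ) * Complex.I)))
    (by unfold io; fun_prop)
    ⟨fun x => (congrArg u (by simp [io, add_right_comm])).trans (hu.p1 _),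
      fun x => (congrArg u (by simp [io, add_right_comm])).trans (hu.p2 _)⟩
    (Summable.of_nonneg_of_le (fun _ => norm_nonneg _) (fun k => ?_)
      (summable_nk.mul_left (M * (3 * (4 : ℕ).factorial / min 1 (σ - σ') ^ 4)))) (z.1.re, z.2.re)
  · simp only [cf_shift hu (z.1.im, z.2.im), mul_assoc, ← ek_add] at hs
    rwa [add_comm _ (io _), e] at hs
  · have n1 := one_le_nk k
    have a1 := cf_decay hu (h0.trans h1.le) h k
    have a2 := norm_ek_le (σ := σ') (z := ((z.1.im : ℂ) * Complex.I, (z.2.im : ℂ) * Complex.I))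
      ⟨by simpa using hz.1, by simpa using hz.2⟩ k
    have a3 := pow_exp_le 4 hδ (min_le_left _ _) k
    rw [cf_shift hu (z.1.im, z.2.im), norm_mul]
    refine (mul_le_mul a1 a2 (norm_nonneg _) (by positivity)).trans ?_
    rw [mul_assoc, mul_assoc M, ← Real.exp_add, mul_one_div]
    refine mul_le_mul_of_nonneg_left ?_ hM
    rw [le_div_iff₀' (by positivity)]
    refine le_trans (mul_le_mul_of_nonneg_left (Real.exp_le_exp.2 ?_) (by positivity)) a3
    have := mul_le_mul_of_nonneg_left (min_le_right 1 (σ - σ'))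
      (show 0 ≤ 2 * Real.pi * (nk k - 1) by have := sub_nonneg.2 n1; positivity)
    linarith only [this]

end Pool.Agent.Work.MP_1ce82a_an.K
end
end

-- merged part: Pool.Agent.Work.MP_1ce82a_an.K.SD
section
/-! The small divisor equation.

PLAN. Let `c k` be the coefficients of `g`, `c 0 = 0`, `b k = c k / (2 π i (k.1 ρ + k.2))`
(so `b 0 = 0`), `v = tp b F`. By `dv_tp`, `dv (ρ, 1) v = tp c F`. On the strip of width `σ - δ`,
`‖c k‖ * exp (2 π (σ - δ) (nk k - 1)) ≤ M * exp (-(2 π δ (nk k - 1)))` (`cf_decay`), which is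
summable; choose the finite set `F` with tail at most `β` (`summable_iff_vanishing_norm` or
`tendsto_tsum_compl_atTop_zero`) and compare with `hasSum_tp`, `inv_strip`, `cf_conj`.
`‖b k‖ ≤ ‖c k‖ * nk k ^ 2 / γ`, and `nk k ^ 2 * exp (..) ≤ 3 * 6! / δ ^ 6 * (1 / nk k ^ 4)`
(`pow_exp_le 6`), `bd_tp`, `Summable.sum_le_tsum`. About 200 lines. -/

set_option linter.unusedVariables false

open Set Filter Topology MeasureTheory
open scoped ContDiff ComplexConjugate

noncomputable section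
namespace Pool.Agent.Work.MP_1ce82a_an.K

open Pool.Agent.Work.MP_1ce82a_an (E addPot)

theorem SD_norm (ρ : ℝ) (k : ℤ × ℤ) :
    |ρ * k.1 + k.2| ≤ ‖(2 * Real.pi * Complex.I * (k.1 * (ρ : ℂ) + k.2 * ((1 : ℝ) : ℂ)) : ℂ)‖ := by
  have e : ((k.1 : ℂ) * (ρ : ℂ) + k.2 * ((1 : ℝ) : ℂ)) = ((ρ * k.1 + k.2 : ℝ) : ℂ) := by
    push_cast
    ring
  rw [e, norm_mul, norm_mul, norm_mul, Complex.norm_I, Complex.norm_real, Complex.norm_real,
    Real.norm_eq_abs, Real.norm_eq_abs, abs_of_pos Real.pi_pos, Complex.norm_two, mul_one]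
  exact le_mul_of_one_le_left (abs_nonneg _) (by linarith [Real.pi_gt_three])

theorem SD_w (j : ℕ) {δ : ℝ} (h0 : 0 < δ) (h1 : δ ≤ 1) (k : ℤ × ℤ) :
    nk k ^ j * Real.exp (-(2 * Real.pi * δ * (nk k - 1))) ≤
      3 * (j + 4).factorial / δ ^ (j + 4) * (1 / nk k ^ 4) := by
  have p : 0 < nk k ^ 4 := pow_pos (one_pos.trans_le (one_le_nk k)) 4
  rw [mul_one_div, le_div_iff₀ p]
  refine le_trans (le_of_eq ?_) (pow_exp_le (j + 4) h0 h1 k)
  ring

theorem sd {γ : ℝ} (hγ : 0 < γ) : ∃ C : ℝ, 1 ≤ C ∧ ∀ (ρ σ δ M β : ℝ) (g : C2 → ℂ), Dio γ ρ →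
    0 < δ → δ ≤ 1 → δ ≤ σ → 0 < β → Ent g → mn g = 0 → Bd σ M g →
    ∃ v, Ent v ∧ Bd (σ - δ) (C * M / δ ^ 6) v ∧
      Bd (σ - δ) β fun z => dv (ρ, 1) v z - g z := by
  have S0 : 0 ≤ ∑' k : ℤ × ℤ, 1 / nk k ^ 4 := tsum_nonneg fun k => by positivity
  refine ⟨1 + 3 * (2 + 4).factorial / γ * ∑' k : ℤ × ℤ, 1 / nk k ^ 4,
    le_add_of_nonneg_right (by positivity), fun ρ σ δ M β g hD h0 h1 h2 hβ hg hm hb => ?_⟩
  have hσ : 0 ≤ σ := h0.le.trans h2
  have hM : 0 ≤ M := (norm_nonneg _).trans (hb _ (io_mem hσ 0))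
  obtain ⟨c, hc⟩ : ∃ c, c = cf fun x => g (io x) := ⟨_, rfl⟩
  have c0 : c 0 = 0 := by rw [hc]; exact hm
  have A : ∀ k, ‖c k‖ * Real.exp (2 * Real.pi * (σ - δ) * (nk k - 1)) ≤
      M * Real.exp (-(2 * Real.pi * δ * (nk k - 1))) := fun k => by
    refine (mul_le_mul_of_nonneg_right (hc ▸ cf_decay hg hσ hb k) (Real.exp_pos _).le).trans
      (le_of_eq ?_)
    rw [mul_assoc, ← Real.exp_add]
    congr 2
    ring
  have sm : Summable fun k => ‖c k‖ * Real.exp (2 * Real.pi * (σ - δ) * (nk k - 1)) := by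
    refine .of_nonneg_of_le (fun k => by positivity) (fun k => (A k).trans ?_)
      ((summable_nk.mul_left (3 * (0 + 4).factorial / δ ^ (0 + 4))).mul_left M)
    refine mul_le_mul_of_nonneg_left ?_ hM
    have := SD_w 0 h0 h1 k
    rwa [pow_zero, one_mul] at this
  obtain ⟨F, hF⟩ := summable_iff_vanishing_norm.1 sm β hβ
  obtain ⟨d, hd⟩ : ∃ d : ℤ × ℤ → ℂ, d = fun k : ℤ × ℤ =>
    (2 * Real.pi * Complex.I * (k.1 * (ρ : ℂ) + k.2 * ((1 : ℝ) : ℂ)) : ℂ) := ⟨_, rfl⟩
  have dn : ∀ k : ℤ × ℤ, k ≠ 0 → γ ≤ ‖d k‖ * nk k ^ 2 := fun k hk =>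
    (hD k hk).trans (mul_le_mul_of_nonneg_right (hd ▸ SD_norm ρ k) (sq_nonneg _))
  have d0 : ∀ k : ℤ × ℤ, k ≠ 0 → d k ≠ 0 := fun k hk e => by
    have := dn k hk
    rw [e, norm_zero, zero_mul] at this
    exact this.not_gt hγ
  have e : (fun k => d k * (c k / d k)) = c := funext fun k => by
    by_cases hk : k = 0
    · rw [hk, c0, zero_div, mul_zero]
    · exact mul_div_cancel₀ _ (d0 k hk)
  refine ⟨tp (fun k => c k / d k) F, ent_tp _ _, (bd_tp _ _ _).mono le_rfl ?_, fun z hz => ?_⟩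
  · have B : ∀ k, ‖c k / d k‖ * Real.exp (2 * Real.pi * (σ - δ) * (nk k - 1)) ≤
        M / γ * (3 * (2 + 4).factorial / δ ^ (2 + 4)) * (1 / nk k ^ 4) := fun k => by
      have b1 : ‖c k / d k‖ ≤ nk k ^ 2 / γ * ‖c k‖ := by
        by_cases hk : k = 0
        · rw [hk, c0, zero_div, norm_zero, mul_zero]
        · rw [norm_div, div_le_iff₀ (norm_pos_iff.2 (d0 k hk)), mul_right_comm]
          refine le_mul_of_one_le_left (norm_nonneg _) ?_
          rw [div_mul_eq_mul_div, one_le_div hγ, mul_comm]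
          exact dn k hk
      calc _ ≤ nk k ^ 2 / γ * ‖c k‖ * Real.exp (2 * Real.pi * (σ - δ) * (nk k - 1)) :=
            mul_le_mul_of_nonneg_right b1 (Real.exp_pos _).le
        _ ≤ nk k ^ 2 / γ * (M * Real.exp (-(2 * Real.pi * δ * (nk k - 1)))) := by
            rw [mul_assoc]
            exact mul_le_mul_of_nonneg_left (A k) (by positivity)
        _ = M / γ * (nk k ^ 2 * Real.exp (-(2 * Real.pi * δ * (nk k - 1)))) := by ring
        _ ≤ _ := by
            rw [mul_assoc (M / γ)]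
            exact mul_le_mul_of_nonneg_left (SD_w 2 h0 h1 k) (by positivity)
    refine (Finset.sum_le_sum fun k _ => B k).trans ?_
    rw [← Finset.mul_sum]
    refine (mul_le_mul_of_nonneg_left
      (summable_nk.sum_le_tsum F fun k _ => by positivity) (by positivity)).trans ?_
    have : 0 ≤ M / δ ^ 6 := by positivity
    calc _ = 3 * (2 + 4).factorial / γ * (∑' k : ℤ × ℤ, 1 / nk k ^ 4) * M / δ ^ 6 := by ring
      _ ≤ _ := by
        rw [add_mul, add_div, one_mul]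
        exact le_add_of_nonneg_left this
  · have e1 : dv (ρ, 1) (tp (fun k => c k / d k) F) z = tp c F z := by
      rw [dv_tp]
      conv_rhs => rw [← e]
      rw [hd]
    have t : Tendsto (fun F' => tp c F' z) atTop (𝓝 (g z)) :=
      hasSum_tp (a := c) (fun k => hc ▸ cf_conj hg.re k)
        (hc ▸ inv_strip hg (sub_nonneg.2 h2) (sub_lt_self σ h0) hb hz)
    change ‖dv (ρ, 1) _ z - g z‖ ≤ β
    rw [e1, norm_sub_rev]
    refine le_of_tendsto (t.sub_const (tp c F z)).norm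
      ((eventually_ge_atTop F).mono fun F' k => ?_)
    change ‖tp c F' z - tp c F z‖ ≤ β
    rw [tp_sdiff c k]
    exact (bd_tp c _ _ z hz).trans
      ((le_abs_self _).trans (hF _ Finset.sdiff_disjoint).le)

end Pool.Agent.Work.MP_1ce82a_an.K
end
end

-- merged part: Pool.Agent.Work.MP_1ce82a_an.K.Cau
section
/-! Cauchy estimates on strips.

PLAN. `cauchy_op`: for `‖a‖ ≤ 1` the function `t ↦ u (z + t • a)` is entire and bounded by `M` on
the circle of radius `δ` (`Complex.norm_deriv_le_of_forall_mem_sphere_norm_le`), then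
`ContinuousLinearMap.opNorm_le_of_unit_norm` (real scalars suffice) or `opNorm_le_bound`.
`im_le`: the strip is convex, compare `U z` with `U (io (z.1.re, z.2.re))`
(`Convex.norm_image_sub_le_of_norm_fderiv_le`). `taylor`: `cauchy` twice bounds
`dv (1, 0) (dv (1, 0) G)` by `1 / σ ^ 2` on the strip of width `2 σ`; mean value inequality twice on
the segment from `t` to `t + h` for the one variable function `s ↦ G (s, y)`. About 200 lines. -/

set_option linter.unusedVariables false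

open Set Filter Topology MeasureTheory
open scoped ContDiff ComplexConjugate

noncomputable section
namespace Pool.Agent.Work.MP_1ce82a_an.K

open Pool.Agent.Work.MP_1ce82a_an (E addPot)

theorem St_convex (σ : ℝ) : Convex ℝ (St σ) := by
  intro x hx y hy a b ha hb hab
  have k : ∀ s t : ℂ, |s.im| ≤ σ → |t.im| ≤ σ → |(a • s + b • t).im| ≤ σ := fun s t hs ht => by
    have := convex_Icc (-σ) σ (abs_le.1 hs) (abs_le.1 ht) ha hb hab
    rw [Complex.add_im, Complex.smul_im, Complex.smul_im]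
    exact abs_le.2 this
  exact ⟨k _ _ hx.1 hy.1, k _ _ hx.2 hy.2⟩

theorem cauchy_op {F : Type} [NormedAddCommGroup F] [NormedSpace ℂ F] {u : C2 → F}
    (hu : Differentiable ℂ u) {σ δ M : ℝ} (hδ : 0 < δ) (h : ∀ z ∈ St σ, ‖u z‖ ≤ M) {z : C2}
    (hz : z ∈ St (σ - δ)) : ‖fderiv ℂ u z‖ ≤ M / δ := by
  have h0 : 0 ≤ M := (norm_nonneg _).trans (h z (St_mono (by linarith) hz))
  refine ContinuousLinearMap.opNorm_le_of_unit_norm (by positivity) fun a ha => ?_
  have d : ∀ t : ℂ, HasDerivAt (fun t : ℂ => u (z + t • a)) (fderiv ℂ u (z + t • a) a) t :=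
    fun t => by
      have := ((hasDerivAt_id t).smul_const a).const_add z
      rw [one_smul] at this
      exact (hu _).hasFDerivAt.comp_hasDerivAt t this
  have e := (d 0).deriv
  rw [zero_smul, add_zero] at e
  rw [← e]
  refine Complex.norm_deriv_le_of_forall_mem_sphere_norm_le hδ
    (Differentiable.diffContOnCl fun t => (d t).differentiableAt) fun t ht => h _ ?_
  have k : ∀ s b : ℂ, |s.im| ≤ σ - δ → ‖b‖ ≤ 1 → |(s + t • b).im| ≤ σ := fun s b hs hb => by
    have h1 := Complex.abs_im_le_norm (t • b)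
    rw [norm_smul, mem_sphere_zero_iff_norm.1 ht] at h1
    have h2 := mul_le_of_le_one_right hδ.le hb
    rw [Complex.add_im]
    linarith only [hs, h1, h2, abs_add_le s.im (t • b).im]
  exact ⟨k _ _ hz.1 (ha ▸ norm_fst_le a), k _ _ hz.2 (ha ▸ norm_snd_le a)⟩

theorem cauchy {u : C2 → ℂ} (hu : ContDiff ℂ ∞ u) {σ δ M : ℝ} (hδ : 0 < δ) (h : Bd σ M u) {a : E}
    (ha : ‖a‖ ≤ 1) : Bd (σ - δ) (M / δ) (dv a u) := by
  intro z hz
  have := cauchy_op (hu.differentiable (by simp)) hδ h hz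
  exact (norm_dv_le u a z).trans ((mul_le_of_le_one_right (norm_nonneg _) ha).trans this)

theorem im_le {U : C2 → ℂ} (hU : Ent U) {σ η : ℝ} (h : ∀ z ∈ St σ, ‖fderiv ℂ U z‖ ≤ η) {z : C2}
    (hz : z ∈ St σ) : |(U z).im| ≤ η * σ := by
  have h0 : 0 ≤ σ := (abs_nonneg _).trans hz.1
  have h1 : 0 ≤ η := (norm_nonneg _).trans (h z hz)
  have h2 := (St_convex σ).norm_image_sub_le_of_norm_fderiv_le (𝕜 := ℂ)
    (fun x _ => hU.sm.differentiable (by simp) x) h (io_mem h0 (z.1.re, z.2.re)) hz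
  have k : ∀ s : ℂ, ‖s - (s.re : ℂ)‖ = |s.im| := fun s => by
    have : s - (s.re : ℂ) = s.im * Complex.I := by
      rw [sub_eq_iff_eq_add', Complex.re_add_im]
    rw [this]
    simp
  have h3 : ‖z - io (z.1.re, z.2.re)‖ ≤ σ :=
    max_le ((k z.1).trans_le hz.1) ((k z.2).trans_le hz.2)
  have h4 := Complex.abs_im_le_norm (U z - U (io (z.1.re, z.2.re)))
  rw [Complex.sub_im, hU.re, sub_zero] at h4
  exact h4.trans (h2.trans (mul_le_mul_of_nonneg_left h3 h1))

theorem Cau_der {G : C2 → ℂ} (hG : ContDiff ℂ ∞ G) (s y : ℂ) :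
    HasDerivAt (fun s => G (s, y)) (dv (1, 0) G (s, y)) s :=
  (hG.differentiable (by simp) _).hasFDerivAt.comp_hasDerivAt s
    ((hasDerivAt_id s).prodMk (hasDerivAt_const s y))

theorem taylor {G : C2 → ℂ} (hG : ContDiff ℂ ∞ G) {σ : ℝ} (hσ : 0 < σ) (h : Bd (4 * σ) 1 G)
    {t y k : ℂ} (h1 : (t, y) ∈ St (2 * σ)) (h2 : (t + k, y) ∈ St (2 * σ)) :
    ‖G (t + k, y) - G (t, y) - dv (1, 0) G (t, y) * k‖ ≤ ‖k‖ ^ 2 / σ ^ 2 := by
  have n1 : ‖((1, 0) : E)‖ ≤ 1 := by simp [Prod.norm_def]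
  have b := cauchy (sm_dv hG (1, 0)) hσ (cauchy hG hσ h n1) n1
  have m : ∀ s ∈ segment ℝ t (t + k), (s, y) ∈ St (4 * σ - σ - σ) ∧ ‖s - t‖ ≤ ‖k‖ := by
    rintro _ ⟨a, c, ha, hc, hac, rfl⟩
    have := St_convex _ h1 h2 ha hc hac
    rw [Prod.smul_mk, Prod.smul_mk, Prod.mk_add_mk, ← add_smul, hac, one_smul] at this
    refine ⟨St_mono (by linarith) this, ?_⟩
    rw [smul_add, ← add_assoc, ← add_smul, hac, one_smul, add_sub_cancel_left, norm_smul,
      Real.norm_of_nonneg hc]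
    exact mul_le_of_le_one_left (norm_nonneg _) (by linarith)
  have l := left_mem_segment ℝ t (t + k)
  have c1 : ∀ s ∈ segment ℝ t (t + k),
      ‖dv (1, 0) G (s, y) - dv (1, 0) G (t, y)‖ ≤ 1 / σ / σ * ‖k‖ := fun s hs =>
    ((convex_segment t (t + k)).norm_image_sub_le_of_norm_hasDerivWithin_le
      (fun s _ => (Cau_der (sm_dv hG (1, 0)) s y).hasDerivWithinAt) (fun s hs => b _ (m s hs).1)
      l hs).trans (mul_le_mul_of_nonneg_left (m s hs).2 (by positivity))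
  have c2 := (convex_segment t (t + k)).norm_image_sub_le_of_norm_hasDerivWithin_le
    (f := fun s => G (s, y) - dv (1, 0) G (t, y) * s)
    (fun s _ => ((Cau_der hG s y).sub (hasDerivAt_const_mul (dv (1, 0) G (t, y)))).hasDerivWithinAt)
    c1 l (right_mem_segment ℝ t (t + k))
  rw [add_sub_cancel_left] at c2
  refine le_of_eq_of_le (congrArg norm (by ring)) (c2.trans (le_of_eq (by ring)))

end Pool.Agent.Work.MP_1ce82a_an.K
end
end

-- merged part: Pool.Agent.Work.MP_1ce82a_an.K.StepA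
section
/-! The linear equation of the scheme.

PLAN. `δ = σ / 8`, `C₁` from `sd`. (1) `sd` for `-q` gives `ψ` with `Mψ = C₁ e / δ ^ 6` on the strip
`7 δ` and `r₁ = D ψ + q` at most `β / 2`. (2) `n = ∑ j ∈ range J, (1 - m * m) ^ j`,
`‖1 - m * m‖ ≤ 1 / 3`, so `‖n - 1‖ ≤ 1 / 2`, `m * m * n = 1 - (1 - m * m) ^ J` (`mul_neg_geom_sum`).
`κ = -mn (n ψ) / mn n` is real (`mn_im`), `‖mn n - 1‖ ≤ 1 / 2`, `‖κ‖ ≤ 3 Mψ`; `φ = n * (ψ + κ)` has
mean zero and is at most `6 Mψ`. (3) `sd` for `φ` gives `w`, at most `6 C₁ Mψ / δ ^ 6` on the strip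
`6 δ`, `r₂ = D w - φ` at most `β₂`. Then `m * m * D w = ψ + κ + s`,
`s = m * m * r₂ - (1 - m * m) ^ J * (ψ + κ)`, at most `2 β₂ + 4 Mψ / 3 ^ J` on the strip `6 δ`, and
`q + D (m m D w) = r₁ + D s`; `cauchy`. Choose `J` and `β₂` with `(2 β₂ + 4 Mψ / 3 ^ J) / δ ≤ β / 2`.
`C = 6 C₁ ^ 2 * 8 ^ 12`. About 250 lines. -/

set_option linter.unusedVariables false

open Set Filter Topology MeasureTheory
open scoped ContDiff ComplexConjugate

noncomputable section
namespace Pool.Agent.Work.MP_1ce82a_an.K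

open Pool.Agent.Work.MP_1ce82a_an (E addPot)

theorem StepA_geom {a : ℂ} (ha : ‖a‖ ≤ 1 / 3) (J : ℕ) :
    ‖∑ j ∈ Finset.range (J + 1), a ^ j - 1‖ ≤ 1 / 2 := by
  induction J with
  | zero => simp
  | succ J ih =>
    rw [geom_sum_succ, add_sub_cancel_right, norm_mul]
    have h1 : ‖∑ j ∈ Finset.range (J + 1), a ^ j‖ ≤ 3 / 2 := by
      have := norm_add_le (∑ j ∈ Finset.range (J + 1), a ^ j - 1) 1
      rw [sub_add_cancel, norm_one] at this
      linarith only [ih, this]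
    calc _ ≤ 1 / 3 * (3 / 2) := mul_le_mul ha h1 (norm_nonneg _) (by norm_num)
      _ = 1 / 2 := by norm_num

theorem StepA_sq {a : ℂ} (ha : ‖a - 1‖ ≤ 1 / 8) : ‖1 - a * a‖ ≤ 1 / 3 := by
  have h1 : ‖a + 1‖ ≤ 17 / 8 := by
    have h2 := norm_add_le (a - 1) 2
    have h3 : a - 1 + 2 = a + 1 := by ring
    have h4 : ‖(2 : ℂ)‖ = 2 := by simp
    rw [h3, h4] at h2
    linarith only [ha, h2]
  have h5 : 1 - a * a = -((a - 1) * (a + 1)) := by ring
  rw [h5, norm_neg, norm_mul]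
  calc _ ≤ 1 / 8 * (17 / 8) := mul_le_mul ha h1 (norm_nonneg _) (by norm_num)
    _ ≤ 1 / 3 := by norm_num

theorem StepA_le {a : ℂ} {r : ℝ} (ha : ‖a - 1‖ ≤ r) : ‖a‖ ≤ 1 + r := by
  have := norm_add_le (a - 1) 1
  rw [sub_add_cancel, norm_one] at this
  linarith

theorem StepA_ge {a : ℂ} {r : ℝ} (ha : ‖a - 1‖ ≤ r) : 1 - r ≤ ‖a‖ := by
  have := norm_sub_le a (a - 1)
  rw [sub_sub_cancel, norm_one] at this
  linarith

/-- The constant which makes the mean vanish. -/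
theorem StepA_kappa {n ψ : C2 → ℂ} (hn : Ent n) (hψ : Ent ψ) {σ M : ℝ} (hσ : 0 ≤ σ)
    (h1 : Bd σ (1 / 2) fun z => n z - 1) (h2 : Bd σ M ψ) :
    ∃ κ : ℂ, κ.im = 0 ∧ ‖κ‖ ≤ 3 * M ∧ mn (fun z => n z * (ψ z + κ)) = 0 := by
  have hM : 0 ≤ M := (norm_nonneg _).trans (h2 _ (io_mem hσ 0))
  have e1 : Ent fun _ : C2 => (1 : ℂ) := Ent.const' (by simp)
  have a1 : ‖mn n - 1‖ ≤ 1 / 2 := by
    have := norm_mn_le hσ h1
    rwa [mn_sub hn e1, mn_const] at this
  have a2 : 1 / 2 ≤ ‖mn n‖ := by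
    have := StepA_ge a1
    linarith only [this]
  have a3 : mn n ≠ 0 := by
    intro h
    rw [h, norm_zero] at a2
    linarith
  have a4 : ‖mn fun z => n z * ψ z‖ ≤ 3 / 2 * M := by
    refine norm_mn_le hσ fun z hz => ?_
    rw [norm_mul]
    have := StepA_le (h1 z hz)
    exact mul_le_mul (by linarith only [this]) (h2 z hz) (norm_nonneg _) (by norm_num)
  have i1 := mn_im hn
  have i2 := mn_im (hn.mul hψ)
  have i3 : (-(mn fun z => n z * ψ z) / mn n).im = 0 := by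
    rw [Complex.div_im, Complex.neg_im, i1, i2]
    simp
  refine ⟨-(mn fun z => n z * ψ z) / mn n, i3, ?_, ?_⟩
  · rw [norm_div, norm_neg, div_le_iff₀ (by linarith only [a2])]
    linarith only [a4, hM, a2, mul_nonneg_of_nonpos_of_nonpos (Mathlib.Tactic.Linarith.sub_nonpos_of_le hM) (Mathlib.Tactic.Linarith.sub_nonpos_of_le a2)]
  · have : (fun z => n z * (ψ z + -(mn fun z => n z * ψ z) / mn n)) =
        fun z => n z * ψ z + -(mn fun z => n z * ψ z) / mn n * n z := by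
      funext z
      ring
    rw [this, mn_add (hn.mul hψ) ((Ent.const' i3).mul hn), mn_mul]
    field_simp
    ring

theorem stepA {γ : ℝ} (hγ : 0 < γ) : ∃ C : ℝ, 1 ≤ C ∧ ∀ (ρ σ e β : ℝ) (m q : C2 → ℂ), Dio γ ρ →
    |ρ| ≤ 1 → 0 < σ → σ ≤ 1 → 0 < β → Ent m → Ent q → mn q = 0 →
    Bd σ (1 / 8) (fun z => m z - 1) → Bd σ e q →
    ∃ w, Ent w ∧ Bd (3 * σ / 4) (C * e / σ ^ 12) w ∧
      Bd (σ / 2) β fun z => q z + dv (ρ, 1) (fun z => m z * m z * dv (ρ, 1) w z) z := by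
  obtain ⟨C, hC, H⟩ := sd hγ
  refine ⟨6 * C ^ 2 * 8 ^ 12, by linarith only [hC, mul_nonneg_of_nonpos_of_nonpos (Mathlib.Tactic.Linarith.sub_nonpos_of_le hC) (Mathlib.Tactic.Linarith.sub_nonpos_of_le hC)], ?_⟩
  intro ρ σ e β m q hD hρ hσ hσ1 hβ hm hq hq0 bm bq
  obtain ⟨δ, rfl⟩ : ∃ δ : ℝ, σ = 8 * δ := ⟨σ / 8, by ring⟩
  have hδ : 0 < δ := by linarith
  have he : 0 ≤ e := (norm_nonneg _).trans (bq _ (io_mem hσ.le 0))
  have ha : ‖((ρ, 1) : E)‖ ≤ 1 := by
    rw [Prod.norm_def]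
    simpa using hρ
  have hq0' : mn (fun z => -q z) = 0 := by
    have : (fun z => -q z) = fun z => -1 * q z := by
      funext z
      ring
    rw [this, mn_mul, hq0, mul_zero]
  obtain ⟨ψ, hψ, bψ, r1⟩ := H ρ (8 * δ) δ e (β / 2) (fun z => -q z) hD hδ (by linarith)
    (by linarith) (by linarith only [hβ]) hq.neg hq0' (fun z hz => by simpa using bq z hz)
  set M := C * e / δ ^ 6 with hMd
  have hM : 0 ≤ M := by positivity
  obtain ⟨J, hJ⟩ := exists_pow_lt_of_lt_one (x := β * δ / 4 / (4 * M + 1)) (y := (1 / 3 : ℝ))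
    (by positivity) (by norm_num)
  have hJ' : (1 / 3 : ℝ) ^ (J + 1) * (4 * M) ≤ β * δ / 4 := by
    rw [lt_div_iff₀ (by positivity)] at hJ
    have h0 : (0 : ℝ) < (1 / 3) ^ J := by positivity
    rw [pow_succ]
    linarith only [hJ, h0, hM, mul_nonneg h0.le hM]
  have e1 : Ent fun _ : C2 => (1 : ℂ) := Ent.const' (by simp)
  have ea : Ent fun z => 1 - m z * m z := e1.sub (hm.mul hm)
  have ba : ∀ z ∈ St (8 * δ), ‖1 - m z * m z‖ ≤ 1 / 3 := fun z hz => StepA_sq (bm z hz)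
  have en : Ent fun z => ∑ j ∈ Finset.range (J + 1), (1 - m z * m z) ^ j :=
    Ent.sum fun j _ => ea.pow j
  have bn : Bd (8 * δ - δ) (1 / 2)
      fun z => ∑ j ∈ Finset.range (J + 1), (1 - m z * m z) ^ j - 1 :=
    fun z hz => StepA_geom (ba z (St_mono (by linarith only [hδ]) hz)) J
  obtain ⟨κ, hκ, bκ, h0⟩ := StepA_kappa en hψ (by linarith only [hδ]) bn bψ
  have eκ : Ent fun z => ψ z + κ := hψ.add (Ent.const' hκ)
  have bψκ : ∀ z ∈ St (8 * δ - δ), ‖ψ z + κ‖ ≤ 4 * M := fun z hz => by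
    have := norm_add_le (ψ z) κ
    have := bψ z hz
    linarith
  have bφ : Bd (8 * δ - δ) (6 * M)
      fun z => (∑ j ∈ Finset.range (J + 1), (1 - m z * m z) ^ j) * (ψ z + κ) := by
    intro z hz
    rw [norm_mul]
    have := StepA_le (bn z hz)
    calc _ ≤ 3 / 2 * (4 * M) :=
          mul_le_mul (by linarith only [this]) (bψκ z hz) (norm_nonneg _) (by norm_num)
      _ = 6 * M := by ring
  obtain ⟨w, hw, bw, r2⟩ := H ρ (8 * δ - δ) δ (6 * M) (β * δ / 8) _ hD hδ (by linarith only [hσ1, hδ])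
    (by linarith only [hδ]) (by positivity) (en.mul eκ) h0 bφ
  refine ⟨w, hw, bw.mono (by linarith only []) (le_of_eq ?_), ?_⟩
  · rw [hMd]
    field_simp
  · have es : Ent fun z => m z * m z * dv (ρ, 1) w z - (ψ z + κ) :=
      ((hm.mul hm).mul (hw.dv _)).sub eκ
    have bs : Bd (8 * δ - δ - δ) (β * δ / 2)
        fun z => m z * m z * dv (ρ, 1) w z - (ψ z + κ) := by
      intro z hz
      have z1 : z ∈ St (8 * δ - δ) := St_mono (by linarith only [hδ]) hz
      have z2 : z ∈ St (8 * δ) := St_mono (by linarith only [hδ]) hz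
      have g := mul_neg_geom_sum (1 - m z * m z) (J + 1)
      rw [sub_sub_cancel] at g
      have hid : m z * m z * dv (ρ, 1) w z - (ψ z + κ) =
          m z * m z * (dv (ρ, 1) w z -
            (∑ j ∈ Finset.range (J + 1), (1 - m z * m z) ^ j) * (ψ z + κ)) -
            (1 - m z * m z) ^ (J + 1) * (ψ z + κ) := by
        linear_combination (ψ z + κ) * g
      have b1 : ‖m z * m z‖ ≤ 2 := by
        have h1 := ba z z2
        rw [norm_sub_rev] at h1
        have := StepA_le h1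
        linarith only [hσ1, hδ, this]
      have b2 : ‖m z * m z * (dv (ρ, 1) w z -
            (∑ j ∈ Finset.range (J + 1), (1 - m z * m z) ^ j) * (ψ z + κ))‖ ≤
            2 * (β * δ / 8) := by
        rw [norm_mul]
        exact mul_le_mul b1 (r2 z hz) (norm_nonneg _) (by norm_num)
      have b3 : ‖(1 - m z * m z) ^ (J + 1) * (ψ z + κ)‖ ≤ (1 / 3) ^ (J + 1) * (4 * M) := by
        rw [norm_mul, norm_pow]
        exact mul_le_mul (pow_le_pow_left₀ (norm_nonneg _) (ba z z2) _) (bψκ z z1)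
          (norm_nonneg _) (by positivity)
      show ‖m z * m z * dv (ρ, 1) w z - (ψ z + κ)‖ ≤ _
      rw [hid]
      refine (norm_sub_le _ _).trans ?_
      linarith only [hJ', b2, b3]
    have bd := cauchy es.sm hδ bs ha
    intro z hz
    have z1 : z ∈ St (8 * δ - δ) := St_mono (by linarith only [hδ]) hz
    have z2 : z ∈ St (8 * δ - δ - δ - δ) := St_mono (by linarith only [hδ]) hz
    have c1 := bd z z2
    have c2 := r1 z z1
    have c3 : β * δ / 2 / δ = β / 2 := by field_simp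
    rw [c3, dv_sub ((hm.mul hm).mul (hw.dv _)).sm eκ.sm,
      dv_add hψ.sm (Ent.const' hκ).sm, dv_const, add_zero] at c1
    have hid : q z + dv (ρ, 1) (fun z => m z * m z * dv (ρ, 1) w z) z =
        (dv (ρ, 1) (fun z => m z * m z * dv (ρ, 1) w z) z - dv (ρ, 1) ψ z) +
          (dv (ρ, 1) ψ z - -q z) := by ring
    show ‖q z + dv (ρ, 1) (fun z => m z * m z * dv (ρ, 1) w z) z‖ ≤ β
    rw [hid]
    refine (norm_add_le _ _).trans ?_
    have c4 : ‖dv (ρ, 1) ψ z - -q z‖ ≤ β / 2 := c2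
    linarith only [c1, c2]


end Pool.Agent.Work.MP_1ce82a_an.K
end
end

-- merged part: Pool.Agent.Work.MP_1ce82a_an.K.Mean
section
/-! The two identities of the scheme of Levi and Moser.

PLAN. Write `D = dv (ρ, 1)`, `d = dv (1, 0)`. `mn_er`: `(1 + d U) * er = D (D U) + D (d U * D U)
- d ((1 / 2) * (D U * D U)) - d (g ∘ sh U)` pointwise (`dv_mul`, `dv_comm`, `dv_comp`), then
`mn_add`, `mn_sub`, `mn_dv`. `lm`: expand `D (D (U + m w))` and `D (m * m * D w)` with `dv_add`,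
`dv_mul` (use `funext` to rewrite under `dv`), `d (er ρ G U) = D (D m) - d G (sh U z) * m`; `ring`.
About 150 lines. -/

set_option linter.unusedVariables false

open Set Filter Topology MeasureTheory
open scoped ContDiff ComplexConjugate

noncomputable section
namespace Pool.Agent.Work.MP_1ce82a_an.K

open Pool.Agent.Work.MP_1ce82a_an (E addPot)

theorem mn_er {g U : C2 → ℂ} (hg : Ent g) (hU : Ent U) (ρ : ℝ) :
    mn (fun z => (1 + dv (1, 0) U z) * er ρ (dv (1, 0) g) U z) = 0 := by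
  have hd := hU.dv (1, 0)
  have hD := hU.dv (ρ, 1)
  have h1 := hd.mul hD
  have h2 := (Ent.const' (c := 1 / 2) (by norm_num)).mul (hD.mul hD)
  have h3 := hg.comp hU
  have e : (fun z => (1 + dv (1, 0) U z) * er ρ (dv (1, 0) g) U z) = fun z =>
      dv (ρ, 1) (dv (ρ, 1) U) z + dv (ρ, 1) (fun z => dv (1, 0) U z * dv (ρ, 1) U z) z -
        dv (1, 0) (fun z => (1 / 2 : ℂ) * (dv (ρ, 1) U z * dv (ρ, 1) U z)) z -
        dv (1, 0) (fun z => g (sh U z)) z := by
    funext z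
    rw [dv_mul hd.sm hD.sm, dv_mul contDiff_const (hD.mul hD).sm, dv_const, dv_mul hD.sm hD.sm,
      dv_comp hg.sm hU.sm, dv_comm hU.sm (1, 0) (ρ, 1), er]
    ring
  rw [e, mn_sub (((hD.dv _).add (h1.dv _)).sub (h2.dv _)) (h3.dv _),
    mn_sub ((hD.dv _).add (h1.dv _)) (h2.dv _), mn_add (hD.dv _) (h1.dv _), mn_dv hD, mn_dv h1,
    mn_dv h2, mn_dv h3]
  ring

theorem lm {G U w : C2 → ℂ} (hG : Ent G) (hU : Ent U) (hw : Ent w) (ρ : ℝ) (z : C2) :
    (1 + dv (1, 0) U z) * er ρ G (fun z => U z + (1 + dv (1, 0) U z) * w z) z =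
      ((1 + dv (1, 0) U z) * er ρ G U z +
        dv (ρ, 1) (fun z => (1 + dv (1, 0) U z) * (1 + dv (1, 0) U z) * dv (ρ, 1) w z) z) +
      (1 + dv (1, 0) U z) * (w z * dv (1, 0) (er ρ G U) z -
        (G (z.1 + U z + (1 + dv (1, 0) U z) * w z, z.2) - G (z.1 + U z, z.2) -
          dv (1, 0) G (z.1 + U z, z.2) * ((1 + dv (1, 0) U z) * w z))) := by
  have hd := hU.dv (1, 0)
  have hD := hU.dv (ρ, 1)
  have hm := (Ent.const' (c := 1) (by norm_num)).add hd
  have hDd := hd.dv (ρ, 1)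
  have hDw := hw.dv (ρ, 1)
  have e0 : ∀ z, dv (ρ, 1) (fun z => 1 + dv (1, 0) U z) z = dv (ρ, 1) (dv (1, 0) U) z := fun z => by
    rw [dv_add contDiff_const hd.sm, dv_const, zero_add]
  have e1 : dv (ρ, 1) (fun z => U z + (1 + dv (1, 0) U z) * w z) = fun z => dv (ρ, 1) U z +
      (dv (ρ, 1) (dv (1, 0) U) z * w z + (1 + dv (1, 0) U z) * dv (ρ, 1) w z) := by
    funext z
    rw [dv_add hU.sm (hm.mul hw).sm, dv_mul hm.sm hw.sm, e0]
  have e2 : dv (1, 0) (dv (ρ, 1) U) = dv (ρ, 1) (dv (1, 0) U) := funext (dv_comm hU.sm _ _)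
  have e3 : dv (1, 0) (er ρ G U) z = dv (ρ, 1) (dv (ρ, 1) (dv (1, 0) U)) z -
      dv (1, 0) G (sh U z) * (1 + dv (1, 0) U z) := by
    rw [← dv_comp hG.sm hU.sm, ← e2, ← dv_comm hD.sm (1, 0) (ρ, 1)]
    exact dv_sub (hD.dv _).sm (hG.comp hU).sm _ _
  rw [e3, er, er, e1, dv_add hD.sm ((hDd.mul hw).add (hm.mul hDw)).sm,
    dv_add (hDd.mul hw).sm (hm.mul hDw).sm, dv_mul hDd.sm hw.sm, dv_mul hm.sm hDw.sm,
    dv_mul (hm.mul hm).sm hDw.sm, dv_mul hm.sm hm.sm, e0]
  simp only [sh, add_assoc]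
  ring

end Pool.Agent.Work.MP_1ce82a_an.K
end
end

-- merged part: Pool.Agent.Work.MP_1ce82a_an.K.Step
section
/-! One step of the scheme.

PLAN. `m = 1 + dv (1, 0) U`, `‖m - 1‖ ≤ 1 / 8` (`norm_dv_le`), `q = m * er`, at most `2 e`, mean zero
by `mn_er`; `w` from `stepA` with `β / 2`, `h = m * w`, `C = 8 + 4 C₀`. On the strip `σ / 2`:
`‖dv (1, 0) er‖ ≤ 2 e / σ` (`cauchy`), `im_le` gives `|(U z).im| ≤ σ / 8`, `‖h‖ ≤ σ / 2`, so `taylor`
applies; divide the identity `lm` by `m`, `‖m‖ ≥ 7 / 8`. About 200 lines. -/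

set_option linter.unusedVariables false

open Set Filter Topology MeasureTheory
open scoped ContDiff ComplexConjugate

noncomputable section
namespace Pool.Agent.Work.MP_1ce82a_an.K

open Pool.Agent.Work.MP_1ce82a_an (E addPot)

theorem Step_div {m x a b : ℂ} {β η : ℝ} (hβ : 0 < β) (hm : ‖m - 1‖ ≤ 1 / 8)
    (e : m * x = a + m * b) (ha : ‖a‖ ≤ β / 2) (hb : ‖b‖ ≤ η) : ‖x‖ ≤ η + β := by
  have h1 : 7 / 8 ≤ ‖m‖ := by
    have := norm_sub_norm_le (1 : ℂ) m
    rw [norm_one, norm_sub_rev] at this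
    linarith only [hm, this]
  have h2 : ‖m‖ * ‖x - b‖ ≤ β / 2 := by
    rw [← norm_mul, mul_sub, e, add_sub_cancel_right]
    exact ha
  have h3 : ‖x‖ ≤ ‖x - b‖ + ‖b‖ := norm_le_norm_sub_add x b
  (refine le_of_not_gt fun h_nl => ?_; linarith only [h_nl, hβ, hb, h2, h3, h1, norm_nonneg (x - b), mul_nonneg_of_nonpos_of_nonpos (le_of_lt (Mathlib.Tactic.Linarith.sub_neg_of_lt hβ)) (Mathlib.Tactic.Linarith.sub_nonpos_of_le h1), mul_nonneg_of_nonpos_of_nonpos (Mathlib.Tactic.Linarith.sub_nonpos_of_le hb) (Mathlib.Tactic.Linarith.sub_nonpos_of_le h1), mul_nonneg_of_nonpos_of_nonpos (Mathlib.Tactic.Linarith.sub_nonpos_of_le h1) (Mathlib.Tactic.Linarith.sub_nonpos_of_le h3), mul_nonneg_of_nonpos_of_nonpos (Mathlib.Tactic.Linarith.sub_nonpos_of_le h1) (le_of_lt (Mathlib.Tactic.Linarith.sub_neg_of_lt h_nl))])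

theorem step {γ : ℝ} (hγ : 0 < γ) : ∃ C : ℝ, 1 ≤ C ∧ ∀ (ρ σ e β : ℝ) (g U : C2 → ℂ), Dio γ ρ →
    |ρ| ≤ 1 → 0 < σ → σ ≤ 1 → 0 < β → Ent g → Ent U → Bd (4 * σ) 1 (dv (1, 0) g) →
    (∀ z ∈ St σ, ‖fderiv ℂ U z‖ ≤ 1 / 8) → Bd σ e (er ρ (dv (1, 0) g) U) →
    C * e / σ ^ 13 ≤ 1 / 2 →
    ∃ h, Ent h ∧ Bd (3 * σ / 4) (C * e / σ ^ 12) h ∧
      Bd (σ / 2) (2 * (C * e / σ ^ 13) ^ 2 + β) (er ρ (dv (1, 0) g) fun z => U z + h z) := by
  obtain ⟨C₀, hC₀, hA⟩ := stepA hγ
  refine ⟨8 + 4 * C₀, by linarith only [hC₀], fun ρ σ e β g U hD hρ h0 h1 hβ hg hU bG bU bE hs => ?_⟩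
  have hG := hg.dv (1, 0)
  have hE := hG.er hU ρ
  have hm : Ent fun z => 1 + dv (1, 0) U z :=
    (Ent.const' Complex.one_im).add (hU.dv (1, 0))
  have n1 : ‖((1, 0) : E)‖ = 1 := by simp [Prod.norm_def]
  have bm : Bd σ (1 / 8) fun z => 1 + dv (1, 0) U z - 1 := fun z hz => by
    have := norm_dv_le U (1, 0) z
    rw [n1, mul_one] at this
    exact (congrArg norm (add_sub_cancel_left _ _)).trans_le (this.trans (bU z hz))
  have bm' : ∀ z ∈ St σ, ‖1 + dv (1, 0) U z‖ ≤ 2 := fun z hz => by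
    have := norm_le_norm_sub_add (1 + dv (1, 0) U z) 1
    rw [norm_one] at this
    linarith only [this, bm, hz, bm z hz]
  have e0 : 0 ≤ e := (norm_nonneg _).trans (bE _ (io_mem h0.le 0))
  obtain ⟨w, hw, bw, br⟩ := hA ρ σ (2 * e) (β / 2) _ _ hD hρ h0 h1 (half_pos hβ) hm (hm.mul hE)
    (mn_er hg hU ρ) bm fun z hz => by
      rw [norm_mul]
      exact mul_le_mul (bm' z hz) (bE z hz) (norm_nonneg _) zero_le_two
  have p12 : 0 < σ ^ 12 := by positivity
  obtain ⟨ε, hε⟩ : ∃ ε, (8 + 4 * C₀) * e / σ ^ 13 = ε := ⟨_, rfl⟩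
  have k1 : (8 + 4 * C₀) * e / σ ^ 12 = ε * σ := by
    rw [← hε]
    field_simp
  have ε0 : 0 ≤ ε := by
    rw [← hε]
    positivity
  have k2 : C₀ * (2 * e) / σ ^ 12 ≤ ε * σ / 2 := by
    rw [← k1, div_div, div_le_div_iff₀ p12 (by positivity)]
    linarith only [e0, p12, mul_nonneg e0 p12.le]
  have k3 : e / (σ / 2) ≤ ε := by
    have a : (8 + 4 * C₀) * e = ε * σ * σ ^ 12 := by rw [← k1, div_mul_cancel₀ _ p12.ne']
    have b : ε * σ * σ ^ 12 ≤ ε * σ * 1 :=
      mul_le_mul_of_nonneg_left (pow_le_one₀ h0.le h1) (by positivity)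
    rw [div_le_iff₀ (half_pos h0)]
    linarith only [e0, a, b, hC₀, mul_nonneg e0 (zero_le_one.trans hC₀)]
  rw [hε] at hs ⊢
  rw [k1]
  have bh : Bd (3 * σ / 4) (ε * σ) fun z => (1 + dv (1, 0) U z) * w z := fun z hz => by
    rw [norm_mul]
    refine (mul_le_mul (bm' z (St_mono (by linarith only [h0]) hz)) ((bw z hz).trans k2) (norm_nonneg _)
      zero_le_two).trans_eq (by ring)
  refine ⟨_, hm.mul hw, bh, fun z hz => ?_⟩
  have z1 : z ∈ St σ := St_mono (by linarith only [h0]) hz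
  have z2 : z ∈ St (3 * σ / 4) := St_mono (by linarith only [h0]) hz
  refine Step_div hβ (bm z z1) (lm hG hU hw ρ z) (br z hz) ((norm_sub_le _ _).trans ?_)
  have c1 : ‖dv (1, 0) (er ρ (dv (1, 0) g) U) z‖ ≤ ε :=
    (cauchy hE.sm (half_pos h0) bE n1.le z (St_mono (by linarith only []) hz)).trans k3
  have c2 : ‖w z * dv (1, 0) (er ρ (dv (1, 0) g) U) z‖ ≤ ε ^ 2 := by
    rw [norm_mul, sq]
    refine mul_le_mul (((bw z z2).trans k2).trans ?_) c1 (norm_nonneg _) ε0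
    linarith only [ε0, h1, mul_nonneg_of_nonpos_of_nonpos (Mathlib.Tactic.Linarith.sub_nonpos_of_le h1) (Mathlib.Tactic.Linarith.sub_nonpos_of_le ε0)]
  have i1 := im_le hU bU z1
  have i2 : |((1 + dv (1, 0) U z) * w z).im| ≤ σ / 2 :=
    ((Complex.abs_im_le_norm _).trans (bh z z2)).trans (by linarith only [h0, hs, mul_nonneg_of_nonpos_of_nonpos (le_of_lt (Mathlib.Tactic.Linarith.sub_neg_of_lt h0)) (Mathlib.Tactic.Linarith.sub_nonpos_of_le hs)])
  have i3 : |(z.1 + U z).im| ≤ σ := by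
    rw [Complex.add_im]
    exact (abs_add_le _ _).trans (by linarith only [h0, i1, hz, hz.1])
  have i4 : |z.2.im| ≤ 2 * σ := by linarith only [h0, hz, hz.2]
  have c3 := taylor hG.sm h0 bG (t := z.1 + U z) (y := z.2) (k := (1 + dv (1, 0) U z) * w z)
    ⟨i3.trans (by linarith only [h0]), i4⟩ ⟨by
      show |(z.1 + U z + (1 + dv (1, 0) U z) * w z).im| ≤ 2 * σ
      rw [Complex.add_im]
      exact (abs_add_le _ _).trans (by linarith only [h0, i2, i3]), i4⟩
  have c4 : ‖(1 + dv (1, 0) U z) * w z‖ ^ 2 / σ ^ 2 ≤ ε ^ 2 := by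
    rw [div_le_iff₀ (by positivity), ← mul_pow]
    exact pow_le_pow_left₀ (norm_nonneg _) (bh z z2) 2
  linarith only [c2, c3, c4]

end Pool.Agent.Work.MP_1ce82a_an.K
end
end

-- merged part: Pool.Agent.Work.MP_1ce82a_an.K.Iter
section
/-! The iteration.

PLAN. `σ n = (1 / 2) ^ n`, `G n = dv (1, 0) (gs n)`, `e n = ε₀ * σ n ^ 26` with
`6 C ^ 2 * 2 ^ 26 * ε₀ ≤ 1`, `C ε₀ ≤ η`, `C ε₀ ≤ 1 / 64`, `ε = ε₀ / (3 * 2 ^ 26)`. Invariant `P n U`:
`Ent U`, `‖fderiv ℂ U z‖ ≤ (1 - σ n) / 8` on `St (σ n)`, `Bd (σ n) (e n) (er ρ (G n) U)`. `P 0 0`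
holds. `G n` is at most `1` on `St (4 * σ n)` (induction, telescoping). Given `P n U`, `step` with
`β = e (n + 1) / 3` gives `h` with `Ent h`, `Bd (σ n / 2) (η * σ n ^ 3) h` and `P (n + 1) (U + h)`:
`cauchy_op` with `δ = σ n / 4`; `er ρ (G (n + 1)) U' z = er ρ (G n) U' z - (G (n + 1) - G n) (sh U' z)`
and `sh U' z ∈ St (2 * σ n)` by `im_le`. Build the sequence by recursion (`choose`, `Nat.rec` on a
subtype, or `exists_seq_of_forall_finset_exists` type lemma) and prove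
`U n = ∑ j ∈ range n, hs j`. About 250 lines. -/

set_option linter.unusedVariables false

open Set Filter Topology MeasureTheory
open scoped ContDiff ComplexConjugate

noncomputable section
namespace Pool.Agent.Work.MP_1ce82a_an.K

open Pool.Agent.Work.MP_1ce82a_an (E addPot)

theorem Iter_G {ε : ℝ} (hε : ε ≤ 1 / 2) {G : ℕ → C2 → ℂ} (h0 : ∀ z, G 0 z = 0)
    (h : ∀ n, Bd (2 * (1 / 2) ^ n) (ε * ((1 / 2) ^ n) ^ 26) fun z => G (n + 1) z - G n z)
    (n : ℕ) : Bd (4 * (1 / 2) ^ n) (1 - (1 / 2) ^ n) (G n) := by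
  induction n with
  | zero =>
    intro z _
    rw [h0 z]
    simp
  | succ n ih =>
    intro z hz
    have hs0 : (0 : ℝ) < (1 / 2) ^ n := by positivity
    have hs1 : ((1 : ℝ) / 2) ^ n ≤ 1 := pow_le_one₀ (by norm_num) (by norm_num)
    rw [pow_succ] at hz ⊢
    have h1 := ih z (St_mono (by linarith only [hs0]) hz)
    have h2 := h n z (St_mono (by linarith only []) hz)
    have h3 : G (n + 1) z = G n z + (G (n + 1) z - G n z) := by ring
    have h4 : (((1 : ℝ) / 2) ^ n) ^ 26 ≤ (1 / 2) ^ n := pow_le_of_le_one hs0.le hs1 (by norm_num)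
    have h5 : ε * (((1 : ℝ) / 2) ^ n) ^ 26 ≤ 1 / 2 * (1 / 2) ^ n :=
      (mul_le_mul_of_nonneg_right hε (by positivity)).trans
        (mul_le_mul_of_nonneg_left h4 (by norm_num))
    have h6 := norm_add_le (G n z) (G (n + 1) z - G n z)
    rw [← h3] at h6
    simp only at h2
    linarith only [h1, h2, h5, h6]

theorem Iter_one {C ε η ρ σ : ℝ} {g g' U : C2 → ℂ} (hC : 1 ≤ C) (hε : 0 < ε)
    (e1 : 6 * C ^ 2 * 2 ^ 26 * ε ≤ 1) (e2 : C * ε ≤ η) (hσ : 0 < σ) (hσ1 : σ ≤ 1)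
    (hst : C * (ε * σ ^ 26) / σ ^ 13 ≤ 1 / 2 →
      ∃ h, Ent h ∧ Bd (3 * σ / 4) (C * (ε * σ ^ 26) / σ ^ 12) h ∧
        Bd (σ / 2) (2 * (C * (ε * σ ^ 26) / σ ^ 13) ^ 2 + ε * (σ / 2) ^ 26 / 3)
          (er ρ g fun z => U z + h z))
    (hU : Ent U) (hd : ∀ z ∈ St σ, ‖fderiv ℂ U z‖ ≤ (1 - σ) / 8)
    (hg : Bd (2 * σ) (ε / (3 * 2 ^ 26) * σ ^ 26) fun z => g' z - g z) :
    ∃ h, Ent h ∧ Bd (σ / 2) (η * σ ^ 3) h ∧
      (∀ z ∈ St (σ / 2), ‖fderiv ℂ (fun z => U z + h z) z‖ ≤ (1 - σ / 2) / 8) ∧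
      Bd (σ / 2) (ε * (σ / 2) ^ 26) (er ρ g' fun z => U z + h z) := by
  have hCε : C * ε ≤ 1 / 64 := by
    have h1 : C * ε ≤ C ^ 2 * ε := mul_le_mul_of_nonneg_right (by linarith only [hC, mul_nonneg_of_nonpos_of_nonpos (Mathlib.Tactic.Linarith.sub_nonpos_of_le hC) (Mathlib.Tactic.Linarith.sub_nonpos_of_le hC)]) hε.le
    linarith only [e1, h1]
  have hCε0 : 0 ≤ C * ε := by positivity
  have a1 : C * (ε * σ ^ 26) / σ ^ 13 = C * ε * σ ^ 13 := by field_simp
  have a2 : C * (ε * σ ^ 26) / σ ^ 12 = C * ε * σ ^ 14 := by field_simp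
  have p1 : σ ^ 13 ≤ σ := pow_le_of_le_one hσ.le hσ1 (by norm_num)
  have p2 : σ ^ 14 ≤ σ ^ 3 := pow_le_pow_of_le_one hσ.le hσ1 (by norm_num)
  have a3 : C * ε * σ ^ 13 ≤ 1 / 64 * σ := mul_le_mul hCε p1 (by positivity) (by norm_num)
  rw [a1, a2] at hst
  obtain ⟨h, h1, h2, h3⟩ := hst (by linarith only [hσ1, a3])
  have hd' : ∀ z ∈ St (σ / 2), ‖fderiv ℂ (fun z => U z + h z) z‖ ≤ (1 - σ / 2) / 8 := by
    intro z hz
    have b1 : ‖fderiv ℂ h z‖ ≤ C * ε * σ ^ 14 / (σ / 4) :=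
      cauchy_op (h1.sm.differentiable (by simp)) (by positivity) h2 (St_mono (by linarith only []) hz)
    have b2 : C * ε * σ ^ 14 / (σ / 4) = 4 * (C * ε * σ ^ 13) := by field_simp
    have b3 := hd z (St_mono (by linarith only [hσ]) hz)
    rw [fderiv_fun_add (hU.sm.differentiable (by simp) z) (h1.sm.differentiable (by simp) z)]
    have b4 := norm_add_le (fderiv ℂ U z) (fderiv ℂ h z)
    linarith only [a3, b1, b2, b3, b4]
  refine ⟨h, h1, h2.mono (by linarith only [hσ]) (mul_le_mul e2 p2 (by positivity) (by linarith only [e2, hCε0])), hd', ?_⟩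
  intro z hz
  have c1 := im_le (hU.add h1) hd' hz
  have c2 : sh (fun z => U z + h z) z ∈ St (2 * σ) := by
    have d1 : (1 - σ / 2) / 8 * (σ / 2) ≤ σ := by linarith only [hσ, mul_pos_of_neg_of_neg (Mathlib.Tactic.Linarith.sub_neg_of_lt hσ) (Mathlib.Tactic.Linarith.sub_neg_of_lt hσ)]
    refine ⟨?_, hz.2.trans (by linarith only [hσ])⟩
    have d2 : (sh (fun z => U z + h z) z).1.im = z.1.im + (U z + h z).im := by
      simp only [sh, Complex.add_im]
    rw [d2]
    have d3 := abs_add_le z.1.im (U z + h z).im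
    have d4 := hz.1
    linarith only [hσ, c1, d1, d3, d4]
  have c3 := hg _ c2
  have c4 := h3 z hz
  have c5 : er ρ g' (fun z => U z + h z) z = er ρ g (fun z => U z + h z) z -
      (g' (sh (fun z => U z + h z) z) - g (sh (fun z => U z + h z) z)) := by
    simp only [er]
    ring
  have c6 := norm_sub_le (er ρ g (fun z => U z + h z) z)
    (g' (sh (fun z => U z + h z) z) - g (sh (fun z => U z + h z) z))
  rw [← c5] at c6
  have c7 : ε / (3 * 2 ^ 26) * σ ^ 26 = ε * (σ / 2) ^ 26 / 3 := by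
    rw [div_pow]
    ring
  have c8 : 2 * (C * ε * σ ^ 13) ^ 2 = 6 * C ^ 2 * 2 ^ 26 * ε * (ε * (σ / 2) ^ 26 / 3) := by
    rw [div_pow]
    ring
  have c9 : 6 * C ^ 2 * 2 ^ 26 * ε * (ε * (σ / 2) ^ 26 / 3) ≤ 1 * (ε * (σ / 2) ^ 26 / 3) :=
    mul_le_mul_of_nonneg_right e1 (by positivity)
  simp only at c3
  linarith only [c3, c4, c6, c9]

theorem iter {γ η : ℝ} (hγ : 0 < γ) (hη : 0 < η) : ∃ ε : ℝ, 0 < ε ∧ ε ≤ 1 ∧
    ∀ (ρ : ℝ) (gs : ℕ → C2 → ℂ), Dio γ ρ → |ρ| ≤ 1 → (∀ n, Ent (gs n)) →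
    (∀ z, dv (1, 0) (gs 0) z = 0) →
    (∀ n, Bd (2 * (1 / 2) ^ n) (ε * ((1 / 2) ^ n) ^ 26)
      fun z => dv (1, 0) (gs (n + 1)) z - dv (1, 0) (gs n) z) →
    ∃ hs : ℕ → C2 → ℂ, (∀ n, Ent (hs n)) ∧
      (∀ n, Bd ((1 / 2) ^ n / 2) (η * ((1 / 2) ^ n) ^ 3) (hs n)) ∧
      ∀ n x, ‖er ρ (dv (1, 0) (gs n)) (fun z => ∑ j ∈ Finset.range n, hs j z) (io x)‖ ≤ (1 / 2) ^ n := by
  obtain ⟨C, hC, hst⟩ := step hγ
  obtain ⟨ε, hε, e1, e2⟩ : ∃ ε : ℝ, 0 < ε ∧ 6 * C ^ 2 * 2 ^ 26 * ε ≤ 1 ∧ C * ε ≤ η := by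
    refine ⟨min (1 / (6 * C ^ 2 * 2 ^ 26)) (η / C), lt_min (by positivity) (by positivity), ?_, ?_⟩
    · rw [← le_div_iff₀' (by positivity)]
      exact min_le_left _ _
    · rw [← le_div_iff₀' (by positivity)]
      exact min_le_right _ _
  have hε1 : ε ≤ 1 := by
    have h1 : 1 * ε ≤ C ^ 2 * ε := mul_le_mul_of_nonneg_right (by linarith only [hC, mul_nonneg_of_nonpos_of_nonpos (Mathlib.Tactic.Linarith.sub_nonpos_of_le hC) (Mathlib.Tactic.Linarith.sub_nonpos_of_le hC)]) hε.le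
    linarith only [hε, e1, h1]
  have hε2 : ε / (3 * 2 ^ 26) ≤ 1 / 2 := by
    rw [div_le_iff₀ (by positivity)]
    linarith only [hε1]
  refine ⟨ε / (3 * 2 ^ 26), by positivity, by linarith only [hε1], fun ρ gs hD hρ hg h0 hb => ?_⟩
  have hG := Iter_G hε2 (G := fun n => dv (1, 0) (gs n)) h0 hb
  have s0 : ∀ n : ℕ, (0 : ℝ) < (1 / 2) ^ n := fun n => by positivity
  have s1 : ∀ n : ℕ, ((1 : ℝ) / 2) ^ n ≤ 1 := fun n => pow_le_one₀ (by norm_num) (by norm_num)
  have s2 : ∀ n : ℕ, ((1 : ℝ) / 2) ^ (n + 1) = (1 / 2) ^ n / 2 := fun n => by ring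
  obtain ⟨P, hP⟩ : ∃ P : ℕ → (C2 → ℂ) → Prop, ∀ n U, P n U ↔ Ent U ∧
      (∀ z ∈ St ((1 / 2) ^ n), ‖fderiv ℂ U z‖ ≤ (1 - (1 / 2) ^ n) / 8) ∧
      Bd ((1 / 2) ^ n) (ε * ((1 / 2) ^ n) ^ 26) (er ρ (dv (1, 0) (gs n)) U) :=
    ⟨_, fun _ _ => Iff.rfl⟩
  have one : ∀ n U, ∃ h, P n U → Ent h ∧ Bd ((1 / 2) ^ n / 2) (η * ((1 / 2) ^ n) ^ 3) h ∧
      P (n + 1) fun z => U z + h z := by
    intro n U
    by_cases hp : P n U
    · obtain ⟨u1, u2, u3⟩ := (hP n U).1 hp
      obtain ⟨h, h1, h2, h3, h4⟩ := Iter_one hC hε e1 e2 (s0 n) (s1 n)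
        (hst ρ _ _ _ (gs n) U hD hρ (s0 n) (s1 n) (by positivity) (hg n) u1
          ((hG n).mono le_rfl (by linarith only [s0, s0 n]))
          (fun z hz => (u2 z hz).trans (by linarith only [s0, s0 n])) u3) u1 u2 (hb n)
      refine ⟨h, fun _ => ⟨h1, h2, (hP _ _).2 ⟨u1.add h1, ?_, ?_⟩⟩⟩
      · rw [s2]
        exact h3
      · rw [s2]
        exact h4
    · exact ⟨U, fun h => absurd h hp⟩
  choose H hH using one
  obtain ⟨U, U0, U1⟩ : ∃ U : ℕ → C2 → ℂ, U 0 = (fun _ => 0) ∧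
      ∀ n, U (n + 1) = fun z => U n z + H n (U n) z :=
    ⟨fun n => Nat.rec (fun _ => 0) (fun n u z => u z + H n u z) n, rfl, fun _ => rfl⟩
  have hU : ∀ n, P n (U n) := by
    intro n
    induction n with
    | zero =>
      rw [U0]
      refine (hP _ _).2 ⟨Ent.const' Complex.zero_im, fun z _ => ?_, fun z _ => ?_⟩
      · simp
      · have h1 : dv (ρ, 1) (fun _ : C2 => (0 : ℂ)) = fun _ => 0 := funext fun z => dv_const _ _ z
        simp only [er, h1, h0, sub_zero, norm_zero]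
        positivity
    | succ n ih =>
      rw [U1]
      exact (hH n _ ih).2.2
  have hS : ∀ n, (fun z => ∑ j ∈ Finset.range n, H j (U j) z) = U n := by
    intro n
    induction n with
    | zero =>
      rw [U0]
      simp
    | succ n ih =>
      rw [U1]
      funext z
      rw [Finset.sum_range_succ, ← congrFun ih z]
  refine ⟨fun n => H n (U n), fun n => (hH n _ (hU n)).1, fun n => (hH n _ (hU n)).2.1,
    fun n x => ?_⟩
  rw [hS]
  refine (((hP _ _).1 (hU n)).2.2 _ (io_mem (s0 n).le x)).trans ?_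
  have h4 : (((1 : ℝ) / 2) ^ n) ^ 26 ≤ (1 / 2) ^ n :=
    pow_le_of_le_one (s0 n).le (s1 n) (by norm_num)
  exact (mul_le_of_le_one_left (by positivity) hε1).trans h4

end Pool.Agent.Work.MP_1ce82a_an.K
end
end

-- merged part: Pool.Agent.Work.MP_1ce82a_an.K.Lim
section
/-! The limit of the iteration.

PLAN. `r n x = (hs n (io x)).re`, smooth (`sm_res`). With `R : (C2 →L[ℂ] ℂ) →L[ℝ] (E →L[ℝ] ℝ)`,
`R l a = (l (io a)).re` (norm at most one), `fderiv ℝ (r n) x = R (fderiv ℂ (hs n) (io x))`, at most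
`2 η σ ^ 2` by `cauchy_op` with `δ = σ / 2`; the derivative of `x ↦ fderiv ℝ (r n) x` is at most
`16 η σ` by `cauchy_op` twice with `δ = σ / 4` (the second time for the map `fderiv ℂ (hs n)`).
`hasFDerivAt_tsum` twice and `continuous_tsum` (or `contDiff_tsum`) give `U = ∑' r n` of class `C²`
with termwise derivatives; `dv_sum`, `Ent.dv`, `Ent.re`, `HasSum.tendsto_sum_nat`.
About 300 lines. -/

set_option linter.unusedVariables false

open Set Filter Topology MeasureTheory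
open scoped ContDiff ComplexConjugate

noncomputable section
namespace Pool.Agent.Work.MP_1ce82a_an.K

open Pool.Agent.Work.MP_1ce82a_an (E addPot)

/-- The inclusion of the real points as a real linear map. -/
def Lim_io : E →L[ℝ] C2 :=
  (Complex.ofRealCLM.comp (ContinuousLinearMap.fst ℝ ℝ ℝ)).prod
    (Complex.ofRealCLM.comp (ContinuousLinearMap.snd ℝ ℝ ℝ))

theorem Lim_io_eq (x : E) : Lim_io x = io x := rfl

theorem Lim_has {F : Type} [NormedAddCommGroup F] [NormedSpace ℂ F] {u : C2 → F}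
    (hu : Differentiable ℂ u) (x : E) :
    HasFDerivAt (fun y : E => u (io y)) (((fderiv ℂ u (io x)).restrictScalars ℝ).comp Lim_io) x :=
  ((hu (io x)).hasFDerivAt.restrictScalars ℝ).comp x Lim_io.hasFDerivAt

theorem Lim_norm {F F' : Type} [NormedAddCommGroup F] [NormedSpace ℂ F] [NormedAddCommGroup F']
    [NormedSpace ℝ F'] (L : F →L[ℝ] F') (hL : ∀ v, ‖L v‖ ≤ ‖v‖) (l : C2 →L[ℂ] F) :
    ‖L.comp ((l.restrictScalars ℝ).comp Lim_io)‖ ≤ ‖l‖ :=
  ContinuousLinearMap.opNorm_le_bound _ (norm_nonneg _) fun a =>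
    (hL _).trans ((l.le_opNorm (io a)).trans_eq (by rw [norm_io]))

/-- Real part of a complex linear form on the real points. -/
def Lim_R : (C2 →L[ℂ] ℂ) →L[ℝ] (E →L[ℝ] ℝ) :=
  LinearMap.mkContinuous
    { toFun := fun l => Complex.reCLM.comp ((l.restrictScalars ℝ).comp Lim_io)
      map_add' := fun l l' => by ext <;> simp
      map_smul' := fun c l => by ext <;> simp } 1
    fun l => (Lim_norm _ Complex.abs_re_le_norm l).trans_eq (one_mul _).symm

theorem Lim_R_apply (l : C2 →L[ℂ] ℂ) (a : E) : Lim_R l a = (l (io a)).re := rfl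

theorem Lim_R_le (l : C2 →L[ℂ] ℂ) : ‖Lim_R l‖ ≤ ‖l‖ := Lim_norm _ Complex.abs_re_le_norm l

theorem Lim_d1 {u : C2 → ℂ} (hu : ContDiff ℂ ∞ u) (x : E) :
    HasFDerivAt (fun y : E => (u (io y)).re) (Lim_R (fderiv ℂ u (io x))) x :=
  Complex.reCLM.hasFDerivAt.comp x (Lim_has (hu.differentiable (by simp)) x)

theorem Lim_sm {u : C2 → ℂ} (hu : ContDiff ℂ ∞ u) : ContDiff ℂ ∞ (fderiv ℂ u) :=
  hu.fderiv_right (by simp)

theorem Lim_sm1 {u : C2 → ℂ} (hu : ContDiff ℂ ∞ u) :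
    ContDiff ℝ 1 fun y : E => Lim_R (fderiv ℂ u (io y)) :=
  Lim_R.contDiff.comp
    ((((Lim_sm hu).of_le (by simp)).restrict_scalars ℝ).comp Lim_io.contDiff)

theorem Lim_d2 {u : C2 → ℂ} (hu : ContDiff ℂ ∞ u) (x : E) :
    ‖fderiv ℝ (fun y : E => Lim_R (fderiv ℂ u (io y))) x‖ ≤ ‖fderiv ℂ (fderiv ℂ u) (io x)‖ := by
  have h : HasFDerivAt (fun y : E => Lim_R (fderiv ℂ u (io y))) _ x :=
    Lim_R.hasFDerivAt.comp x (Lim_has ((Lim_sm hu).differentiable (by simp)) x)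
  rw [h.fderiv]
  exact Lim_norm _ Lim_R_le _

theorem Lim_app {D : E → E →L[ℝ] ℝ} {D' : E →L[ℝ] E →L[ℝ] ℝ} {x : E} (h : HasFDerivAt D D' x)
    (a : E) : fderiv ℝ (fun y => D y a) x a = D' a a := by
  have k : HasFDerivAt (fun y => D y a) _ x :=
    (ContinuousLinearMap.apply ℝ ℝ a).hasFDerivAt.comp x h
  rw [k.fderiv]
  rfl

theorem Lim_dv {u : C2 → ℂ} (hu : Ent u) (a x : E) : dv a (dv a u) (io x) =
    ((fderiv ℝ (fun y : E => Lim_R (fderiv ℂ u (io y))) x a a : ℝ) : ℂ) := by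
  rw [← Lim_app ((Lim_sm1 hu.sm).differentiable one_ne_zero x).hasFDerivAt a]
  have k : HasFDerivAt (fun y : E => Lim_R (fderiv ℂ u (io y)) a) _ x := Lim_d1 (sm_dv hu.sm a) x
  rw [k.fderiv]
  exact Complex.ext rfl (((hu.dv a).dv a).re x)

theorem Lim_b1 {u : C2 → ℂ} (hu : ContDiff ℂ ∞ u) {σ η : ℝ} (hσ : 0 < σ)
    (h : Bd (σ / 2) (η * σ ^ 3) u) (x : E) : ‖Lim_R (fderiv ℂ u (io x))‖ ≤ 2 * η * σ ^ 2 := by
  refine (Lim_R_le _).trans ((cauchy_op (hu.differentiable (by simp)) (half_pos hσ) h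
    (io_mem (sub_self _).ge x)).trans_eq ?_)
  field_simp

theorem Lim_b2 {u : C2 → ℂ} (hu : ContDiff ℂ ∞ u) {σ η : ℝ} (hσ : 0 < σ)
    (h : Bd (σ / 2) (η * σ ^ 3) u) (x : E) :
    ‖fderiv ℝ (fun y : E => Lim_R (fderiv ℂ u (io y))) x‖ ≤ 16 * η * σ := by
  have h4 : 0 < σ / 4 := by positivity
  refine (Lim_d2 hu x).trans ((cauchy_op ((Lim_sm hu).differentiable (by simp)) h4
    (fun z hz => cauchy_op (hu.differentiable (by simp)) h4 h hz)
    (io_mem (by linarith only []) x)).trans_eq ?_)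
  field_simp
  norm_num

theorem lim {η : ℝ} {hs : ℕ → C2 → ℂ} (h1 : ∀ n, Ent (hs n))
    (h2 : ∀ n, Bd ((1 / 2) ^ n / 2) (η * ((1 / 2) ^ n) ^ 3) (hs n)) :
    ∃ U : E → ℝ, ContDiff ℝ 2 U ∧ Per U ∧ (∀ x, ‖fderiv ℝ U x‖ ≤ 3 * η) ∧
      (∀ x, Tendsto (fun n => (∑ j ∈ Finset.range n, hs j (io x)).re) atTop (𝓝 (U x))) ∧
      ∀ a x, Tendsto (fun n => dv a (dv a fun z => ∑ j ∈ Finset.range n, hs j z) (io x)) atTop
        (𝓝 ((fderiv ℝ (fun y => fderiv ℝ U y a) x a : ℝ) : ℂ)) := by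
  have hσ : ∀ n : ℕ, (0 : ℝ) < (1 / 2) ^ n := fun n => by positivity
  have hη : 0 ≤ η := by
    have := (norm_nonneg _).trans (h2 0 _ (io_mem (by norm_num) 0))
    simpa using this
  have g1 : HasSum (fun n : ℕ => 2 * η * ((1 / 2 : ℝ) ^ n) ^ 2) (2 * η * (1 - (1 / 2) ^ 2)⁻¹) := by
    simp only [pow_right_comm (1 / 2 : ℝ) _ 2]
    exact (hasSum_geometric_of_lt_one (by norm_num) (by norm_num)).mul_left _
  have g2 : Summable fun n : ℕ => 16 * η * (1 / 2 : ℝ) ^ n := summable_geometric_two.mul_left _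
  have g0 : Summable fun n : ℕ => η * ((1 / 2 : ℝ) ^ n) ^ 3 := by
    simp only [pow_right_comm (1 / 2 : ℝ) _ 3]
    exact (summable_geometric_of_lt_one (by norm_num) (by norm_num)).mul_left _
  have s0 : ∀ x : E, Summable fun n => (hs n (io x)).re := fun x =>
    Summable.of_norm_bounded g0 fun n =>
      (Complex.abs_re_le_norm _).trans (h2 n _ (io_mem (half_pos (hσ n)).le x))
  have b1 := fun n => Lim_b1 (h1 n).sm (hσ n) (h2 n)
  have b2 := fun n => Lim_b2 (h1 n).sm (hσ n) (h2 n)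
  have s1 : ∀ x : E, Summable fun n => Lim_R (fderiv ℂ (hs n) (io x)) := fun x =>
    Summable.of_norm_bounded g1.summable fun n => b1 n x
  have d1 := hasFDerivAt_tsum g1.summable (fun n => Lim_d1 (h1 n).sm) b1 (s0 0)
  have d2 := hasFDerivAt_tsum g2
    (fun n x => ((Lim_sm1 (h1 n).sm).differentiable one_ne_zero x).hasFDerivAt) b2 (s1 0)
  have e1 : (fderiv ℝ fun y : E => ∑' n, (hs n (io y)).re) =
      fun x => ∑' n, Lim_R (fderiv ℂ (hs n) (io x)) := funext fun x => (d1 x).fderiv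
  refine ⟨fun y => ∑' n, (hs n (io y)).re, ?_, ⟨fun x => ?_, fun x => ?_⟩, fun x => ?_,
    fun x => ?_, fun a x => ?_⟩
  · refine (contDiff_succ_iff_fderiv (n := 1)).2 ⟨fun x => (d1 x).differentiableAt, by simp, ?_⟩
    rw [e1, contDiff_one_iff_fderiv]
    refine ⟨fun x => (d2 x).differentiableAt, ?_⟩
    rw [funext fun x => (d2 x).fderiv]
    exact continuous_tsum (fun n => (Lim_sm1 (h1 n).sm).continuous_fderiv one_ne_zero) g2 b2
  · exact tsum_congr fun n => congrArg Complex.re ((h1 n).per.1 x)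
  · exact tsum_congr fun n => congrArg Complex.re ((h1 n).per.2 x)
  · rw [e1]
    refine (tsum_of_norm_bounded g1 fun n => b1 n x).trans ?_
    norm_num
    linarith only [hη]
  · simp only [Complex.re_sum]
    exact (s0 x).hasSum.tendsto_sum_nat
  · rw [e1, Lim_app (d2 x) a]
    have s2 := (Summable.of_norm_bounded (f := fun n => fderiv ℝ
      (fun y : E => Lim_R (fderiv ℂ (hs n) (io y))) x) g2 fun n => b2 n x).hasSum
    have s3 := (Complex.ofRealCLM.hasSum ((ContinuousLinearMap.apply ℝ ℝ a).hasSum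
      ((ContinuousLinearMap.apply ℝ (E →L[ℝ] ℝ) a).hasSum s2))).tendsto_sum_nat
    refine s3.congr fun n => ?_
    rw [funext (dv_sum (fun j _ => (h1 j).sm) a), dv_sum fun j _ => sm_dv (h1 j).sm a]
    exact Finset.sum_congr rfl fun j _ => (Lim_dv (h1 j) a x).symm

end Pool.Agent.Work.MP_1ce82a_an.K
end
end

-- merged part: Pool.Agent.Work.MP_1ce82a_an.K.Kam
section
/-! The invariant curve theorem.

PLAN. `ε` from `iter` with `η / 3`, `δ = ε / C`. With `G n = dv (1, 0) (gs n)` and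
`G y = fderiv ℝ g y (1, 0)`: `‖G n (io y) - G y‖ ≤ 2 * (1 / 2) ^ n` for all `y`
(`dist_le_of_le_geometric_of_tendsto` or `dist_le_tsum_of_dist_le_of_tendsto`); `sh_io`; `G` is
continuous; so `G n (sh (U n) (io x))` tends to `G (x.1 + U x, x.2)`; uniqueness of limits.
About 120 lines. -/

set_option linter.unusedVariables false

open Set Filter Topology MeasureTheory
open scoped ContDiff ComplexConjugate

noncomputable section
namespace Pool.Agent.Work.MP_1ce82a_an.K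

open Pool.Agent.Work.MP_1ce82a_an (E addPot)

theorem kam_real {γ η : ℝ} (hγ : 0 < γ) (hη : 0 < η) : ∃ δ : ℝ, 0 < δ ∧
    ∀ (ρ : ℝ) (g : E → ℝ), Dio γ ρ → |ρ| ≤ 1 → ContDiff ℝ ∞ g → Per g →
    (∀ x, ‖iteratedFDeriv ℝ 32 g x‖ ≤ δ) →
    ∃ U : E → ℝ, ContDiff ℝ 2 U ∧ Per U ∧ (∀ x, ‖fderiv ℝ U x‖ ≤ η) ∧
      ∀ x, fderiv ℝ (fun y => fderiv ℝ U y (ρ, 1)) x (ρ, 1) = fderiv ℝ g (x.1 + U x, x.2) (1, 0) := by
  obtain ⟨C, hC, hA⟩ := app
  obtain ⟨ε, e0, e1, hI⟩ := iter hγ (div_pos hη three_pos)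
  refine ⟨ε / C, div_pos e0 hC, fun ρ g hD hρ hg hp hb => ?_⟩
  obtain ⟨gs, g1, g2, g3, g4⟩ := hA g _ hg hp hb
  rw [mul_div_cancel₀ _ hC.ne'] at g3
  obtain ⟨hs, h1, h2, h3⟩ := hI ρ gs hD hρ g1 g2 g3
  obtain ⟨U, u1, u2, u3, u4, u5⟩ := lim h1 h2
  refine ⟨U, u1, u2, fun x => (u3 x).trans_eq (by ring), fun x => ?_⟩
  have t0 : Tendsto (fun n : ℕ => ((1 : ℝ) / 2) ^ n) atTop (𝓝 0) :=
    tendsto_pow_atTop_nhds_zero_of_lt_one (by norm_num) (by norm_num)
  have b1 : ∀ (y : E) (n : ℕ), ‖dv (1, 0) (gs n) (io y) - ((fderiv ℝ g y (1, 0) : ℝ) : ℂ)‖ ≤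
      2 * (1 / 2) ^ n := fun y n => by
    have := dist_le_of_le_geometric_of_tendsto (1 / 2) 1 (by norm_num) (fun m => ?_) (g4 y) n
    · rw [← dist_eq_norm]
      exact this.trans_eq (by ring)
    rw [dist_comm, dist_eq_norm]
    have p0 : (0 : ℝ) ≤ (1 / 2) ^ m := by positivity
    refine (g3 m _ (io_mem (by positivity) y)).trans (mul_le_mul e1 ?_ (by positivity) zero_le_one)
    exact pow_le_of_le_one p0 (pow_le_one₀ (by norm_num) (by norm_num)) (by norm_num)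
  have cG : Continuous fun y : E => ((fderiv ℝ g y (1, 0) : ℝ) : ℂ) :=
    Complex.continuous_ofReal.comp ((hg.continuous_fderiv (by simp)).clm_apply continuous_const)
  have l1 := (cG.tendsto (x.1 + U x, x.2)).comp
    ((tendsto_const_nhds.add (u4 x)).prodMk_nhds tendsto_const_nhds)
  have l2 : Tendsto (fun n => dv (1, 0) (gs n) (sh (fun z => ∑ j ∈ Finset.range n, hs j z) (io x)))
      atTop (𝓝 ((fderiv ℝ g (x.1 + U x, x.2) (1, 0) : ℝ) : ℂ)) := by
    refine l1.congr_dist (squeeze_zero (fun _ => dist_nonneg) (fun n => ?_)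
      (mul_zero (2 : ℝ) ▸ t0.const_mul 2))
    rw [sh_io (Ent.sum fun j _ => h1 j), dist_comm, dist_eq_norm]
    exact b1 _ n
  refine Complex.ofReal_injective (tendsto_nhds_unique (u5 (ρ, 1) x) (l2.congr_dist
    (squeeze_zero (fun _ => dist_nonneg) (fun n => ?_) t0)))
  rw [dist_comm, dist_eq_norm]
  exact h3 n x

end Pool.Agent.Work.MP_1ce82a_an.K
end
end

-- merged part: Pool.Agent.Work.MP_1ce82a_an.K.Lag0
section
/-! A cubic correction of the kinetic energy, cut off.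

PLAN. `χ : ContDiffBump (0 : E)` with radii `1` and `2`, `I : ℝ → ℝ` smooth with `I t = 1 / (1 + t)`
for `|t| ≤ 1 / 4` (for instance `1 / (1 + t * b t)` with a bump `b` of radii `1 / 4`, `1 / 2`),
`S r z = -(1 / 2) * χ z * (z.1 ^ 2 + z.2 ^ 2) * z.2 * I (r * z.2)`, jointly smooth. The map
`(r, z) ↦ fderiv ℝ (fderiv ℝ (S r)) z` is continuous (`ContDiff.fderiv` twice), so bounded by some
`B` on `Icc 0 1 ×ˢ closedBall 0 2`, and zero for `‖z‖ > 2` (there `S r` vanishes near `z`).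
`R w = r ^ 3 * S r (r⁻¹ • w)` has second derivative `r • D² (S r) (r⁻¹ • w)` (chain rule twice);
take `r = min (1 / 4) (1 / (4 (B + 1)))`. About 200 lines. -/

set_option linter.unusedVariables false

open Set Filter Topology MeasureTheory
open scoped ContDiff ComplexConjugate

noncomputable section
namespace Pool.Agent.Work.MP_1ce82a_an.K

open Pool.Agent.Work.MP_1ce82a_an (E addPot)

theorem Lag0_par {G : Type} [NormedAddCommGroup G] [NormedSpace ℝ G] {F : ℝ → E → G}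
    (hF : ContDiff ℝ ∞ fun p : ℝ × E => F p.1 p.2) :
    ContDiff ℝ ∞ fun p : ℝ × E => fderiv ℝ (F p.1) p.2 :=
  ContDiff.fderiv (f := fun p : ℝ × E => F p.1) (m := ∞)
    (hF.comp (f := fun q : (ℝ × E) × E => (q.1.1, q.2)) (by fun_prop)) contDiff_snd (le_of_eq rfl)

theorem Lag0_scale {G : Type} [NormedAddCommGroup G] [NormedSpace ℝ G] {f : E → G}
    (hf : Differentiable ℝ f) (c a : ℝ) :
    fderiv ℝ (fun w => c • f (a • w)) = fun w => (c * a) • fderiv ℝ f (a • w) := by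
  funext w
  rw [fderiv_fun_const_smul (by fun_prop), fderiv_comp_smul, mul_smul]

/-- The cut-off function. -/
def Lag0_b : ContDiffBump (0 : E) := ⟨1, 2, one_pos, one_lt_two⟩

/-- The rescaled correction. -/
def Lag0_S (s : ℝ) (z : E) : ℝ :=
  Lag0_b z * -((z.1 ^ 2 + z.2 ^ 2) * z.2 / (2 * (1 + Real.sin s / 4 * (Lag0_b z * z.2))))

theorem Lag0_ne (s : ℝ) (z : E) : 2 * (1 + Real.sin s / 4 * (Lag0_b z * z.2)) ≠ 0 := by
  have h1 : |Lag0_b z * z.2| ≤ 2 := by
    rcases le_total 2 ‖z‖ with h | h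
    · rw [Lag0_b.zero_of_le_dist (by rwa [dist_zero_right]), zero_mul, abs_zero]
      exact zero_le_two
    · rw [abs_mul, abs_of_nonneg Lag0_b.nonneg]
      exact (mul_le_of_le_one_left (abs_nonneg _) Lag0_b.le_one).trans ((norm_snd_le z).trans h)
  have h2 : |Real.sin s * (Lag0_b z * z.2)| ≤ 2 := by
    rw [abs_mul]
    exact (mul_le_of_le_one_left (abs_nonneg _) (Real.abs_sin_le_one s)).trans h1
  exact ne_of_gt (by linarith only [h2, (abs_le.1 h2).1])

theorem Lag0_sm : ContDiff ℝ ∞ fun p : ℝ × E => Lag0_S p.1 p.2 := by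
  have h : ContDiff ℝ ∞ fun p : ℝ × E => Lag0_b p.2 := Lag0_b.contDiff.comp contDiff_snd
  have hs : ContDiff ℝ ∞ fun p : ℝ × E => Real.sin p.1 := Real.contDiff_sin.comp contDiff_fst
  have h1 : ContDiff ℝ ∞ fun p : ℝ × E => p.2.2 := contDiff_snd.snd
  have h2 : ContDiff ℝ ∞ fun p : ℝ × E => (p.2.1 ^ 2 + p.2.2 ^ 2) * p.2.2 :=
    ((contDiff_snd.fst.pow 2).add (h1.pow 2)).mul h1
  have h3 : ContDiff ℝ ∞ fun p : ℝ × E => 2 * (1 + Real.sin p.1 / 4 * (Lag0_b p.2 * p.2.2)) :=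
    contDiff_const.mul (contDiff_const.add ((hs.div_const 4).mul (h.mul h1)))
  have h4 : ContDiff ℝ ∞ fun p : ℝ × E => (p.2.1 ^ 2 + p.2.2 ^ 2) * p.2.2 /
      (2 * (1 + Real.sin p.1 / 4 * (Lag0_b p.2 * p.2.2))) := h2.div h3 fun p => Lag0_ne p.1 p.2
  unfold Lag0_S
  exact h.mul h4.neg

theorem Lag0_supp (s : ℝ) : tsupport (Lag0_S s) ⊆ Metric.closedBall 0 2 :=
  tsupport_mul_subset_left.trans Lag0_b.tsupport_eq.subset

theorem Lag0_bd : ∃ B : ℝ, 0 ≤ B ∧ ∀ s ∈ Icc (-(Real.pi / 2)) (Real.pi / 2), ∀ z : E,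
    ‖fderiv ℝ (fderiv ℝ (Lag0_S s)) z‖ ≤ B := by
  have h := (Lag0_par (F := fun s => fderiv ℝ (Lag0_S s)) (Lag0_par Lag0_sm)).continuous
  obtain ⟨B, hB⟩ := ((isCompact_Icc (a := -(Real.pi / 2)) (b := Real.pi / 2)).prod
    (isCompact_closedBall (0 : E) 2)).exists_bound_of_continuousOn h.continuousOn
  refine ⟨max B 0, le_max_right _ _, fun s hs z => ?_⟩
  by_cases hz : z ∈ Metric.closedBall (0 : E) 2
  · exact (hB (s, z) ⟨hs, hz⟩).trans (le_max_left _ _)
  · rw [fderiv_of_notMem_tsupport ℝ fun h => hz (Lag0_supp s (tsupport_fderiv_subset ℝ h)),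
      ContinuousLinearMap.opNorm_zero]
    exact le_max_right _ _

theorem lag0 : ∃ (R : E → ℝ) (r B : ℝ), 0 < r ∧ r ≤ 1 / 4 ∧ ContDiff ℝ ∞ R ∧ (∀ w, |R w| ≤ B) ∧
    (∀ w, ‖fderiv ℝ (fderiv ℝ R) w‖ ≤ 1 / 4) ∧
    ∀ w : E, ‖w‖ ≤ r → R w = -((w.1 ^ 2 + w.2 ^ 2) * w.2 / (2 * (1 + w.2))) := by
  obtain ⟨B, hB0, hB⟩ := Lag0_bd
  obtain ⟨r, hr, hr4, hrB⟩ : ∃ r : ℝ, 0 < r ∧ r ≤ 1 / 4 ∧ r * B ≤ 1 / 4 := by
    refine ⟨1 / (4 * (B + 1)), by positivity, one_div_le_one_div_of_le four_pos (by linarith), ?_⟩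
    rw [div_mul_eq_mul_div, div_le_iff₀ (by positivity)]
    linarith only []
  have hs : Real.sin (Real.arcsin (4 * r)) = 4 * r := Real.sin_arcsin (by linarith only [hr, hr4]) (by linarith only [hr4])
  have hB' := hB _ (Real.arcsin_mem_Icc (4 * r))
  generalize Real.arcsin (4 * r) = s at hs hB'
  have hf : ContDiff ℝ ∞ (Lag0_S s) :=
    Lag0_sm.comp (f := fun z : E => (s, z)) (by fun_prop)
  have hf' : ContDiff ℝ ∞ (fderiv ℝ (Lag0_S s)) := hf.fderiv_right (le_of_eq rfl)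
  obtain ⟨C, hC⟩ := hf.continuous.bounded_above_of_compact_support
    ((isCompact_closedBall (0 : E) 2).of_isClosed_subset (isClosed_tsupport _) (Lag0_supp s))
  refine ⟨fun w => r ^ 3 • Lag0_S s (r⁻¹ • w), r, r ^ 3 * C, hr, hr4,
    (hf.comp (contDiff_id.const_smul r⁻¹)).const_smul (r ^ 3), fun w => ?_, fun w => ?_,
    fun w hw => ?_⟩
  · beta_reduce
    rw [smul_eq_mul, abs_mul, abs_of_pos (pow_pos hr 3)]
    exact mul_le_mul_of_nonneg_left (hC _) (pow_pos hr 3).le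
  · rw [Lag0_scale (hf.differentiable (by simp)), Lag0_scale (hf'.differentiable (by simp)),
      show r ^ 3 * r⁻¹ * r⁻¹ = r by field_simp]
    refine (ContinuousLinearMap.opNorm_smul_le _ _).trans ?_
    rw [Real.norm_of_nonneg hr.le]
    exact (mul_le_mul_of_nonneg_left (hB' _) hr.le).trans hrB
  · have h1 : Lag0_b (r⁻¹ • w) = 1 := Lag0_b.one_of_mem_closedBall (by
      rw [mem_closedBall_zero_iff, norm_smul, Real.norm_of_nonneg (inv_pos.2 hr).le,
        inv_mul_le_iff₀ hr]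
      exact hw.trans_eq (mul_one r).symm)
    have h2 : 0 < 1 + w.2 := by linarith only [hr, hr4, hw, (abs_le.1 ((norm_snd_le w).trans hw)).1]
    have h3 : 4 * r / 4 * (1 * (r⁻¹ * w.2)) = w.2 := by field_simp
    simp only [Lag0_S, h1, hs, Prod.smul_fst, Prod.smul_snd, smul_eq_mul, h3]
    field_simp

end Pool.Agent.Work.MP_1ce82a_an.K
end
end

-- merged part: Pool.Agent.Work.MP_1ce82a_an.K.Lag
section
/-! The kinetic energy.

PLAN. `l v = (v.1 ^ 2 + (v.2 - 1) ^ 2) / 2 + R (v - (0, 1))`, so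
`l v = (v.1 ^ 2 + (v.2 - 1) ^ 2) / (2 * v.2)` for `‖v - (0, 1)‖ ≤ r₀`; `r = r₀ / 4`, then
`V = vel p e` satisfies `‖V - (0, 1)‖ < r₀`. With `q = e - e ^ 2 / 2 - p ^ 2 / 2`, near `V`
`l v + e - p v.1 - q v.2 = ((v.1 - p v.2) ^ 2 + ((1 - e) v.2 - 1) ^ 2) / (2 v.2)`, which is
nonnegative and vanishes at `V`; so `V` is a local minimum of `ψ v = l v + e - p v.1 - q v.2` and
`fderiv ℝ ψ V = 0` (`IsLocalMin.fderiv_eq_zero`). Hence
`ψ (V + h) = (h.1 ^ 2 + h.2 ^ 2) / 2 + (R (W + h) - R W - fderiv ℝ R W h)` with `W = V - (0, 1)`, and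
the bracket is at most `‖h‖ ^ 2 / 4` in absolute value (mean value inequality twice,
`Convex.norm_image_sub_le_of_norm_fderiv_le`), `‖h‖ ^ 2 ≤ h.1 ^ 2 + h.2 ^ 2`. The second
derivative of `l` on `(w, w)` is `w.1 ^ 2 + w.2 ^ 2 + D² R (w, w)`. `tonelli`: the differential of
a translation is the identity; `D2 L z (0, w) (0, w) = fderiv ℝ (fderiv ℝ l) z.2 w w` by the chain
rule for `l ∘ Prod.snd`. About 250 lines. -/

set_option linter.unusedVariables false

open Set Filter Topology MeasureTheory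
open scoped ContDiff ComplexConjugate

noncomputable section
namespace Pool.Agent.Work.MP_1ce82a_an.K

open Pool.Agent.Work.MP_1ce82a_an (E addPot)

theorem Lag_norm (w : E) : ‖w‖ ^ 2 ≤ w.1 ^ 2 + w.2 ^ 2 := by
  rw [Prod.norm_def, Real.norm_eq_abs, Real.norm_eq_abs]
  rcases le_total |w.1| |w.2| with h | h
  · rw [max_eq_right h, sq_abs]
    linarith only [sq_nonneg w.1, sq_nonneg w.1]
  · rw [max_eq_left h, sq_abs]
    nlinarith [sq_nonneg w.2]

theorem Lag_taylor {R : E → ℝ} (d1 : Differentiable ℝ R) (d2 : Differentiable ℝ (fderiv ℝ R))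
    (h2 : ∀ w, ‖fderiv ℝ (fderiv ℝ R) w‖ ≤ 1 / 4) (x y : E) :
    |R y - R x - fderiv ℝ R x (y - x)| ≤ ‖y - x‖ ^ 2 / 4 := by
  have h := (convex_closedBall x ‖y - x‖).norm_image_sub_le_of_norm_fderiv_le' (𝕜 := ℝ) (f := R)
    (C := 1 / 4 * ‖y - x‖) (φ := fderiv ℝ R x) (x := x) (y := y) (fun z _ => d1 z)
    (fun z hz => ((convex_univ.norm_image_sub_le_of_norm_fderiv_le (𝕜 := ℝ) (fun z _ => d2 z)
      (fun z _ => h2 z) (mem_univ x) (mem_univ z)).trans
      (mul_le_mul_of_nonneg_left (mem_closedBall_iff_norm.1 hz) (by norm_num))))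
    (Metric.mem_closedBall_self (norm_nonneg _)) (mem_closedBall_iff_norm.2 le_rfl)
  rw [Real.norm_eq_abs] at h
  linarith only [h]

theorem lag : ∃ (l : E → ℝ) (r : ℝ), 0 < r ∧ r ≤ 1 / 2 ∧ ContDiff ℝ ∞ l ∧
    (∀ v w : E, w ≠ 0 → 0 < fderiv ℝ (fderiv ℝ l) v w w) ∧
    Tendsto (fun v : E => l v / ‖v‖) (cocompact E) atTop ∧ LagP l r := by
  obtain ⟨R, r, B, r0, r1, hR, hB, h2, hr⟩ := lag0
  have d1 : Differentiable ℝ R := hR.differentiable (by simp)
  have d2 : Differentiable ℝ (fderiv ℝ R) :=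
    (hR.fderiv_right (m := ∞) le_rfl).differentiable (by simp)
  let l : E → ℝ := fun v => (v.1 ^ 2 + (v.2 - 1) ^ 2) / 2 + R (v - (0, 1))
  have dl : ∀ v : E, HasFDerivAt l (v.1 • ContinuousLinearMap.fst ℝ ℝ ℝ +
      (v.2 - 1) • ContinuousLinearMap.snd ℝ ℝ ℝ + fderiv ℝ R (v - (0, 1))) v := fun v => by
    have a := (d1 (v - (0, 1))).hasFDerivAt.comp v ((hasFDerivAt_id v).sub_const ((0, 1) : E))
    have b := (((hasFDerivAt_fst (𝕜 := ℝ) (p := v)).pow 2).add
      (((hasFDerivAt_snd (𝕜 := ℝ) (p := v)).sub_const 1).pow 2)).const_mul (1 / 2 : ℝ)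
    refine ((b.add a).congr_fderiv ?_).congr_of_eventuallyEq (Eventually.of_forall fun v => ?_)
    · ext <;> simp
    · simp only [l, Pi.add_apply, Function.comp_apply, id]
      ring
  refine ⟨l, r / 4, by positivity, by linarith only [r0, r1], ?_, fun v w hw => ?_, ?_, fun p e hp he => ?_⟩
  · exact (((contDiff_fst.pow 2).add ((contDiff_snd.sub contDiff_const).pow 2)).div_const 2).add
      (hR.comp (contDiff_id.sub contDiff_const))
  · rw [funext fun v => (dl v).fderiv]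
    have a := (d2 (v - (0, 1))).hasFDerivAt.comp v ((hasFDerivAt_id v).sub_const ((0, 1) : E))
    have b := ((hasFDerivAt_fst (𝕜 := ℝ) (p := v)).smul_const
      (ContinuousLinearMap.fst ℝ ℝ ℝ)).add (((hasFDerivAt_snd (𝕜 := ℝ) (p := v)).sub_const
        1).smul_const (ContinuousLinearMap.snd ℝ ℝ ℝ))
    have c : fderiv ℝ (fun v : E => v.1 • ContinuousLinearMap.fst ℝ ℝ ℝ +
        (v.2 - 1) • ContinuousLinearMap.snd ℝ ℝ ℝ + fderiv ℝ R (v - (0, 1))) v = _ :=
      (b.add a).fderiv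
    rw [c]
    have k1 := (fderiv ℝ (fderiv ℝ R) (v - (0, 1))).le_opNorm₂ w w
    have k2 := h2 (v - (0, 1))
    have k3 := Lag_norm w
    have k4 : 0 < ‖w‖ := norm_pos_iff.2 hw
    have k5 := neg_abs_le (fderiv ℝ (fderiv ℝ R) (v - (0, 1)) w w)
    rw [Real.norm_eq_abs] at k1
    have k6 : ‖fderiv ℝ (fderiv ℝ R) (v - (0, 1))‖ * ‖w‖ * ‖w‖ ≤ 1 / 4 * ‖w‖ * ‖w‖ := by gcongr
    simp only [add_apply, ContinuousLinearMap.smulRight_apply,
      ContinuousLinearMap.coe_fst', ContinuousLinearMap.coe_snd', smul_apply,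
      smul_eq_mul, ContinuousLinearMap.comp_id]
    linarith only [k1, k3, k5, k6, k4, mul_pos_of_neg_of_neg (Mathlib.Tactic.Linarith.sub_neg_of_lt k4) (Mathlib.Tactic.Linarith.sub_neg_of_lt k4)]
  · have B0 : 0 ≤ B := (abs_nonneg _).trans (hB 0)
    have t1 : Tendsto (fun v : E => ‖v‖ / 2 + (-1 - B)) (cocompact E) atTop :=
      tendsto_atTop_add_const_right _ _ ((tendsto_norm_cocompact_atTop (E := E)).atTop_div_const two_pos)
    refine tendsto_atTop_mono' _ ?_ t1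
    filter_upwards [(tendsto_norm_cocompact_atTop (E := E)).eventually_ge_atTop 1] with v hv
    rw [le_div_iff₀ (by linarith only [r0, r1, hv])]
    have k1 := Lag_norm v
    have k2 : v.2 ≤ ‖v‖ := (le_abs_self _).trans (norm_snd_le v)
    have k3 := (abs_le.1 (hB (v - (0, 1)))).1
    simp only [l]
    (refine le_of_not_gt fun h_nl => ?_; linarith only [h_nl, r1, k1, k2, k3, r0, B0, hv, mul_pos_of_neg_of_neg (Mathlib.Tactic.Linarith.sub_neg_of_lt r0) (Mathlib.Tactic.Linarith.sub_neg_of_lt r0), mul_nonneg_of_nonpos_of_nonpos (le_of_lt (Mathlib.Tactic.Linarith.sub_neg_of_lt r0)) (Mathlib.Tactic.Linarith.sub_nonpos_of_le r1), mul_pos_of_neg_of_neg (Mathlib.Tactic.Linarith.sub_neg_of_lt r0) (Mathlib.Tactic.Linarith.sub_neg_of_lt h_nl), mul_nonneg_of_nonpos_of_nonpos (Mathlib.Tactic.Linarith.sub_nonpos_of_le r1) (le_of_lt (Mathlib.Tactic.Linarith.sub_neg_of_lt h_nl)), mul_nonneg_of_nonpos_of_nonpos (Mathlib.Tactic.Linarith.sub_nonpos_of_le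 B0) (Mathlib.Tactic.Linarith.sub_nonpos_of_le hv)])
  · obtain ⟨e1, e2⟩ := abs_le.1 he
    have e0 : 0 < 1 - e := by linarith only [r0, r1, e2]
    set V := vel p e with hV
    set q := e - e ^ 2 / 2 - p ^ 2 / 2 with hq
    have hW : ‖V - (0, 1)‖ < r := by
      have e3 : V - (0, 1) = (p / (1 - e), e / (1 - e)) := by
        ext
        · simp [hV, vel]
        · simp only [hV, vel, Prod.snd_sub]
          field_simp
          ring
      rw [e3, Prod.norm_def, max_lt_iff, Real.norm_eq_abs, Real.norm_eq_abs, abs_div, abs_div,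
        abs_of_pos e0, div_lt_iff₀ e0, div_lt_iff₀ e0]
      constructor <;> linarith only [hp, r0, r1, e2, he, mul_pos_of_neg_of_neg (Mathlib.Tactic.Linarith.sub_neg_of_lt r0) (Mathlib.Tactic.Linarith.sub_neg_of_lt r0), mul_nonneg_of_nonpos_of_nonpos (le_of_lt (Mathlib.Tactic.Linarith.sub_neg_of_lt r0)) (Mathlib.Tactic.Linarith.sub_nonpos_of_le r1), mul_nonneg_of_nonpos_of_nonpos (le_of_lt (Mathlib.Tactic.Linarith.sub_neg_of_lt r0)) (Mathlib.Tactic.Linarith.sub_nonpos_of_le e2)]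
    have key : ∀ v : E, ‖v - (0, 1)‖ < r → 0 < v.2 ∧ l v + e - p * v.1 - q * v.2 =
        ((v.1 - p * v.2) ^ 2 + ((1 - e) * v.2 - 1) ^ 2) / (2 * v.2) := fun v hv => by
      have k1 : |v.2 - 1| < r := (norm_snd_le (v - (0, 1))).trans_lt hv
      have k2 : 0 < v.2 := by linarith only [r0, r1, k1, (abs_lt.1 k1).1]
      refine ⟨k2, ?_⟩
      simp only [l, hr _ hv.le, Prod.fst_sub, Prod.snd_sub, sub_zero, add_sub_cancel, hq]
      field_simp
      ring
    have hV0 : l V + e - p * V.1 - q * V.2 = 0 := by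
      have k1 : V.1 - p * V.2 = 0 := by
        simp only [hV, vel]
        ring
      have k2 : (1 - e) * V.2 - 1 = 0 := by
        simp only [hV, vel]
        field_simp
        ring
      rw [(key V hW).2, k1, k2]
      simp
    refine ⟨fun v => ?_, by linarith only [hV0]⟩
    have hmin : IsLocalMin (fun v : E => l v + e - p * v.1 - q * v.2) V := by
      have : ∀ᶠ v in 𝓝 V, ‖v - ((0, 1) : E)‖ < r :=
        (continuous_id.sub continuous_const).norm.continuousAt.eventually_lt continuousAt_const hW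
      filter_upwards [this] with v hv
      obtain ⟨k1, k2⟩ := key v hv
      rw [hV0, k2]
      positivity
    have hd := hmin.hasFDerivAt_eq_zero ((((dl V).add_const e).sub
      ((hasFDerivAt_fst (𝕜 := ℝ) (p := V)).const_mul p)).sub
      ((hasFDerivAt_snd (𝕜 := ℝ) (p := V)).const_mul q))
    have k1 := DFunLike.congr_fun hd (v - V)
    simp only [add_apply, sub_apply,
      ContinuousLinearMap.coe_fst', ContinuousLinearMap.coe_snd', smul_apply,
      smul_eq_mul, zero_apply, Prod.fst_sub, Prod.snd_sub] at k1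
    have k2 := (abs_le.1 (Lag_taylor d1 d2 h2 (V - (0, 1)) (v - (0, 1)))).1
    rw [sub_sub_sub_cancel_right] at k2
    have k3 := Lag_norm (v - V)
    simp only [Prod.fst_sub, Prod.snd_sub] at k3
    simp only [l] at hV0 ⊢
    linarith only [hV0, k1, k2, k3]

theorem tonelli {G : Type} [Group G] [MulAction G E] {τ : G → ℤ × ℤ} (hτ : Std τ) {l : E → ℝ}
    (hl : ContDiff ℝ ∞ l) (hc : ∀ v w : E, w ≠ 0 → 0 < fderiv ℝ (fderiv ℝ l) v w w)
    (hs : Tendsto (fun v : E => l v / ‖v‖) (cocompact E) atTop) :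
    S.Tonelli G fun z : E × E => l z.2 := by
  have d1 : Differentiable ℝ l := hl.differentiable (by simp)
  have d2 : Differentiable ℝ (fderiv ℝ l) :=
    (hl.fderiv_right (m := ∞) le_rfl).differentiable (by simp)
  refine ⟨(contDiff_infty.1 hl 2).comp contDiff_snd, fun g x v => ?_,
    fun z w hw => ?_, fun _ => hs⟩
  · simp only [S.dk, hτ.act, fderiv_add_const, fderiv_fun_id, ContinuousLinearMap.id_apply]
  · have e : fderiv ℝ (fun z : E × E => l z.2) =
        fun z => (fderiv ℝ l z.2).comp (ContinuousLinearMap.snd ℝ E E) :=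
      funext fun z => ((d1 z.2).hasFDerivAt.comp z hasFDerivAt_snd).fderiv
    have c : fderiv ℝ (fun z : E × E => (fderiv ℝ l z.2).comp (ContinuousLinearMap.snd ℝ E E)) z
        = _ := (((d2 z.2).hasFDerivAt.comp z hasFDerivAt_snd).clm_comp
          (hasFDerivAt_const (ContinuousLinearMap.snd ℝ E E) z)).fderiv
    rw [Pool.Agent.Work.MP_1ce82a_an.D2, e, c]
    simpa using hc z.2 w hw

end Pool.Agent.Work.MP_1ce82a_an.K
end
end

-- merged part: Pool.Agent.Work.MP_1ce82a_an.K.HJa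
section
/-! The inverse of the change of variables.

PLAN. `Ψ x = (x.1 + U x, x.2)` has the derivative `a ↦ (a.1 + fderiv ℝ U x a, a.2)`, with
`‖a‖ ≤ 2 * ‖dΨ a‖`, so it is injective, hence a linear equivalence
(`LinearEquiv.ofInjectiveEndo`, `toContinuousLinearEquiv`). `Ψ` is injective
(`s ↦ s + U (s, y)` is strictly increasing, or the mean value inequality for `U`) and surjective
(intermediate value theorem: `|U (s, y) - U (0, y)| ≤ |s| / 2`), open
(`HasStrictFDerivAt.map_nhds_eq_of_equiv`, `isOpenMap_iff_nhds_le`); build the homeomorphism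
(`Equiv.toHomeomorphOfContinuousOpen`) and use `Homeomorph.contDiff_symm`. The derivative
statement follows from the chain rule for `Φ ∘ Ψ = id`. About 200 lines. -/

set_option linter.unusedVariables false

open Set Filter Topology MeasureTheory
open scoped ContDiff ComplexConjugate

noncomputable section
namespace Pool.Agent.Work.MP_1ce82a_an.K

open Pool.Agent.Work.MP_1ce82a_an (E addPot)

theorem inv_map {U : E → ℝ} (hU : ContDiff ℝ 1 U) (hp : Per U) (hd : ∀ x, ‖fderiv ℝ U x‖ ≤ 1 / 2) :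
    ∃ Φ : E → E, ContDiff ℝ 1 Φ ∧ (∀ x : E, Φ (x.1 + U x, x.2) = x) ∧
      (∀ y : E, ((Φ y).1 + U (Φ y), (Φ y).2) = y) ∧
      (∀ y, Φ (y + (1, 0)) = Φ y + (1, 0)) ∧ (∀ y, Φ (y + (0, 1)) = Φ y + (0, 1)) ∧
      (∀ y, ‖fderiv ℝ Φ y‖ ≤ 2) ∧
      ∀ y a : E, fderiv ℝ Φ y (a.1 + fderiv ℝ U (Φ y) a, a.2) = a := by
  have hD := hU.differentiable one_ne_zero
  let D : E → E →L[ℝ] E := fun x =>
    (ContinuousLinearMap.fst ℝ ℝ ℝ + fderiv ℝ U x).prod (ContinuousLinearMap.snd ℝ ℝ ℝ)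
  have h1 : ∀ x a, ‖a‖ ≤ 2 * ‖D x a‖ := fun x a => by
    have e : a - D x a = (-fderiv ℝ U x a, 0) := by
      ext <;> simp [D]
    have k := norm_sub_norm_le a (D x a)
    rw [e, Prod.norm_mk _ 0, norm_neg, norm_zero, max_eq_left (norm_nonneg _)] at k
    linarith only [k, hd, (fderiv ℝ U x).le_of_opNorm_le (hd x) a]
  have h2 : ∀ x, Function.Injective (D x) := fun x => (injective_iff_map_eq_zero _).2 fun a e =>
    norm_le_zero_iff.1 (by simpa [e] using h1 x a)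
  let D' : E → E ≃L[ℝ] E := fun x =>
    (LinearEquiv.ofInjectiveEndo (D x).toLinearMap (h2 x)).toContinuousLinearEquiv
  have h3 : ∀ x, HasFDerivAt (fun x : E => (x.1 + U x, x.2)) (D x) x := fun x =>
    (hasFDerivAt_fst.add (hD x).hasFDerivAt).prodMk hasFDerivAt_snd
  have h4 : ApproximatesLinearOn (fun x : E => (x.1 + U x, x.2))
      (ContinuousLinearEquiv.refl ℝ E : E →L[ℝ] E) univ (1 / 2) := fun x _ y _ => by
    have e : (x.1 + U x, x.2) - (y.1 + U y, y.2) -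
        (ContinuousLinearEquiv.refl ℝ E : E →L[ℝ] E) (x - y) = (U x - U y, 0) := by
      ext <;> simp
      ring
    rw [e, Prod.norm_mk, norm_zero, max_eq_left (norm_nonneg _)]
    exact convex_univ.norm_image_sub_le_of_norm_fderiv_le (fun z _ => hD z) (fun z _ => hd z)
      (mem_univ y) (mem_univ x)
  obtain ⟨Ψ, hΨ⟩ : ∃ Ψ : E ≃ₜ E, ⇑Ψ = fun x : E => (x.1 + U x, x.2) :=
    ⟨h4.toHomeomorph _ (.inr (by simp; norm_num)), rfl⟩
  have h5 : ContDiff ℝ 1 Ψ.symm := Ψ.contDiff_symm (f₀' := D') (fun x => hΨ ▸ h3 x)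
    (hΨ ▸ (contDiff_fst.add hU).prodMk contDiff_snd)
  have h6 : ∀ y a, fderiv ℝ Ψ.symm y (D (Ψ.symm y) a) = a := fun y a => by
    have k : HasFDerivAt Ψ.symm (fderiv ℝ Ψ.symm y) (Ψ (Ψ.symm y)) := by
      rw [Ψ.apply_symm_apply]
      exact (h5.differentiable one_ne_zero y).hasFDerivAt
    have k' := k.comp (Ψ.symm y) (hΨ ▸ h3 (Ψ.symm y) : HasFDerivAt Ψ _ _)
    rw [Ψ.symm_comp_self] at k'
    exact DFunLike.congr_fun (k'.unique (hasFDerivAt_id _)) a
  have h7 : ∀ v : E, (∀ x, U (x + v) = U x) → ∀ y, Ψ.symm (y + v) = Ψ.symm y + v := fun v h y => by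
    obtain ⟨x, rfl⟩ := Ψ.surjective y
    rw [Ψ.symm_apply_apply, Ψ.symm_apply_eq, hΨ]
    ext <;> simp [h]
    ring
  refine ⟨Ψ.symm, h5, fun x => ?_, fun y => ?_, h7 _ hp.1, h7 _ hp.2, fun y => ?_, h6⟩
  · exact (congrArg _ (congrFun hΨ x).symm).trans (Ψ.symm_apply_apply x)
  · exact (congrFun hΨ _).symm.trans (Ψ.apply_symm_apply y)
  · refine ContinuousLinearMap.opNorm_le_bound _ zero_le_two fun b => ?_
    obtain ⟨a, rfl⟩ := (D' (Ψ.symm y)).surjective b
    exact (congrArg _ (h6 y a)).trans_le (h1 _ a)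

end Pool.Agent.Work.MP_1ce82a_an.K
end
end

-- merged part: Pool.Agent.Work.MP_1ce82a_an.K.HJb
section
/-! The solution of the Hamilton-Jacobi equation.

PLAN. `e x = En + f x`, `g = e - e ^ 2 / 2`, `Φ` from `inv_map`, `p y = ρ + fderiv ℝ U (Φ y) (ρ, 1)`
(class `C¹`, periodic, `|p| ≤ r`). Chain rule: `fderiv ℝ p y (p y, 1) = fderiv ℝ g y (1, 0)`.
`prim`: the form `ω y = p y • fst + (g y - p y ^ 2 / 2) • snd` has a symmetric derivative, so
`Convex.exists_forall_hasFDerivAt_of_fderiv_symmetric` on `univ` gives `S`; `S (x + k) - S x` has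
zero derivative (`is_const_of_fderiv_eq_zero`). `V y = vel (p y) (e y)`, `Θ y = (Φ y).1 - ρ * y.2`,
`Ψ x = (x.1 + U x, x.2)`, `lam x = 1 - e (Ψ x)`; `(1 - e y) • V y = (p y, 1)`. About 300 lines. -/

set_option linter.unusedVariables false

open Set Filter Topology MeasureTheory
open scoped ContDiff ComplexConjugate

noncomputable section
namespace Pool.Agent.Work.MP_1ce82a_an.K

open Pool.Agent.Work.MP_1ce82a_an (E addPot)

theorem HJb_lin (L : E →L[ℝ] ℝ) (v : E) : L v = v.1 * L (1, 0) + v.2 * L (0, 1) := by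
  have : v = v.1 • ((1, 0) : E) + v.2 • ((0, 1) : E) := by simp
  rw [← smul_eq_mul, ← smul_eq_mul, ← map_smul, ← map_smul, ← map_add, ← this]

theorem HJb_per {S : E → ℝ} {η : E → E →L[ℝ] ℝ} (h : ∀ a, HasFDerivAt S (η a) a) {k : E}
    (hk : ∀ a, η (a + k) = η a) (x : E) : S (x + k) = S x + (S (0 + k) - S 0) := by
  have d : ∀ a, HasFDerivAt (fun x => S (x + k) - S x) (0 : E →L[ℝ] ℝ) a := fun a => by
    have := ((hasFDerivAt_comp_add_right k).2 (h (a + k))).sub (h a)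
    rwa [hk, sub_self] at this
  have := is_const_of_fderiv_eq_zero (fun a => (d a).differentiableAt) (fun a => (d a).fderiv) x 0
  linarith only [this]

theorem HJb_fper {U : E → ℝ} {k : E} (h : ∀ x, U (x + k) = U x) (x : E) :
    fderiv ℝ U (x + k) = fderiv ℝ U x := by
  rw [← fderiv_comp_add_right, funext h]

theorem prim {p g : E → ℝ} (hp : ContDiff ℝ 1 p) (hg : ContDiff ℝ 1 g) (pp : Per p) (pg : Per g)
    (h : ∀ y, fderiv ℝ p y (p y, 1) = fderiv ℝ g y (1, 0)) :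
    ∃ (S : E → ℝ) (c : ℝ × ℝ), ContDiff ℝ 1 S ∧ (∀ x, S (x + (1, 0)) = S x + c.1) ∧
      (∀ x, S (x + (0, 1)) = S x + c.2) ∧
      ∀ x v : E, fderiv ℝ S x v = p x * v.1 + (g x - p x ^ 2 / 2) * v.2 := by
  obtain ⟨η, hη⟩ : ∃ η : E → E →L[ℝ] ℝ, η = fun y => p y • ContinuousLinearMap.fst ℝ ℝ ℝ +
      (g y - p y ^ 2 / 2) • ContinuousLinearMap.snd ℝ ℝ ℝ := ⟨_, rfl⟩
  have sη : ContDiff ℝ 1 η := hη ▸ (hp.smul contDiff_const).add
    ((hg.sub ((hp.pow 2).div_const 2)).smul contDiff_const)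
  obtain ⟨S, hS⟩ := convex_univ.exists_forall_hasFDerivAt_of_fderiv_symmetric isOpen_univ
    (sη.differentiable one_ne_zero).differentiableOn fun a _ x y => by
      have d1 := (hp.differentiable one_ne_zero a).hasFDerivAt
      have d2 := (hg.differentiable one_ne_zero a).hasFDerivAt
      have d3 : HasFDerivAt (fun y => g y - p y ^ 2 / 2) (fderiv ℝ g a - p a • fderiv ℝ p a) a := by
        have := d2.sub ((d1.mul d1).const_mul (1 / 2))
        refine (this.congr_fderiv ?_).congr_of_eventuallyEq (Eventually.of_forall fun y => ?_)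
        · rw [← add_smul, smul_smul]
          ring_nf
        · simp only [Pi.sub_apply, Pi.mul_apply]
          ring
      have d := (d1.smul_const (ContinuousLinearMap.fst ℝ ℝ ℝ)).fun_add
        (d3.smul_const (ContinuousLinearMap.snd ℝ ℝ ℝ))
      have k := h a
      rw [HJb_lin] at k
      rw [hη, d.fderiv]
      simp only [add_apply, ContinuousLinearMap.smulRight_apply,
        smul_apply, sub_apply, smul_eq_mul,
        ContinuousLinearMap.coe_fst', ContinuousLinearMap.coe_snd']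
      rw [HJb_lin _ x, HJb_lin (fderiv ℝ g a) x, HJb_lin _ y, HJb_lin (fderiv ℝ g a) y, ← k]
      ring
  have hS' := fun a => hS a (mem_univ a)
  have e : fderiv ℝ S = η := funext fun a => (hS' a).fderiv
  refine ⟨S, (S (0 + (1, 0)) - S 0, S (0 + (0, 1)) - S 0),
    contDiff_one_iff_fderiv.2 ⟨fun a => (hS' a).differentiableAt, e ▸ sη.continuous⟩,
    HJb_per hS' fun a => ?_, HJb_per hS' fun a => ?_, fun x v => ?_⟩
  · simp only [hη, pp.1, pg.1]
  · simp only [hη, pp.2, pg.2]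
  · simp [e, hη]

theorem hj {l : E → ℝ} {r : ℝ} (hr : r ≤ 1 / 2) (hl : LagP l r) {f U : E → ℝ} {En ρ : ℝ}
    (hf : ContDiff ℝ ∞ f) (pf : Per f) (bf : ∀ x, |f x| ≤ r / 2) (hE : |En| ≤ r / 2)
    (hρ : |ρ| ≤ r / 2) (hU : ContDiff ℝ 2 U) (pU : Per U) (dU : ∀ x, ‖fderiv ℝ U x‖ ≤ r / 2)
    (h : ∀ x, fderiv ℝ (fun y => fderiv ℝ U y (ρ, 1)) x (ρ, 1) =
      fderiv ℝ (fun y => (En + f y) - (En + f y) ^ 2 / 2) (x.1 + U x, x.2) (1, 0)) :
    ∃ c, Nonempty (Dat (addPot (fun z => l z.2) f) En ρ c) := by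
  have r0 : 0 ≤ r / 2 := (abs_nonneg _).trans hE
  have hU1 : ContDiff ℝ 1 U := hU.of_le one_le_two
  obtain ⟨Φ, sΦ, Φ1, Φ2, Φ3, Φ4, Φ5, Φ6⟩ := inv_map hU1 pU fun x => (dU x).trans (by linarith only [hr])
  have sW : ContDiff ℝ 1 fun y => fderiv ℝ U y (ρ, 1) :=
    (hU.fderiv_right (m := 1) (by norm_num)).clm_apply contDiff_const
  have dΦ := fun y => (sΦ.differentiable one_ne_zero y).hasFDerivAt
  obtain ⟨p, hp⟩ : ∃ p : E → ℝ, p = fun y => ρ + fderiv ℝ U (Φ y) (ρ, 1) := ⟨_, rfl⟩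
  have key : ∀ y, fderiv ℝ Φ y (p y, 1) = (ρ, 1) := fun y => hp ▸ Φ6 y (ρ, 1)
  have bp : ∀ y, |p y| ≤ r := fun y => by
    have n1 : ‖((ρ, 1) : E)‖ ≤ 1 := by
      rw [Prod.norm_mk, Real.norm_eq_abs, norm_one]
      exact max_le (by linarith only [hr, hρ]) le_rfl
    have := (fderiv ℝ U (Φ y)).le_of_opNorm_le_of_le (dU _) n1
    rw [Real.norm_eq_abs] at this
    rw [hp]
    linarith only [hρ, this, abs_add_le ρ (fderiv ℝ U (Φ y) (ρ, 1))]
  have be : ∀ y, |En + f y| ≤ r := fun y => by linarith only [hE, bf, abs_add_le En (f y), bf y]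
  have se : ContDiff ℝ 1 fun y => En + f y := contDiff_const.add (hf.of_le (by simp))
  have ne : ∀ y, 1 - (En + f y) ≠ 0 := fun y => by linarith only [hr, be, (abs_le.1 (be y)).2]
  obtain ⟨S, c, sS, S1, S2, dS⟩ := prim (p := p) (g := fun y => (En + f y) - (En + f y) ^ 2 / 2)
    (hp ▸ contDiff_const.add (sW.comp sΦ)) (se.sub ((se.pow 2).div_const 2))
    ⟨fun x => by simp only [hp, Φ3, HJb_fper pU.1], fun x => by simp only [hp, Φ4, HJb_fper pU.2]⟩
    ⟨fun x => by simp only [pf.1], fun x => by simp only [pf.2]⟩ fun y => by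
      have d : HasFDerivAt p ((fderiv ℝ (fun y => fderiv ℝ U y (ρ, 1)) (Φ y)).comp
          (fderiv ℝ Φ y)) y :=
        hp ▸ ((sW.differentiable one_ne_zero (Φ y)).hasFDerivAt.comp y (dΦ y)).const_add ρ
      rw [d.fderiv, ContinuousLinearMap.comp_apply, key, h, Φ2]
  have dΘ : ∀ x v, fderiv ℝ (fun y : E => (Φ y).1 - ρ * y.2) x v =
      (fderiv ℝ Φ x v).1 - ρ * v.2 := fun x v => by
    rw [((dΦ x).fst.fun_sub (hasFDerivAt_snd.const_mul ρ)).fderiv]
    rfl
  have vs : ∀ y, (1 - (En + f y)) • vel (p y) (En + f y) = (p y, 1) := fun y => by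
    have := ne y
    simp only [vel, Prod.smul_mk, smul_eq_mul, mul_div_cancel₀ _ this]
  refine ⟨c, ⟨{
    S := S
    Θ := fun y => (Φ y).1 - ρ * y.2
    V := fun y => vel (p y) (En + f y)
    Ψ := fun x => (x.1 + U x, x.2)
    lam := fun x => 1 - (En + f (x.1 + U x, x.2))
    hS := sS
    hΘ := sΦ.fst.sub (contDiff_const.mul contDiff_snd)
    S1 := S1
    S2 := S2
    T1 := fun x => by
      simp only [Φ3, Prod.fst_add, Prod.snd_add]
      ring
    T2 := fun x => by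
      simp only [Φ4, Prod.fst_add, Prod.snd_add]
      ring
    dT := fun x => ContinuousLinearMap.opNorm_le_bound _ (by norm_num) fun v => by
      have a1 := (norm_fst_le (fderiv ℝ Φ x v)).trans ((fderiv ℝ Φ x).le_of_opNorm_le (Φ5 x) v)
      have a2 : ‖ρ * v.2‖ ≤ 1 * ‖v‖ := by
        rw [norm_mul]
        exact mul_le_mul (by rw [Real.norm_eq_abs]; linarith only [hr, hρ]) (norm_snd_le v) (norm_nonneg _)
          zero_le_one
      rw [dΘ]
      linarith only [a1, a2, norm_sub_le (fderiv ℝ Φ x v).1 (ρ * v.2)]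
    dTV := fun x => by
      have : fderiv ℝ (fun y : E => (Φ y).1 - ρ * y.2) x
          ((1 - (En + f x)) • vel (p x) (En + f x)) = 0 := by
        rw [vs, dΘ, key, mul_one, sub_self]
      rw [map_smul, smul_eq_zero] at this
      exact this.resolve_left (ne x)
    sub := fun x v => by
      have := (hl _ _ (bp x) (be x)).1 v
      simp only [dS, addPot]
      linarith only [this]
    cal := fun x => by
      have := (hl _ _ (bp x) (be x)).2
      simp only [dS, addPot]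
      linarith only [this]
    cont := (continuous_fst.add hU.continuous).prodMk continuous_snd
    surj := fun y => ⟨Φ y, Φ2 y⟩
    P1 := fun x => by
      simp only [pU.1, Prod.fst_add, Prod.snd_add, Prod.mk_add_mk, add_right_comm]
    P2 := fun x => by
      simp only [pU.2, Prod.fst_add, Prod.snd_add, Prod.mk_add_mk, add_zero]
    l1 := fun x => by linarith only [hr, be, (abs_le.1 (be (x.1 + U x, x.2))).2]
    l2 := fun x => by linarith only [hr, be, (abs_le.1 (be (x.1 + U x, x.2))).1]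
    flow := fun x => by
      have d1 : HasDerivAt (fun s : ℝ => x + s • ((ρ, 1) : E)) (ρ, 1) 0 := by
        simpa using ((hasDerivAt_id (0 : ℝ)).smul_const ((ρ, 1) : E)).const_add x
      have d2 := (hasFDerivAt_fst.fun_add (hU1.differentiable one_ne_zero x).hasFDerivAt).prodMk
        (hasFDerivAt_snd (𝕜 := ℝ) (p := x))
      rw [vs, hp]
      simp only [Φ1]
      exact d2.comp_hasDerivAt_of_eq 0 d1 (by simp) }⟩⟩

end Pool.Agent.Work.MP_1ce82a_an.K
end
end

-- merged part: Pool.Agent.Work.MP_1ce82a_an.K.Meas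
section
/-! Measure theory.

PLAN. `lip_null`: define `φ = b ∘ Function.invFunOn a A`, which is `LipschitzOnWith` on `a '' A`
(`LipschitzOnWith.of_dist_le_mul`), `b '' A ⊆ φ '' (a '' A)` (if `a i = a j` then `b i = b j`),
`LipschitzOnWith.hausdorffMeasure_image_le`. `not_null`: if the set is null, so is the set `N` of
the pairs `(e, (c e ρ).1)` (`lip_null` with `d = 2`, `hausdorffMeasure_prod_real`); by
`measure_ae_null_of_prod_null` (or `Measure.ae_ae_of_ae_prod`) for almost every `e` the slice is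
null, pick such an `e ∈ I`; `lip_null` with `d = 1` (`hausdorffMeasure_real`) shows that `D` is
null. `dio_pos`: almost every real is irrational (countable range of the rational cast) and not
`LiouvilleWith 3` (`ae_not_liouvilleWith`); such a `ρ` satisfies `Dio (1 / (j + 1)) ρ` for some `j`:
for `n ≥ n₀` and all `m`, `|ρ - m / n| ≥ 1 / n ^ 3`; for the finitely many `1 ≤ n < n₀` use
`|ρ n - m| ≥ |ρ n - round (ρ n)| > 0` (`round_le`); sign symmetry `k ↦ -k`; `k.1 = 0` is trivial.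
Then `measure_iUnion_null`. About 250 lines. -/

set_option linter.unusedVariables false

open Set Filter Topology MeasureTheory
open scoped ContDiff ComplexConjugate

noncomputable section
namespace Pool.Agent.Work.MP_1ce82a_an.K

open Pool.Agent.Work.MP_1ce82a_an (E addPot)

theorem lip_null {ι X Y : Type} [MetricSpace X] [MetricSpace Y] [MeasurableSpace X] [BorelSpace X]
    [MeasurableSpace Y] [BorelSpace Y] {A : Set ι} {a : ι → X} {b : ι → Y} {K d : ℝ} (hd : 0 ≤ d)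
    (h : ∀ i ∈ A, ∀ j ∈ A, dist (b i) (b j) ≤ K * dist (a i) (a j))
    (h0 : Measure.hausdorffMeasure d (a '' A) = 0) : Measure.hausdorffMeasure d (b '' A) = 0 := by
  rcases A.eq_empty_or_nonempty with rfl | ⟨i₀, -⟩
  · simp
  have : Nonempty ι := ⟨i₀⟩
  have k : ∀ x ∈ a '' A, Function.invFunOn a A x ∈ A ∧ a (Function.invFunOn a A x) = x :=
    fun x hx => Function.invFunOn_pos hx
  have hl : LipschitzOnWith K.toNNReal (fun x => b (Function.invFunOn a A x)) (a '' A) :=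
    LipschitzOnWith.of_dist_le_mul fun x hx y hy => by
      have := h _ (k x hx).1 _ (k y hy).1
      rw [(k x hx).2, (k y hy).2] at this
      exact this.trans (mul_le_mul_of_nonneg_right (Real.le_coe_toNNReal K) dist_nonneg)
  have hs : b '' A ⊆ (fun x => b (Function.invFunOn a A x)) '' (a '' A) := by
    rintro _ ⟨i, hi, rfl⟩
    have e := k _ (mem_image_of_mem a hi)
    refine ⟨a i, mem_image_of_mem a hi, dist_le_zero.1 ?_⟩
    simpa only [e.2, dist_self, mul_zero] using h _ e.1 _ hi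
  refine measure_mono_null hs (le_antisymm ((hl.hausdorffMeasure_image_le hd).trans ?_) zero_le)
  rw [h0, mul_zero]

theorem not_null {I D : Set ℝ} (hI : volume I ≠ 0) (hD : volume D ≠ 0) {c : ℝ → ℝ → ℝ × ℝ} {K : ℝ}
    (h1 : ∀ e ∈ I, ∀ ρ ∈ D, ∀ ρ' ∈ D, |ρ - ρ'| ≤ K * |(c e ρ).1 - (c e ρ').1|)
    (h2 : ∀ e ∈ I, ∀ e' ∈ I, ∀ ρ ∈ D, ∀ ρ' ∈ D, |e - e'| ≤ K * ‖c e ρ - c e' ρ'‖) :
    volume {x : ℝ × ℝ | ∃ e ∈ I, ∃ ρ ∈ D, x = c e ρ} ≠ 0 := by
  intro h0
  have e2 : (Measure.hausdorffMeasure 2 : Measure (ℝ × ℝ)) = volume := hausdorffMeasure_prod_real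
  have e1 : (Measure.hausdorffMeasure 1 : Measure ℝ) = volume := hausdorffMeasure_real
  have k1 := lip_null (A := I ×ˢ D) (a := fun p => c p.1 p.2) (b := fun p => (p.1, (c p.1 p.2).1))
    (K := max K 1) zero_le_two (fun p hp q hq => by
      rw [Prod.dist_eq]
      refine max_le ?_ ?_
      · rw [dist_eq_norm (c p.1 p.2)]
        exact (h2 _ hp.1 _ hq.1 _ hp.2 _ hq.2).trans
          (mul_le_mul_of_nonneg_right (le_max_left _ _) (norm_nonneg _))
      · have k : dist (c p.1 p.2).1 (c q.1 q.2).1 ≤ dist (c p.1 p.2) (c q.1 q.2) := le_max_left _ _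
        exact k.trans (le_mul_of_one_le_left dist_nonneg (le_max_right _ _))) (by
      rw [e2]
      refine measure_mono_null ?_ h0
      rintro _ ⟨p, hp, rfl⟩
      exact ⟨_, hp.1, _, hp.2, rfl⟩)
  rw [e2] at k1
  obtain ⟨e, he, k2⟩ := Measure.exists_mem_of_measure_ne_zero_of_ae hI
    (ae_restrict_of_ae (Measure.measure_ae_null_of_prod_null k1))
  have k3 := lip_null (A := D) (a := fun ρ => (c e ρ).1) (b := id) (K := K) zero_le_one
    (h1 e he) (by
      rw [e1]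
      refine measure_mono_null ?_ k2
      rintro _ ⟨ρ, hρ, rfl⟩
      exact ⟨(e, ρ), ⟨he, hρ⟩, rfl⟩)
  rw [e1, image_id] at k3
  exact hD k3

theorem Meas_fin {ρ : ℝ} (h : Irrational ρ) (N : ℕ) :
    ∃ γ : ℝ, 0 < γ ∧ ∀ n : ℕ, 1 ≤ n → n ≤ N → ∀ m : ℤ, γ ≤ |ρ * n - m| := by
  induction N with
  | zero => exact ⟨1, one_pos, fun n h1 h2 => by omega⟩
  | succ N ih =>
    obtain ⟨γ, h1, h2⟩ := ih
    refine ⟨min γ |ρ * (N + 1 : ℕ) - round (ρ * (N + 1 : ℕ))|, lt_min h1 (abs_pos.2 (sub_ne_zero.2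
      ((h.mul_natCast N.succ_ne_zero).ne_int _))), fun n k1 k2 m => ?_⟩
    rcases k2.lt_or_eq with k2 | rfl
    · exact (min_le_left _ _).trans (h2 n k1 (by omega) m)
    · exact (min_le_right _ _).trans (round_le _ m)

theorem Meas_nat {ρ : ℝ} (h : Irrational ρ) (h' : ¬ LiouvilleWith 3 ρ) :
    ∃ γ : ℝ, 0 < γ ∧ ∀ n : ℕ, 1 ≤ n → ∀ m : ℤ, γ ≤ |ρ * n - m| * (n : ℝ) ^ 2 := by
  have k : ¬ ∃ᶠ n : ℕ in atTop, ∃ m : ℤ, ρ ≠ m / n ∧ |ρ - m / n| < 1 / (n : ℝ) ^ (3 : ℝ) :=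
    fun e => h' ⟨1, e⟩
  obtain ⟨N, hN⟩ := eventually_atTop.1 (not_frequently.1 k)
  obtain ⟨γ, h1, h2⟩ := Meas_fin h N
  refine ⟨min γ 1, lt_min h1 one_pos, fun n hn m => ?_⟩
  have n1 : (1 : ℝ) ≤ n := by exact_mod_cast hn
  have n0 : (0 : ℝ) < n := by linarith only [n1]
  rcases le_total n N with e | e
  · exact (min_le_left _ _).trans ((h2 n hn e m).trans
      (le_mul_of_one_le_right (abs_nonneg _) (one_le_pow₀ n1)))
  · refine (min_le_right _ _).trans ?_
    have k1 : ρ ≠ m / n := by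
      have := h.ne_rat (m / n)
      rwa [Rat.cast_div, Rat.cast_intCast, Rat.cast_natCast] at this
    have k2 : 1 / (n : ℝ) ^ (3 : ℝ) ≤ |ρ - m / n| := not_lt.1 fun e' => hN n e ⟨m, k1, e'⟩
    rw [Real.rpow_ofNat, div_le_iff₀ (by positivity)] at k2
    have k3 : ρ * n - m = (ρ - m / n) * n := by field_simp
    rw [k3, abs_mul, abs_of_pos n0]
    calc (1 : ℝ) ≤ _ := k2
      _ = _ := by ring

theorem Meas_dio {ρ : ℝ} (h : Irrational ρ) (h' : ¬ LiouvilleWith 3 ρ) :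
    ∃ γ : ℝ, 0 < γ ∧ Dio γ ρ := by
  obtain ⟨γ, h1, h2⟩ := Meas_nat h h'
  refine ⟨min γ 1, lt_min h1 one_pos, fun k hk => ?_⟩
  obtain ⟨a, b⟩ := k
  have a0 := abs_nonneg (a : ℝ)
  have b0 := abs_nonneg (b : ℝ)
  by_cases e : a = 0
  · subst e
    have b1 : (1 : ℝ) ≤ |(b : ℝ)| := by
      have : b ≠ 0 := fun e => hk (by rw [e]; rfl)
      exact_mod_cast Int.one_le_abs this
    refine (min_le_right _ _).trans ?_
    simp only [nk, Int.cast_zero, mul_zero, zero_add, abs_zero, add_zero]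
    exact one_le_mul_of_one_le_of_one_le b1 (one_le_pow₀ (by linarith))
  · refine (min_le_left _ _).trans ?_
    have k1 : ((a.natAbs : ℕ) : ℝ) = |(a : ℝ)| := by rw [Nat.cast_natAbs, Int.cast_abs]
    have k2 : ∃ m : ℤ, |ρ * (a.natAbs : ℕ) - m| = |ρ * a + b| := by
      rw [k1]
      rcases abs_choice (a : ℝ) with e' | e' <;> rw [e']
      · exact ⟨-b, by rw [Int.cast_neg, sub_neg_eq_add]⟩
      · exact ⟨b, by rw [← abs_neg]; ring_nf⟩
    obtain ⟨m, hm⟩ := k2
    have k3 := h2 a.natAbs (Int.natAbs_pos.2 e) m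
    rw [hm, k1] at k3
    refine k3.trans (mul_le_mul_of_nonneg_left (pow_le_pow_left₀ a0 ?_ 2) (abs_nonneg _))
    simp only [nk]
    linarith

theorem dio_pos {r : ℝ} (hr : 0 < r) :
    ∃ γ : ℝ, 0 < γ ∧ volume {ρ : ℝ | |ρ| ≤ r ∧ Dio γ ρ} ≠ 0 := by
  by_contra hn
  have h0 : ∀ j : ℕ, volume {ρ : ℝ | |ρ| ≤ r ∧ Dio (1 / ((j : ℝ) + 1)) ρ} = 0 := fun j => by
    by_contra e
    exact hn ⟨_, Nat.one_div_pos_of_nat, e⟩
  have h1 : ∀ᵐ ρ : ℝ, Irrational ρ :=
    measure_eq_zero_iff_ae_notMem.1 ((countable_range ((↑) : ℚ → ℝ)).measure_zero volume)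
  have h2 := measure_eq_zero_iff_ae_notMem.1 (measure_iUnion_null h0)
  have h3 : volume (Icc (-r) r) ≠ 0 := by
    rw [Real.volume_Icc, Ne, ENNReal.ofReal_eq_zero, not_le]
    linarith only [hr]
  obtain ⟨ρ, hρ, k1, k2, k3⟩ := Measure.exists_mem_of_measure_ne_zero_of_ae h3
    (ae_restrict_of_ae (h1.and (h2.and ae_not_liouvilleWith)))
  obtain ⟨γ, hγ, k4⟩ := Meas_dio k1 (k3 3 (by norm_num))
  obtain ⟨j, hj⟩ := exists_nat_one_div_lt hγ
  exact k2 (mem_iUnion.2 ⟨j, abs_le.2 hρ, fun k hk => hj.le.trans (k4 k hk)⟩)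

end Pool.Agent.Work.MP_1ce82a_an.K
end
end
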